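import Pool.Agent.W_448w4_h10.KA

/-!
MP_448cb3_co, G2, case B, block (K): the sinks of a configuration.  helper10.

A sink is a site which is not killed or a free element. A set of elements with labels at least `c`
which is closed under the cover relation inside the superlevel set contains a sink, unless one of its
elements at distance two is killed by a deeper element.
-/

namespace Pool.Agent.GaussPoset.Win.Kd

set_option linter.unusedSectionVars false

open Finset

universe u

variable {P : Type u} [Fintype P] [PartialOrder P] [DecidableEq P] {r i : ℕ}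
variable {e : P → ℕ} {C : Finset P}

/-- the predicate of a sink -/
def Snk (i : ℕ) (e : P → ℕ) (z : P) : Prop :=
  (lev z = i ∧ ¬ FD e z ∧ ¬ FU e z) ∨ (i < lev z ∧ ¬ FD e z ∧ ¬ GU e z) ∨
    (lev z < i ∧ ¬ FU e z ∧ ¬ GD e z)

open Classical in
/-- the sinks of a configuration in the part -/
noncomputable def Sk (i : ℕ) (C : Finset P) (e : P → ℕ) : Finset P := C.filter (fun z => Snk i e z)

lemma mem_Sk {z : P} : z ∈ Sk i C e ↔ z ∈ C ∧ Snk i e z := by
  classical
  unfold Sk
  rw [mem_filter]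

/-- the number of sinks -/
theorem card_Sk (H : Gr P r) (hir : i ≤ r) (hC : Part (i + 1) C) (hs : Spt C e)
    (hd : Disjoint (AL i e) (AU i e)) :
    (Sk i C e).card + (AL i e).card + (AU i e).card = (st i C).card + pL i e + pU i e := by
  classical
  have hC' : Part i C := ⟨hC.up, fun h1 h2 h3 => hC.dn h1 (by omega) h3⟩
  have h1 : Sk i C e = (((st i C) \ (AL i e)) \ (AU i e)) ∪
      ((univ.filter (fun z : P => i < lev z ∧ ¬ FD e z ∧ ¬ GU e z)) ∪
        (univ.filter (fun z : P => lev z < i ∧ ¬ FU e z ∧ ¬ GD e z))) := by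
    ext z
    rw [mem_Sk, mem_union, mem_union, mem_filter, mem_filter, mem_sdiff, mem_sdiff, mem_st,
      NormD_mem_AL, NormD_mem_AU]
    unfold Snk
    constructor
    · rintro ⟨hz, ⟨a, b, c⟩ | h | h⟩
      · exact Or.inl ⟨⟨⟨hz, a⟩, fun h => b h.2⟩, fun h => c h.2⟩
      · exact Or.inr (Or.inl ⟨mem_univ _, h⟩)
      · exact Or.inr (Or.inr ⟨mem_univ _, h⟩)
    · rintro (⟨⟨⟨hz, a⟩, b⟩, c⟩ | ⟨-, h⟩ | ⟨-, h⟩)
      · exact ⟨hz, Or.inl ⟨a, fun h => b ⟨a, h⟩, fun h => c ⟨a, h⟩⟩⟩
      · refine ⟨?_, Or.inr (Or.inl h)⟩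
        by_contra hz
        exact h.2.2 (GU_out H hs hz (by omega))
      · refine ⟨?_, Or.inr (Or.inr h)⟩
        by_contra hz
        exact h.2.2 (GD_out H hs hz (by omega))
  have d1 : Disjoint (((st i C) \ (AL i e)) \ (AU i e))
      ((univ.filter (fun z : P => i < lev z ∧ ¬ FD e z ∧ ¬ GU e z)) ∪
        (univ.filter (fun z : P => lev z < i ∧ ¬ FU e z ∧ ¬ GD e z))) := by
    rw [disjoint_left]
    intro z hz hz'
    rw [mem_sdiff, mem_sdiff, mem_st] at hz
    rw [mem_union, mem_filter, mem_filter] at hz'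
    rcases hz' with h | h
    · have := h.2.1
      have := hz.1.1.2
      omega
    · have := h.2.1
      have := hz.1.1.2
      omega
  have d2 : Disjoint (univ.filter (fun z : P => i < lev z ∧ ¬ FD e z ∧ ¬ GU e z))
        (univ.filter (fun z : P => lev z < i ∧ ¬ FU e z ∧ ¬ GD e z)) := by
    rw [disjoint_left]
    intro z hz hz'
    rw [mem_filter] at hz hz'
    have := hz.2.1
    have := hz'.2.1
    omega
  have c1 := AL_sub hC' hs
  have c2 := AU_sub H hC' hs
  have h2 : (((st i C) \ (AL i e)) \ (AU i e)).card = (st i C).card - (AL i e).card -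
      (AU i e).card := by
    rw [card_sdiff_of_subset, card_sdiff_of_subset c1]
    intro z hz
    exact mem_sdiff.2 ⟨c2 hz, fun h => disjoint_left.1 hd h hz⟩
  have h3 : (AL i e).card + (AU i e).card ≤ (st i C).card := by
    rw [← card_union_of_disjoint hd]
    exact card_le_card (union_subset c1 c2)
  rw [h1, card_union_of_disjoint d1, card_union_of_disjoint d2, h2]
  unfold pL pU
  omega

/-- the sinks of a configuration of large order -/
theorem Sk_le (H : Gr P r) (hir : i ≤ r) (hC : Part (i + 1) C) (hs : Spt C e) {k : ℕ}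
    (h : ¬ Cheap k i e) : AdmL i e ∧ AdmU i e ∧ Disjoint (AL i e) (AU i e) ∧
      (Sk i C e).card + k + 1 ≤ (st i C).card := by
  unfold Cheap at h
  simp only [not_or, not_not] at h
  obtain ⟨h1, h2, h3, h4⟩ := h
  refine ⟨h1, h2, h3, ?_⟩
  have := card_Sk H hir hC hs h3
  omega

/-- a closed part of a superlevel set contains a sink or an element killed from outside -/
theorem sink_of {B : Finset P} {c : ℕ} (hne : B.Nonempty) (hB : ∀ z ∈ B, c ≤ e z)
    (hlv : ∀ z ∈ B, lev z ≤ i + 2 ∧ i ≤ lev z + 2)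
    (hcl : ∀ z ∈ B, ∀ y, (y ⋖ z ∨ z ⋖ y) → c ≤ e y → lev y ≤ i + 2 → i ≤ lev y + 2 → y ∈ B)
    (H : Gr P r)
    (hno : (∀ z : P, lev z = i + 2 → ¬ FD e z) ∧ (∀ z : P, lev z + 2 = i → ¬ FU e z)) :
    ∃ z ∈ B, Snk i e z := by
  classical
  -- maximal label, then minimal distance
  let ds : P → ℕ := fun z => (lev z - i) + (i - lev z)
  obtain ⟨m, hm, hmax⟩ := exists_max_image B (fun z => 4 * e z + (3 - ds z)) hne
  have hle : ∀ z ∈ B, e z ≤ e m := by
    intro z hz
    have h1 := hmax z hz
    have h2 : ds m ≤ 2 := by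
      have := hlv m hm
      simp only [ds]
      omega
    have h3 : 3 - ds z ≤ 3 := by omega
    omega
  have hnear : ∀ z ∈ B, e z = e m → ds m ≤ ds z := by
    intro z hz he
    have h1 := hmax z hz
    rw [he] at h1
    have h2 := hlv z hz
    have h3 := hlv m hm
    have h4 : ds z ≤ 2 := by simp only [ds]; omega
    have h5 : ds m ≤ 2 := by simp only [ds]; omega
    omega
  obtain ⟨l1, l2⟩ := hlv m hm
  have cm := hB m hm
  have nFD : i ≤ lev m → ¬ FD e m := by
    intro hi hF
    obtain ⟨y, hy, hlt⟩ := hF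
    have hl := lev_uc H (mem_uc.2 hy)
    rcases Nat.lt_or_ge (lev m) (i + 2) with h | h
    · have h1 := hle y (hcl m hm y (Or.inl hy) (by omega) (by omega) (by omega))
      omega
    · exact hno.1 m (by omega) ⟨y, hy, hlt⟩
  have nFU : lev m ≤ i → ¬ FU e m := by
    intro hi hF
    obtain ⟨y, hy, hlt⟩ := hF
    have hl := lev_uc H (mem_uc.2 hy)
    rcases Nat.lt_or_ge i (lev m + 2) with h | h
    · have h1 := hle y (hcl m hm y (Or.inr hy) (by omega) (by omega) (by omega))
      omega
    · exact hno.2 m (by omega) ⟨y, hy, hlt⟩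
  refine ⟨m, hm, ?_⟩
  rcases Nat.lt_trichotomy (lev m) i with h | h | h
  · refine Or.inr (Or.inr ⟨h, nFU h.le, ?_⟩)
    rintro ⟨y, hy, hle'⟩
    have hl := lev_uc H (mem_uc.2 hy)
    have hyB := hcl m hm y (Or.inl hy) (by omega) (by omega) (by omega)
    have h1 := hle y hyB
    have h2 := hnear y hyB (by omega)
    simp only [ds] at h2
    omega
  · exact Or.inl ⟨h, nFD h.ge, nFU h.le⟩
  · refine Or.inr (Or.inl ⟨h, nFD h.le, ?_⟩)
    rintro ⟨y, hy, hle'⟩
    have hl := lev_uc H (mem_uc.2 hy)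
    have hyB := hcl m hm y (Or.inr hy) (by omega) (by omega) (by omega)
    have h1 := hle y hyB
    have h2 := hnear y hyB (by omega)
    simp only [ds] at h2
    omega

end Pool.Agent.GaussPoset.Win.Kd
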