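import Pool.Agent.W_448kd_h10.KdA

/-!
MP_448cb3_co, G2, case B, block (K): positions.  helper10.

The site `x k` has the position `2 k + 1`, the elements of level `i ± 1`, `i ± 2` of the part have positions
such that adjacent elements have positions which differ by at most one. `N p` is the number of excited
elements at the position `p`, `L p` is `1` if there is a label `≥ 2` at `p`, `cs q` is the number of sinks
with position `≤ q`.
-/

namespace Pool.Agent.GaussPoset.Win.Kd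

set_option linter.unusedSectionVars false

open Finset

universe u

variable {P : Type u} [Fintype P] [PartialOrder P] [DecidableEq P] {r i b : ℕ}
variable {e : P → ℕ} {C : Finset P} {x : ℕ → P} {pos : P → ℕ}

/-- the level is at most two away from `i` -/
def ND (i : ℕ) (z : P) : Prop := lev z ≤ i + 2 ∧ i ≤ lev z + 2

/-- positions -/
structure PosS (i b : ℕ) (C : Finset P) (x : ℕ → P) (pos : P → ℕ) : Prop where
  stx : ∀ v ∈ st i C, ∃ k, k < b ∧ v = x k
  xst : ∀ k, k < b → x k ∈ st i C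
  px : ∀ k, k < b → pos (x k) = 2 * k + 1
  adj : ∀ z ∈ C, ∀ y ∈ C, z ⋖ y → lev z ≤ i + 2 → i ≤ lev y + 2 →
    pos z ≤ pos y + 1 ∧ pos y ≤ pos z + 1
  rng : ∀ z ∈ C, ND i z → 1 ≤ pos z ∧ pos z < 2 * b

open Classical in
/-- elements with label at least `c` at the position `p` -/
noncomputable def Ex (i : ℕ) (C : Finset P) (pos : P → ℕ) (e : P → ℕ) (c p : ℕ) : Finset P :=
  C.filter (fun z => ND i z ∧ pos z = p ∧ c ≤ e z)

lemma mem_Ex {c p : ℕ} {z : P} : z ∈ Ex i C pos e c p ↔ z ∈ C ∧ ND i z ∧ pos z = p ∧ c ≤ e z := by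
  classical
  unfold Ex
  rw [mem_filter]

/-- the number of excited elements at a position -/
noncomputable def Nn (i : ℕ) (C : Finset P) (pos : P → ℕ) (e : P → ℕ) (p : ℕ) : ℕ :=
  (Ex i C pos e 1 p).card

open Classical in
/-- is there a label at least two at a position -/
noncomputable def Ll (i : ℕ) (C : Finset P) (pos : P → ℕ) (e : P → ℕ) (p : ℕ) : ℕ :=
  if (Ex i C pos e 2 p).Nonempty then 1 else 0

open Classical in
/-- the number of sinks up to a position -/
noncomputable def Cs (i : ℕ) (C : Finset P) (pos : P → ℕ) (e : P → ℕ) (q : ℕ) : ℕ :=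
  ((Sk i C e).filter (fun z => ND i z ∧ pos z ≤ q)).card

lemma Nn_zero {p : ℕ} : Nn i C pos e p = 0 ↔ ∀ z ∈ C, ND i z → pos z = p → e z = 0 := by
  unfold Nn
  rw [card_eq_zero]
  constructor
  · intro h z hz hn hp
    by_contra h0
    have : z ∈ Ex i C pos e 1 p := mem_Ex.2 ⟨hz, hn, hp, by omega⟩
    rw [h] at this
    exact absurd this (notMem_empty z)
  · intro h
    rw [eq_empty_iff_forall_notMem]
    intro z hz
    obtain ⟨h1, h2, h3, h4⟩ := mem_Ex.1 hz
    have := h z h1 h2 h3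
    omega

lemma Nn_pos {p : ℕ} : 1 ≤ Nn i C pos e p ↔ ∃ z ∈ C, ND i z ∧ pos z = p ∧ 1 ≤ e z := by
  unfold Nn
  rw [Nat.one_le_iff_ne_zero, Finset.card_ne_zero]
  constructor
  · rintro ⟨z, hz⟩
    obtain ⟨h1, h2, h3, h4⟩ := mem_Ex.1 hz
    exact ⟨z, h1, h2, h3, h4⟩
  · rintro ⟨z, h1, h2, h3, h4⟩
    exact ⟨z, mem_Ex.2 ⟨h1, h2, h3, h4⟩⟩

lemma Ll_zero {p : ℕ} : Ll i C pos e p = 0 ↔ ∀ z ∈ C, ND i z → pos z = p → e z ≤ 1 := by
  classical
  unfold Ll
  constructor
  · intro h z hz hn hp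
    by_contra h0
    have : z ∈ Ex i C pos e 2 p := mem_Ex.2 ⟨hz, hn, hp, by omega⟩
    rw [if_pos ⟨z, this⟩] at h
    omega
  · intro h
    rw [if_neg]
    rintro ⟨z, hz⟩
    obtain ⟨h1, h2, h3, h4⟩ := mem_Ex.1 hz
    have := h z h1 h2 h3
    omega

lemma Ll_one {p : ℕ} : 1 ≤ Ll i C pos e p ↔ ∃ z ∈ C, ND i z ∧ pos z = p ∧ 2 ≤ e z := by
  classical
  unfold Ll
  constructor
  · intro h
    split_ifs at h with h1
    · obtain ⟨z, hz⟩ := h1
      obtain ⟨h1, h2, h3, h4⟩ := mem_Ex.1 hz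
      exact ⟨z, h1, h2, h3, h4⟩
    · omega
  · rintro ⟨z, h1, h2, h3, h4⟩
    rw [if_pos ⟨z, mem_Ex.2 ⟨h1, h2, h3, h4⟩⟩]

lemma Ll_le {p : ℕ} : Ll i C pos e p ≤ 1 := by
  classical
  unfold Ll
  split_ifs <;> omega

lemma Ll_le_Nn {p : ℕ} : Ll i C pos e p ≤ Nn i C pos e p := by
  rcases Nat.eq_zero_or_pos (Ll i C pos e p) with h | h
  · omega
  · obtain ⟨z, h1, h2, h3, h4⟩ := Ll_one.1 h
    have h5 : 1 ≤ Nn i C pos e p := Nn_pos.2 ⟨z, h1, h2, h3, by omega⟩
    have := Ll_le (i := i) (C := C) (pos := pos) (e := e) (p := p)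
    exact this.trans h5

lemma Cs_mono {p q : ℕ} (h : p ≤ q) : Cs i C pos e p ≤ Cs i C pos e q := by
  classical
  unfold Cs
  apply card_le_card
  intro z hz
  rw [mem_filter] at hz ⊢
  exact ⟨hz.1, hz.2.1, by omega⟩

lemma Cs_le {q : ℕ} : Cs i C pos e q ≤ (Sk i C e).card := by
  classical
  unfold Cs
  exact card_le_card (filter_subset _ _)

/-- a sink in an interval -/
lemma Cs_lt {p q : ℕ} {z : P} (hz : z ∈ C) (hn : ND i z) (hs : Snk i e z) (h1 : p < pos z)
    (h2 : pos z ≤ q) : Cs i C pos e p + 1 ≤ Cs i C pos e q := by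
  classical
  unfold Cs
  have h3 : z ∉ (Sk i C e).filter (fun z => ND i z ∧ pos z ≤ p) := by
    rw [mem_filter]
    rintro ⟨-, -, h⟩
    omega
  rw [← card_insert_of_notMem h3]
  apply card_le_card
  intro y hy
  rw [mem_insert] at hy
  rcases hy with rfl | hy
  · rw [mem_filter]
    exact ⟨mem_Sk.2 ⟨hz, hs⟩, hn, h2⟩
  · rw [mem_filter] at hy ⊢
    exact ⟨hy.1, hy.2.1, by omega⟩

/-- the energy is at least the number of excited elements plus the number of positions with a label at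
least two -/
lemma energy_ge (b : ℕ) : ∑ t ∈ range (2 * b), (Nn i C pos e t + Ll i C pos e t) ≤ ∑ z, e z := by
  classical
  have h1 : ∀ t ∈ range (2 * b), Nn i C pos e t + Ll i C pos e t ≤
      ∑ z ∈ C.filter (fun z => ND i z ∧ pos z = t), e z := by
    intro t _
    have hsub : Ex i C pos e 1 t ⊆ C.filter (fun z => ND i z ∧ pos z = t) := by
      intro z hz
      obtain ⟨h1, h2, h3, h4⟩ := mem_Ex.1 hz
      exact mem_filter.2 ⟨h1, h2, h3⟩
    refine le_trans ?_ (sum_le_sum_of_subset hsub)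
    have hone : ∀ z ∈ Ex i C pos e 1 t, 1 ≤ e z := fun z hz => (mem_Ex.1 hz).2.2.2
    have hcard : Nn i C pos e t = ∑ z ∈ Ex i C pos e 1 t, 1 := by
      unfold Nn
      rw [card_eq_sum_ones]
    rcases Nat.eq_zero_or_pos (Ll i C pos e t) with h | h
    · rw [h, add_zero, hcard]
      exact sum_le_sum hone
    · obtain ⟨z0, k1, k2, k3, k4⟩ := Ll_one.1 h
      have hz0 : z0 ∈ Ex i C pos e 1 t := mem_Ex.2 ⟨k1, k2, k3, by omega⟩
      have := Ll_le (i := i) (C := C) (pos := pos) (e := e) (p := t)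
      rw [hcard]
      have h5 : ∑ z ∈ Ex i C pos e 1 t, 1 < ∑ z ∈ Ex i C pos e 1 t, e z :=
        sum_lt_sum hone ⟨z0, hz0, by omega⟩
      omega
  refine (sum_le_sum h1).trans ?_
  rw [← sum_biUnion]
  · exact sum_le_sum_of_subset (subset_univ _)
  · intro s _ t _ hst
    rw [Function.onFun, disjoint_left]
    intro z hz hz'
    rw [mem_filter] at hz hz'
    exact hst (hz.2.2.symm.trans hz'.2.2)

section sinks

variable (H : Gr P r) (hP : PosS i b C x pos) (hs : Spt C e)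
  (hno : (∀ z : P, lev z = i + 2 → ¬ FD e z) ∧ (∀ z : P, lev z + 2 = i → ¬ FU e z))

include H hP hs hno

/-- a closed interval of a superlevel set contains a sink -/
theorem interval {c : ℕ} (hc : 1 ≤ c) {p q : ℕ} (hp : ∀ z ∈ C, ND i z → pos z = p → e z < c)
    (hq : ∀ z ∈ C, ND i z → pos z = q + 1 → e z < c)
    (hex : ∃ z ∈ C, ND i z ∧ p < pos z ∧ pos z ≤ q ∧ c ≤ e z) :
    Cs i C pos e p + 1 ≤ Cs i C pos e q := by
  classical
  have key := sink_of (i := i) (e := e) (c := c)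
    (B := C.filter (fun z => ND i z ∧ p < pos z ∧ pos z ≤ q ∧ c ≤ e z)) ?_ ?_ ?_ ?_ H hno
  · obtain ⟨z, hz, hk⟩ := key
    rw [mem_filter] at hz
    exact Cs_lt hz.1 hz.2.1 hk hz.2.2.1 hz.2.2.2.1
  · obtain ⟨z, hz, h⟩ := hex
    exact ⟨z, mem_filter.2 ⟨hz, h⟩⟩
  · intro z hz
    exact (mem_filter.1 hz).2.2.2.2
  · intro z hz
    exact (mem_filter.1 hz).2.1
  · intro z hz y hzy hy l1 l2
    rw [mem_filter] at hz
    obtain ⟨hzC, hn, h1, h2, h3⟩ := hz
    have hyC : y ∈ C := by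
      by_contra h
      have := hs y h
      omega
    have h4 : pos y ≤ pos z + 1 ∧ pos z ≤ pos y + 1 := by
      rcases hzy with h | h
      · exact hP.adj y hyC z hzC h l1 hn.2
      · have := hP.adj z hzC y hyC h hn.1 l2
        exact ⟨this.2, this.1⟩
    refine mem_filter.2 ⟨hyC, ⟨l1, l2⟩, ?_, ?_, hy⟩
    · by_contra h5
      have := hp y hyC ⟨l1, l2⟩ (by omega)
      omega
    · by_contra h5
      have := hq y hyC ⟨l1, l2⟩ (by omega)
      omega

/-- an interval of positions which contains a site and has empty ends contains a sink -/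
theorem I1 {p q : ℕ} (hp : Nn i C pos e p = 0) (hq : Nn i C pos e (q + 1) = 0)
    (ha : ∃ a, p < a ∧ a ≤ q ∧ ((∃ k, k < b ∧ a = 2 * k + 1) ∨ 1 ≤ Nn i C pos e a)) :
    Cs i C pos e p + 1 ≤ Cs i C pos e q := by
  classical
  by_cases hex : ∃ z ∈ C, ND i z ∧ p < pos z ∧ pos z ≤ q ∧ 1 ≤ e z
  · refine interval H hP hs hno le_rfl (fun z h1 h2 h3 => ?_) (fun z h1 h2 h3 => ?_) hex
    · have := Nn_zero.1 hp z h1 h2 h3
      omega
    · have := Nn_zero.1 hq z h1 h2 h3
      omega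
  obtain ⟨a, h1, h2, h3⟩ := ha
  have h3 : ∃ k, k < b ∧ a = 2 * k + 1 := by
    rcases h3 with h3 | h3
    · exact h3
    · obtain ⟨z, k1, k2, k3, k4⟩ := Nn_pos.1 h3
      exact absurd ⟨z, k1, k2, by omega, by omega, k4⟩ hex
  obtain ⟨k, hk, rfl⟩ := h3
  have hx := mem_st.1 (hP.xst k hk)
  have hpx := hP.px k hk
  have hz : ∀ z ∈ C, ND i z → p ≤ pos z → pos z ≤ q + 1 → e z = 0 := by
    intro z hz hn h4 h5
    rcases Nat.eq_or_lt_of_le h4 with h6 | h6
    · exact Nn_zero.1 hp z hz hn h6.symm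
    · rcases Nat.eq_or_lt_of_le h5 with h7 | h7
      · exact Nn_zero.1 hq z hz hn h7
      · by_contra h8
        exact hex ⟨z, hz, hn, h6, by omega, by omega⟩
  refine Cs_lt hx.1 ⟨by omega, by omega⟩ (Or.inl ⟨hx.2, ?_, ?_⟩) (by omega) (by omega)
  · rintro ⟨y, hy, hlt⟩
    have hl := lev_uc H (mem_uc.2 hy)
    have hyC : y ∈ C := by
      by_contra h
      have := hs y h
      omega
    have h4 := hP.adj y hyC _ hx.1 hy (by omega) (by omega)
    have := hz y hyC ⟨by omega, by omega⟩ (by omega) (by omega)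
    omega
  · rintro ⟨y, hy, hlt⟩
    have hl := lev_uc H (mem_uc.2 hy)
    have hyC : y ∈ C := by
      by_contra h
      have := hs y h
      omega
    have h4 := hP.adj _ hx.1 y hyC hy (by omega) (by omega)
    have := hz y hyC ⟨by omega, by omega⟩ (by omega) (by omega)
    omega

/-- the second superlevel set -/
theorem I2 {p q : ℕ} (hp : Ll i C pos e p = 0) (hq : Ll i C pos e (q + 1) = 0)
    (ha : ∃ a, p < a ∧ a ≤ q ∧ 1 ≤ Ll i C pos e a) : Cs i C pos e p + 1 ≤ Cs i C pos e q := by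
  obtain ⟨a, h1, h2, h3⟩ := ha
  obtain ⟨z, k1, k2, k3, k4⟩ := Ll_one.1 h3
  refine interval H hP hs hno (c := 2) (by norm_num) (fun z h1 h2 h3 => ?_) (fun z h1 h2 h3 => ?_)
    ⟨z, k1, k2, by omega, by omega, k4⟩
  · have := Ll_zero.1 hp z h1 h2 h3
    omega
  · have := Ll_zero.1 hq z h1 h2 h3
    omega

omit hno in
/-- a labelled site without labels `≥ 2` next to it is a sink -/
theorem site_sink {v : P} (hv : v ∈ st i C) (he : 1 ≤ e v) (h1 : Ll i C pos e (pos v - 1) = 0)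
    (h2 : Ll i C pos e (pos v) = 0) (h3 : Ll i C pos e (pos v + 1) = 0) : Snk i e v := by
  obtain ⟨hvC, hlv⟩ := mem_st.1 hv
  have hr := hP.rng v hvC ⟨by omega, by omega⟩
  refine Or.inl ⟨hlv, ?_, ?_⟩
  · rintro ⟨y, hy, hlt⟩
    have hl := lev_uc H (mem_uc.2 hy)
    have hyC : y ∈ C := by
      by_contra h
      have := hs y h
      omega
    have h4 := hP.adj y hyC v hvC hy (by omega) (by omega)
    have h5 : pos y = pos v - 1 ∨ pos y = pos v ∨ pos y = pos v + 1 := by omega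
    rcases h5 with h5 | h5 | h5
    · have := Ll_zero.1 h1 y hyC ⟨by omega, by omega⟩ h5; omega
    · have := Ll_zero.1 h2 y hyC ⟨by omega, by omega⟩ h5; omega
    · have := Ll_zero.1 h3 y hyC ⟨by omega, by omega⟩ h5; omega
  · rintro ⟨y, hy, hlt⟩
    have hl := lev_uc H (mem_uc.2 hy)
    have hyC : y ∈ C := by
      by_contra h
      have := hs y h
      omega
    have h4 := hP.adj v hvC y hyC hy (by omega) (by omega)
    have h5 : pos y = pos v - 1 ∨ pos y = pos v ∨ pos y = pos v + 1 := by omega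
    rcases h5 with h5 | h5 | h5
    · have := Ll_zero.1 h1 y hyC ⟨by omega, by omega⟩ h5; omega
    · have := Ll_zero.1 h2 y hyC ⟨by omega, by omega⟩ h5; omega
    · have := Ll_zero.1 h3 y hyC ⟨by omega, by omega⟩ h5; omega

omit hno in
/-- an excited near element without labels `≥ 2` next to it is a sink or has a labelled site -/
theorem near_sink {y : P} (hy : y ∈ C) (hl : lev y = i + 1 ∨ lev y + 1 = i) (he : 1 ≤ e y)
    (h1 : Ll i C pos e (pos y - 1) = 0) (h2 : Ll i C pos e (pos y) = 0)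
    (h3 : Ll i C pos e (pos y + 1) = 0) :
    Snk i e y ∨ ∃ v ∈ st i C, (y ⋖ v ∨ v ⋖ y) ∧ e v = 1 ∧
      (pos v = pos y - 1 ∨ pos v = pos y ∨ pos v = pos y + 1) := by
  have hnd : ND i y := ⟨by omega, by omega⟩
  have hr := hP.rng y hy hnd
  have e1 := Ll_zero.1 h2 y hy hnd rfl
  have hle : ∀ z ∈ C, ND i z → (pos z ≤ pos y + 1 ∧ pos y ≤ pos z + 1) → e z ≤ 1 := by
    intro z hz hn h4
    have h5 : pos z = pos y - 1 ∨ pos z = pos y ∨ pos z = pos y + 1 := by omega
    rcases h5 with h5 | h5 | h5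
    · exact Ll_zero.1 h1 z hz hn h5
    · exact Ll_zero.1 h2 z hz hn h5
    · exact Ll_zero.1 h3 z hz hn h5
  have hin : ∀ z, 1 ≤ e z → z ∈ C := by
    intro z hz
    by_contra h
    have := hs z h
    omega
  rcases hl with hl | hl
  · have n1 : ¬ FD e y := by
      rintro ⟨z, hz, hlt⟩
      have hlz := lev_uc H (mem_uc.2 hz)
      have h4 := hP.adj z (hin z (by omega)) y hy hz (by omega) (by omega)
      have := hle z (hin z (by omega)) ⟨by omega, by omega⟩ h4
      omega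
    by_cases n2 : GU e y
    · obtain ⟨v, hv, hlt⟩ := n2
      have hlv := lev_uc H (mem_uc.2 hv)
      have hvC := hin v (by omega)
      have h4 := hP.adj y hy v hvC hv (by omega) (by omega)
      have h5 := hle v hvC ⟨by omega, by omega⟩ ⟨h4.2, h4.1⟩
      exact Or.inr ⟨v, mem_st.2 ⟨hvC, by omega⟩, Or.inl hv, by omega, by omega⟩
    · exact Or.inl (Or.inr (Or.inl ⟨by omega, n1, n2⟩))
  · have n1 : ¬ FU e y := by
      rintro ⟨z, hz, hlt⟩
      have hlz := lev_uc H (mem_uc.2 hz)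
      have h4 := hP.adj y hy z (hin z (by omega)) hz (by omega) (by omega)
      have := hle z (hin z (by omega)) ⟨by omega, by omega⟩ ⟨h4.2, h4.1⟩
      omega
    by_cases n2 : GD e y
    · obtain ⟨v, hv, hlt⟩ := n2
      have hlv := lev_uc H (mem_uc.2 hv)
      have hvC := hin v (by omega)
      have h4 := hP.adj v hvC y hy hv (by omega) (by omega)
      have h5 := hle v hvC ⟨by omega, by omega⟩ h4
      exact Or.inr ⟨v, mem_st.2 ⟨hvC, by omega⟩, Or.inr hv, by omega, by omega⟩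
    · exact Or.inl (Or.inr (Or.inr ⟨by omega, n1, n2⟩))

omit hno in
/-- an excited near element without labels `≥ 2` up to distance two gives a sink at distance at most
one -/
theorem near_G {y : P} (hy : y ∈ C) (hl : lev y = i + 1 ∨ lev y + 1 = i) (he : 1 ≤ e y)
    (h : ∀ t, t ≤ pos y + 2 → pos y ≤ t + 2 → Ll i C pos e t = 0) :
    Cs i C pos e (pos y - 2) + 1 ≤ Cs i C pos e (pos y + 1) := by
  have hnd : ND i y := ⟨by omega, by omega⟩
  have hr := hP.rng y hy hnd
  rcases near_sink H hP hs hy hl he (h _ (by omega) (by omega)) (h _ (by omega) (by omega))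
    (h _ (by omega) (by omega)) with h1 | ⟨v, hv, hyv, hev, hpv⟩
  · exact Cs_lt hy hnd h1 (by omega) (by omega)
  · obtain ⟨hvC, hlv⟩ := mem_st.1 hv
    have hrv := hP.rng v hvC ⟨by omega, by omega⟩
    have h2 := site_sink H hP hs hv (by omega) (h _ (by omega) (by omega))
      (h _ (by omega) (by omega)) (h _ (by omega) (by omega))
    exact Cs_lt hvC ⟨by omega, by omega⟩ h2 (by omega) (by omega)

end sinks

end Pool.Agent.GaussPoset.Win.Kd
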