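import Pool.Agent.W_448kd_h10.KdB

/-!
MP_448cb3_co, G2, case B, block (K): the counting of positions.  helper10.
-/

namespace Pool.Agent.GaussPoset.Win.Kd

set_option linter.unusedSectionVars false

open Finset

/-- the numerical data of a configuration -/
structure Num (b : ℕ) (N L cs : ℕ → ℕ) : Prop where
  n0 : N 0 = 0
  nb : N (2 * b) = 0
  ln : ∀ t, L t ≤ 1 ∧ L t ≤ N t
  mono : ∀ p q, p ≤ q → cs p ≤ cs q
  i1 : ∀ p q, N p = 0 → N (q + 1) = 0 →
    (∃ a, p < a ∧ a ≤ q ∧ ((∃ k, k < b ∧ a = 2 * k + 1) ∨ 1 ≤ N a)) → cs p + 1 ≤ cs q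
  i2 : ∀ p q, L p = 0 → L (q + 1) = 0 → (∃ a, p < a ∧ a ≤ q ∧ 1 ≤ L a) → cs p + 1 ≤ cs q
  g : ∀ a, a % 2 = 0 → 1 ≤ N a → (∀ t, t ≤ a + 2 → a ≤ t + 2 → L t = 0) →
    cs (a - 2) + 1 ≤ cs (a + 1)

variable {b : ℕ} {N L cs : ℕ → ℕ}

namespace Num

variable (h : Num b N L cs)
include h

lemma l0 : L 0 = 0 := by
  have := h.ln 0
  have := h.n0
  omega

lemma lb : L (2 * b) = 0 := by
  have := h.ln (2 * b)
  have := h.nb
  omega

/-- an interval which contains a site -/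
lemma site (p q k : ℕ) (h1 : N p = 0) (h2 : N (q + 1) = 0) (h3 : p < 2 * k + 1)
    (h4 : 2 * k + 1 ≤ q) (h5 : k < b) : cs p + 1 ≤ cs q :=
  h.i1 p q h1 h2 ⟨2 * k + 1, h3, h4, Or.inl ⟨k, h5, rfl⟩⟩

/-- an interval which contains an excited element -/
lemma pt (p q a : ℕ) (h1 : N p = 0) (h2 : N (q + 1) = 0) (h3 : p < a) (h4 : a ≤ q)
    (h5 : 1 ≤ N a) : cs p + 1 ≤ cs q :=
  h.i1 p q h1 h2 ⟨a, h3, h4, Or.inr h5⟩

/-- an interval of the second superlevel set -/
lemma lp (p q a : ℕ) (h1 : L p = 0) (h2 : L (q + 1) = 0) (h3 : p < a) (h4 : a ≤ q)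
    (h5 : 1 ≤ L a) : cs p + 1 ≤ cs q :=
  h.i2 p q h1 h2 ⟨a, h3, h4, h5⟩

/-- two gaps are not crossed: three sinks -/
lemma two_gaps {p q : ℕ} (hp : p % 2 = 0) (hq : q % 2 = 0) (h1 : 1 ≤ p) (h2 : p < q)
    (h3 : q < 2 * b) (np : N p = 0) (nq : N q = 0) : cs 0 + 3 ≤ cs (2 * b - 1) := by
  have e1 := h.site 0 (p - 1) 0 h.n0 (by rw [Nat.sub_add_cancel h1]; exact np) (by omega)
    (by omega) (by omega)
  have e2 := h.site p (q - 1) (p / 2) np (by rw [Nat.sub_add_cancel (by omega)]; exact nq)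
    (by omega) (by omega) (by omega)
  have e3 := h.site q (2 * b - 1) (q / 2) nq (by
    rw [show 2 * b - 1 + 1 = 2 * b by omega]; exact h.nb) (by omega) (by omega) (by omega)
  have m1 := h.mono (p - 1) p (by omega)
  have m2 := h.mono (q - 1) q (by omega)
  omega

/-- two odd positions without excited elements between excited even ones: three sinks -/
lemma two_odd {p q l m : ℕ} (h1 : 1 ≤ p) (h2 : p + 1 < q) (nl : N l = 0) (nm : N (m + 1) = 0)
    (l1 : l + 1 < p) (l2 : q < m) (n1 : 1 ≤ N (p - 1)) (n2 : 1 ≤ N (p + 1)) (n3 : 1 ≤ N (q + 1))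
    (np : N p = 0) (nq : N q = 0) : cs l + 3 ≤ cs m := by
  have e1 := h.pt l (p - 1) (p - 1) nl (by rw [Nat.sub_add_cancel h1]; exact np) (by omega)
    (by omega) n1
  have e2 := h.pt p (q - 1) (p + 1) np (by rw [Nat.sub_add_cancel (by omega)]; exact nq)
    (by omega) (by omega) n2
  have e3 := h.pt q m (q + 1) nq nm (by omega) (by omega) n3
  have m1 := h.mono (p - 1) p (by omega)
  have m2 := h.mono (q - 1) q (by omega)
  omega

/-- one position without excited elements inside an interval: two sinks -/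
lemma one_odd {p l m : ℕ} (h1 : 1 ≤ p) (nl : N l = 0) (nm : N (m + 1) = 0)
    (l1 : l + 1 < p) (l2 : p < m) (n1 : 1 ≤ N (p - 1)) (n2 : 1 ≤ N (p + 1))
    (np : N p = 0) : cs l + 2 ≤ cs m := by
  have e1 := h.pt l (p - 1) (p - 1) nl (by rw [Nat.sub_add_cancel h1]; exact np) (by omega)
    (by omega) n1
  have e2 := h.pt p m (p + 1) np nm (by omega) (by omega) n2
  have m1 := h.mono (p - 1) p (by omega)
  omega

end Num

lemma sum12 (f : ℕ → ℕ) : ∑ t ∈ range (2 * 6), f t = f 0 + f 1 + f 2 + f 3 + f 4 + f 5 + f 6 +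
    f 7 + f 8 + f 9 + f 10 + f 11 := by
  simp [Finset.sum_range_succ]

lemma sum10 (f : ℕ → ℕ) : ∑ t ∈ range (2 * 5), f t = f 0 + f 1 + f 2 + f 3 + f 4 + f 5 + f 6 +
    f 7 + f 8 + f 9 := by
  simp [Finset.sum_range_succ]

section six

variable (h : Num 6 N L cs)
include h

/-- all gaps crossed, at most two sinks: energy at least nine -/
theorem six_all (hd : cs 11 ≤ 2) (hE : ∑ t ∈ range (2 * 6), (N t + L t) ≤ 8)
    (n2 : 1 ≤ N 2) (n4 : 1 ≤ N 4) (n6 : 1 ≤ N 6) (n8 : 1 ≤ N 8) (n10 : 1 ≤ N 10) : False := by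
  rw [sum12 (fun t => N t + L t)] at hE
  have z0 := h.n0
  have z12 : N (11 + 1) = 0 := h.nb
  have p1 : ¬ (N 3 = 0 ∧ N 5 = 0) := fun ⟨a, c⟩ => by
    have := h.two_odd (p := 3) (q := 5) (l := 0) (m := 11) (by omega) (by omega) z0 z12 (by omega)
      (by omega) n2 n4 n6 a c
    omega
  have p2 : ¬ (N 3 = 0 ∧ N 7 = 0) := fun ⟨a, c⟩ => by
    have := h.two_odd (p := 3) (q := 7) (l := 0) (m := 11) (by omega) (by omega) z0 z12 (by omega)
      (by omega) n2 n4 n8 a c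
    omega
  have p3 : ¬ (N 3 = 0 ∧ N 9 = 0) := fun ⟨a, c⟩ => by
    have := h.two_odd (p := 3) (q := 9) (l := 0) (m := 11) (by omega) (by omega) z0 z12 (by omega)
      (by omega) n2 n4 n10 a c
    omega
  have p4 : ¬ (N 5 = 0 ∧ N 7 = 0) := fun ⟨a, c⟩ => by
    have := h.two_odd (p := 5) (q := 7) (l := 0) (m := 11) (by omega) (by omega) z0 z12 (by omega)
      (by omega) n4 n6 n8 a c
    omega
  have p5 : ¬ (N 5 = 0 ∧ N 9 = 0) := fun ⟨a, c⟩ => by
    have := h.two_odd (p := 5) (q := 9) (l := 0) (m := 11) (by omega) (by omega) z0 z12 (by omega)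
      (by omega) n4 n6 n10 a c
    omega
  have p6 : ¬ (N 7 = 0 ∧ N 9 = 0) := fun ⟨a, c⟩ => by
    have := h.two_odd (p := 7) (q := 9) (l := 0) (m := 11) (by omega) (by omega) z0 z12 (by omega)
      (by omega) n6 n8 n10 a c
    omega
  have s3 : 3 ≤ N 3 + N 5 + N 7 + N 9 := by omega
  have L0 := h.l0
  have L12 : L 12 = 0 := h.lb
  have hL : ∀ t, t ≤ 12 → L t = 0 := by
    intro t ht
    interval_cases t <;> omega
  have g1 := h.g 2 (by norm_num) n2 (fun t _ _ => hL t (by omega))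
  have g2 := h.g 6 (by norm_num) n6 (fun t _ _ => hL t (by omega))
  have g3 := h.g 10 (by norm_num) n10 (fun t _ _ => hL t (by omega))
  have m1 := h.mono 3 4 (by norm_num)
  have m2 := h.mono 7 8 (by norm_num)
  norm_num at g1 g2 g3
  omega

/-- the implications of the second superlevel set and of the near elements -/
lemma six_imp : (∀ a, a % 2 = 0 → 1 ≤ N a → L (a - 2) = 0 → L (a - 1) = 0 → L a = 0 →
    L (a + 1) = 0 → L (a + 2) = 0 → cs (a - 2) + 1 ≤ cs (a + 1)) ∧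
    (∀ t, 1 ≤ t → L (t - 1) = 0 → L (t + 1) = 0 → 1 ≤ L t → cs (t - 1) + 1 ≤ cs t) := by
  constructor
  · intro a h1 h2 h3 h4 h5 h6 h7
    refine h.g a h1 h2 fun t t1 t2 => ?_
    have : t = a - 2 ∨ t = a - 1 ∨ t = a ∨ t = a + 1 ∨ t = a + 2 := by omega
    rcases this with rfl | rfl | rfl | rfl | rfl <;> assumption
  · intro t h1 h2 h3 h4
    exact h.lp (t - 1) t t h2 h3 (by omega) le_rfl h4

/-- the chain of the sink counts -/
lemma chain12 : cs 0 ≤ cs 1 ∧ cs 1 ≤ cs 2 ∧ cs 2 ≤ cs 3 ∧ cs 3 ≤ cs 4 ∧ cs 4 ≤ cs 5 ∧ cs 5 ≤ cs 6 ∧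
    cs 6 ≤ cs 7 ∧ cs 7 ≤ cs 8 ∧ cs 8 ≤ cs 9 ∧ cs 9 ≤ cs 10 ∧ cs 10 ≤ cs 11 :=
  ⟨h.mono _ _ (by norm_num), h.mono _ _ (by norm_num), h.mono _ _ (by norm_num),
    h.mono _ _ (by norm_num), h.mono _ _ (by norm_num), h.mono _ _ (by norm_num),
    h.mono _ _ (by norm_num), h.mono _ _ (by norm_num), h.mono _ _ (by norm_num),
    h.mono _ _ (by norm_num), h.mono _ _ (by norm_num)⟩

/-- the first gap is not crossed -/
theorem six_two (hd : cs 11 ≤ 2) (hE : ∑ t ∈ range (2 * 6), (N t + L t) ≤ 8)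
    (n2 : N 2 = 0) (n4 : 1 ≤ N 4) (n6 : 1 ≤ N 6) (n8 : 1 ≤ N 8) (n10 : 1 ≤ N 10) : False := by
  rw [sum12 (fun t => N t + L t)] at hE
  have z0 := h.n0
  have z12 : N (11 + 1) = 0 := h.nb
  have ch := chain12 h
  have e1 := h.site 0 1 0 z0 n2 (by norm_num) (by norm_num) (by norm_num)
  have p5 : 1 ≤ N 5 := by
    by_contra hc
    have := h.one_odd (p := 5) (l := 2) (m := 11) (by omega) n2 z12 (by omega) (by omega) n4 n6
      (by omega)
    omega
  have p7 : 1 ≤ N 7 := by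
    by_contra hc
    have := h.one_odd (p := 7) (l := 2) (m := 11) (by omega) n2 z12 (by omega) (by omega) n6 n8
      (by omega)
    omega
  have p9 : 1 ≤ N 9 := by
    by_contra hc
    have := h.one_odd (p := 9) (l := 2) (m := 11) (by omega) n2 z12 (by omega) (by omega) n8 n10
      (by omega)
    omega
  have L0 := h.l0
  have L12 : L 12 = 0 := h.lb
  have L2 := (h.ln 2).2
  obtain ⟨g, t⟩ := six_imp h
  have g4 := g 4 (by norm_num) n4
  have g10 := g 10 (by norm_num) n10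
  have t1 := t 1 (by norm_num)
  have t3 := t 3 (by norm_num)
  have t4 := t 4 (by norm_num)
  have t5 := t 5 (by norm_num)
  have t6 := t 6 (by norm_num)
  have t7 := t 7 (by norm_num)
  have t8 := t 8 (by norm_num)
  have t9 := t 9 (by norm_num)
  have t10 := t 10 (by norm_num)
  have t11 := t 11 (by norm_num)
  norm_num at g4 g10 t1 t3 t4 t5 t6 t7 t8 t9 t10 t11
  omega

/-- the last gap is not crossed -/
theorem six_ten (hd : cs 11 ≤ 2) (hE : ∑ t ∈ range (2 * 6), (N t + L t) ≤ 8)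
    (n2 : 1 ≤ N 2) (n4 : 1 ≤ N 4) (n6 : 1 ≤ N 6) (n8 : 1 ≤ N 8) (n10 : N 10 = 0) : False := by
  rw [sum12 (fun t => N t + L t)] at hE
  have z0 := h.n0
  have z12 : N (11 + 1) = 0 := h.nb
  have ch := chain12 h
  have e1 := h.site 10 11 5 n10 z12 (by norm_num) (by norm_num) (by norm_num)
  have p3 : 1 ≤ N 3 := by
    by_contra hc
    have := h.one_odd (p := 3) (l := 0) (m := 9) (by omega) z0 n10 (by omega) (by omega) n2 n4
      (by omega)
    omega
  have p5 : 1 ≤ N 5 := by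
    by_contra hc
    have := h.one_odd (p := 5) (l := 0) (m := 9) (by omega) z0 n10 (by omega) (by omega) n4 n6
      (by omega)
    omega
  have p7 : 1 ≤ N 7 := by
    by_contra hc
    have := h.one_odd (p := 7) (l := 0) (m := 9) (by omega) z0 n10 (by omega) (by omega) n6 n8
      (by omega)
    omega
  have L0 := h.l0
  have L12 : L 12 = 0 := h.lb
  have L10 := (h.ln 10).2
  obtain ⟨g, t⟩ := six_imp h
  have g2 := g 2 (by norm_num) n2
  have g8 := g 8 (by norm_num) n8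
  have t1 := t 1 (by norm_num)
  have t2 := t 2 (by norm_num)
  have t3 := t 3 (by norm_num)
  have t4 := t 4 (by norm_num)
  have t5 := t 5 (by norm_num)
  have t6 := t 6 (by norm_num)
  have t7 := t 7 (by norm_num)
  have t8 := t 8 (by norm_num)
  have t9 := t 9 (by norm_num)
  have t11 := t 11 (by norm_num)
  norm_num at g2 g8 t1 t2 t3 t4 t5 t6 t7 t8 t9 t11
  omega

/-- one sink: energy at least eleven -/
theorem six_one (hd : cs 11 ≤ 1) (hE : ∑ t ∈ range (2 * 6), (N t + L t) ≤ 10) : False := by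
  rw [sum12 (fun t => N t + L t)] at hE
  have z0 := h.n0
  have z12 : N (11 + 1) = 0 := h.nb
  have ch := chain12 h
  have gap : ∀ k, 1 ≤ k → k < 6 → 1 ≤ N (2 * k) := by
    intro k h1 h2
    by_contra hc
    have e1 := h.site 0 (2 * k - 1) 0 z0 (by rw [Nat.sub_add_cancel (by omega)]; omega) (by omega)
      (by omega) (by omega)
    have e2 := h.site (2 * k) 11 k (by omega) z12 (by omega) (by omega) h2
    have := h.mono (2 * k - 1) (2 * k) (by omega)
    omega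
  have n2 : 1 ≤ N 2 := gap 1 (by norm_num) (by norm_num)
  have n4 : 1 ≤ N 4 := gap 2 (by norm_num) (by norm_num)
  have n6 : 1 ≤ N 6 := gap 3 (by norm_num) (by norm_num)
  have n8 : 1 ≤ N 8 := gap 4 (by norm_num) (by norm_num)
  have n10 : 1 ≤ N 10 := gap 5 (by norm_num) (by norm_num)
  have p3 : 1 ≤ N 3 := by
    by_contra hc
    have := h.one_odd (p := 3) (l := 0) (m := 11) (by omega) z0 z12 (by omega) (by omega) n2 n4
      (by omega)
    omega
  have p5 : 1 ≤ N 5 := by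
    by_contra hc
    have := h.one_odd (p := 5) (l := 0) (m := 11) (by omega) z0 z12 (by omega) (by omega) n4 n6
      (by omega)
    omega
  have p7 : 1 ≤ N 7 := by
    by_contra hc
    have := h.one_odd (p := 7) (l := 0) (m := 11) (by omega) z0 z12 (by omega) (by omega) n6 n8
      (by omega)
    omega
  have p9 : 1 ≤ N 9 := by
    by_contra hc
    have := h.one_odd (p := 9) (l := 0) (m := 11) (by omega) z0 z12 (by omega) (by omega) n8 n10
      (by omega)
    omega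
  have L0 := h.l0
  have L12 : L 12 = 0 := h.lb
  obtain ⟨g, t⟩ := six_imp h
  have g2 := g 2 (by norm_num) n2
  have g10 := g 10 (by norm_num) n10
  have t1 := t 1 (by norm_num)
  have t2 := t 2 (by norm_num)
  have t3 := t 3 (by norm_num)
  have t4 := t 4 (by norm_num)
  have t5 := t 5 (by norm_num)
  have t6 := t 6 (by norm_num)
  have t7 := t 7 (by norm_num)
  have t8 := t 8 (by norm_num)
  have t9 := t 9 (by norm_num)
  have t10 := t 10 (by norm_num)
  have t11 := t 11 (by norm_num)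
  norm_num at g2 g10 t1 t2 t3 t4 t5 t6 t7 t8 t9 t10 t11
  omega

/-- the second gap is not crossed: the labels `≥ 2` -/
theorem six_four (hd : cs 11 ≤ 2) (n2 : 1 ≤ N 2) (n4 : N 4 = 0) (n6 : 1 ≤ N 6) (n8 : 1 ≤ N 8)
    (n10 : 1 ≤ N 10) : cs 0 + 1 ≤ cs 4 ∧ 1 ≤ N 7 ∧ 1 ≤ N 9 ∧
      (2 ≤ L 5 + L 6 + L 7 + L 8 + L 9 + L 10 + L 11 ∨
        (L 5 = 0 ∧ L 6 = 0 ∧ L 7 = 0 ∧ L 8 = 1 ∧ L 9 = 0 ∧ L 10 = 0 ∧ L 11 = 0 ∧
          cs 7 + 1 ≤ cs 8)) := by
  have z0 := h.n0
  have z12 : N (11 + 1) = 0 := h.nb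
  have ch := chain12 h
  have e1 := h.site 0 3 0 z0 n4 (by norm_num) (by norm_num) (by norm_num)
  have p7 : 1 ≤ N 7 := by
    by_contra hc
    have := h.one_odd (p := 7) (l := 4) (m := 11) (by omega) n4 z12 (by omega) (by omega) n6 n8
      (by omega)
    omega
  have p9 : 1 ≤ N 9 := by
    by_contra hc
    have := h.one_odd (p := 9) (l := 4) (m := 11) (by omega) n4 z12 (by omega) (by omega) n8 n10
      (by omega)
    omega
  have L0 := h.l0
  have L12 : L 12 = 0 := h.lb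
  have L4 := (h.ln 4).2
  obtain ⟨g, t⟩ := six_imp h
  have g6 := g 6 (by norm_num) n6
  have g10 := g 10 (by norm_num) n10
  have l5 := (h.ln 5).1
  have l6 := (h.ln 6).1
  have l7 := (h.ln 7).1
  have l8 := (h.ln 8).1
  have l9 := (h.ln 9).1
  have l10 := (h.ln 10).1
  have l11 := (h.ln 11).1
  have t5 := t 5 (by norm_num)
  have t6 := t 6 (by norm_num)
  have t7 := t 7 (by norm_num)
  have t8 := t 8 (by norm_num)
  have t9 := t 9 (by norm_num)
  have t10 := t 10 (by norm_num)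
  have t11 := t 11 (by norm_num)
  norm_num at g6 g10 t5 t6 t7 t8 t9 t10 t11
  refine ⟨by omega, p7, p9, ?_⟩
  by_cases h2 : 2 ≤ L 5 + L 6 + L 7 + L 8 + L 9 + L 10 + L 11
  · exact Or.inl h2
  · right
    by_cases h8 : 1 ≤ L 8
    · have := t8 (by omega) (by omega) h8
      omega
    · exfalso
      omega

/-- the fourth gap is not crossed: the labels `≥ 2` -/
theorem six_eight (hd : cs 11 ≤ 2) (n2 : 1 ≤ N 2) (n4 : 1 ≤ N 4) (n6 : 1 ≤ N 6) (n8 : N 8 = 0) :
    cs 8 + 1 ≤ cs 11 ∧ 1 ≤ N 3 ∧ 1 ≤ N 5 ∧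
      (2 ≤ L 1 + L 2 + L 3 + L 4 + L 5 + L 6 + L 7 ∨
        (L 1 = 0 ∧ L 2 = 0 ∧ L 3 = 0 ∧ L 4 = 1 ∧ L 5 = 0 ∧ L 6 = 0 ∧ L 7 = 0 ∧
          cs 3 + 1 ≤ cs 4)) := by
  have z0 := h.n0
  have z12 : N (11 + 1) = 0 := h.nb
  have ch := chain12 h
  have e1 := h.site 8 11 4 n8 z12 (by norm_num) (by norm_num) (by norm_num)
  have p3 : 1 ≤ N 3 := by
    by_contra hc
    have := h.one_odd (p := 3) (l := 0) (m := 7) (by omega) z0 n8 (by omega) (by omega) n2 n4
      (by omega)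
    omega
  have p5 : 1 ≤ N 5 := by
    by_contra hc
    have := h.one_odd (p := 5) (l := 0) (m := 7) (by omega) z0 n8 (by omega) (by omega) n4 n6
      (by omega)
    omega
  have L0 := h.l0
  have L8 := (h.ln 8).2
  obtain ⟨g, t⟩ := six_imp h
  have g2 := g 2 (by norm_num) n2
  have g6 := g 6 (by norm_num) n6
  have l1 := (h.ln 1).1
  have l2 := (h.ln 2).1
  have l3 := (h.ln 3).1
  have l4 := (h.ln 4).1
  have l5 := (h.ln 5).1
  have l6 := (h.ln 6).1
  have l7 := (h.ln 7).1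
  have t1 := t 1 (by norm_num)
  have t2 := t 2 (by norm_num)
  have t3 := t 3 (by norm_num)
  have t4 := t 4 (by norm_num)
  have t5 := t 5 (by norm_num)
  have t6 := t 6 (by norm_num)
  have t7 := t 7 (by norm_num)
  norm_num at g2 g6 t1 t2 t3 t4 t5 t6 t7
  refine ⟨e1, p3, p5, ?_⟩
  by_cases h2 : 2 ≤ L 1 + L 2 + L 3 + L 4 + L 5 + L 6 + L 7
  · exact Or.inl h2
  · right
    by_cases h8 : 1 ≤ L 4
    · have := t4 (by omega) (by omega) h8
      omega
    · exfalso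
      omega

end six

end Pool.Agent.GaussPoset.Win.Kd
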