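import Pool.Agent.W_448kd_h10.KdE

/-!
MP_448cb3_co, G2, case B, block (K): the cores with two sinks of a row of six sites.  helper10.
-/

namespace Pool.Agent.GaussPoset.Win.Kd

set_option linter.unusedSectionVars false

open Finset

universe u

variable {P : Type u} [Fintype P] [PartialOrder P] [DecidableEq P] {r i b : ℕ}
variable {e : P → ℕ} {C K : Finset P} {psi : P → P} {x : ℕ → P} {pos : P → ℕ}

/-- an element above a labelled lower element is labelled -/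
lemma posL (H : Gr P r) (hA : AdmL i e) {z a : P} (hz : i + 2 ≤ lev z) (h1 : 1 ≤ e z)
    (ha : z ⋖ a) : 1 ≤ e a := by
  by_contra h0
  have hl := lev_uc H (mem_uc.2 ha)
  obtain ⟨c, hc⟩ := uc_nonempty H (x := a) (by omega)
  exact hA a (by omega) ⟨⟨z, ha, by omega⟩, c, mem_uc.1 hc, by omega⟩

/-- an element below a labelled upper element is labelled -/
lemma posU (H : Gr P r) (hir : i ≤ r) (hB : AdmU i e) {z a : P} (hz : lev z + 2 ≤ i) (h1 : 1 ≤ e z)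
    (ha : a ⋖ z) : 1 ≤ e a := by
  by_contra h0
  have hl := lev_uc H (mem_uc.2 ha)
  obtain ⟨c, hc⟩ := dc_nonempty H (x := a) (by omega)
  exact hB a (by omega) ⟨⟨z, ha, by omega⟩, c, mem_dc.1 hc, by omega⟩

/-- the assumptions on a configuration -/
structure Cfg (i : ℕ) (C K : Finset P) (psi : P → P) (e : P → ℕ) : Prop where
  hs : Spt C e
  hA : AdmL i e
  hB : AdmU i e
  hd : Disjoint (AL i e) (AU i e)
  hc : IsCore i K psi e
  no1 : ∀ z : P, lev z = i + 2 → ¬ FD e z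
  no2 : ∀ z : P, lev z + 2 = i → ¬ FU e z

/-- positions of the far elements -/
structure GpS (i : ℕ) (C : Finset P) (pos : P → ℕ) : Prop where
  gL : ∀ z ∈ C, lev z = i + 2 → pos z % 2 = 0 → ∃ y, z ⋖ y ∧ pos y = pos z
  gU : ∀ z ∈ C, lev z + 2 = i → pos z % 2 = 0 → ∃ y, y ⋖ z ∧ pos y = pos z

/-- an excited element is in the part -/
lemma Cfg.inC (c : Cfg i C K psi e) {z : P} (h : 1 ≤ e z) : z ∈ C := by
  by_contra h0
  have := c.hs z h0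
  omega

/-- an excited near element at an even position -/
lemma near_even (H : Gr P r) (hir : i ≤ r) (hP : PosS i b C x pos) (hG : GpS i C pos)
    (c : Cfg i C K psi e) {a : ℕ} (ha : a % 2 = 0) (hN : 1 ≤ Nn i C pos e a) :
    ∃ y ∈ C, (lev y = i + 1 ∨ lev y + 1 = i) ∧ pos y = a ∧ 1 ≤ e y := by
  obtain ⟨z, hz, hn, hp, he⟩ := Nn_pos.1 hN
  obtain ⟨n1, n2⟩ := hn
  have h5 : lev z = i + 2 ∨ lev z = i + 1 ∨ lev z = i ∨ lev z + 1 = i ∨ lev z + 2 = i := by omega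
  rcases h5 with h | h | h | h | h
  · obtain ⟨y, hy, hpy⟩ := hG.gL z hz h (by omega)
    have h1 := posL H c.hA (by omega) he hy
    have hl := lev_uc H (mem_uc.2 hy)
    exact ⟨y, c.inC h1, Or.inl (by omega), by omega, h1⟩
  · exact ⟨z, hz, Or.inl h, hp, he⟩
  · obtain ⟨k, hk, rfl⟩ := hP.stx z (mem_st.2 ⟨hz, h⟩)
    have := hP.px k hk
    omega
  · exact ⟨z, hz, Or.inr h, hp, he⟩
  · obtain ⟨y, hy, hpy⟩ := hG.gU z hz h (by omega)
    have h1 := posU H hir c.hB (by omega) he hy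
    have hl := lev_uc H (mem_uc.2 hy)
    exact ⟨y, c.inC h1, Or.inr (by omega), by omega, h1⟩

/-- the numerical data of a configuration -/
theorem num_of (H : Gr P r) (hir : i ≤ r) (hP : PosS i b C x pos) (hG : GpS i C pos)
    (c : Cfg i C K psi e) : Num b (Nn i C pos e) (Ll i C pos e) (Cs i C pos e) where
  n0 := by
    rw [Nn_zero]
    intro z hz hn hp
    have := hP.rng z hz hn
    omega
  nb := by
    rw [Nn_zero]
    intro z hz hn hp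
    have := hP.rng z hz hn
    omega
  ln := fun t => ⟨Ll_le, Ll_le_Nn⟩
  mono := fun p q h => Cs_mono h
  i1 := fun p q h1 h2 h3 => I1 H hP c.hs ⟨c.no1, c.no2⟩ h1 h2 h3
  i2 := fun p q h1 h2 h3 => I2 H hP c.hs ⟨c.no1, c.no2⟩ h1 h2 h3
  g := by
    intro a h1 h2 h3
    obtain ⟨y, hy, hl, hp, he⟩ := near_even H hir hP hG c h1 h2
    subst hp
    exact near_G H hP c.hs hy hl he h3

/-- two elements at a position -/
lemma two_le {a c : P} {p : ℕ} (ha : a ∈ C) (hc : c ∈ C) (na : ND i a) (nc : ND i c)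
    (pa : pos a = p) (pc : pos c = p) (ea : 1 ≤ e a) (ec : 1 ≤ e c) (hne : a ≠ c) :
    2 ≤ Nn i C pos e p := by
  unfold Nn
  have h1 : ({a, c} : Finset P) ⊆ Ex i C pos e 1 p := by
    intro z hz
    rw [mem_insert, mem_singleton] at hz
    rcases hz with rfl | rfl
    · exact mem_Ex.2 ⟨ha, na, pa, ea⟩
    · exact mem_Ex.2 ⟨hc, nc, pc, ec⟩
  have h2 := card_le_card h1
  rwa [card_pair hne] at h2

/-- three elements at a position -/
lemma three_le {a c d : P} {p : ℕ} (ha : a ∈ C) (hc : c ∈ C) (hd : d ∈ C) (na : ND i a)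
    (nc : ND i c) (nd : ND i d) (pa : pos a = p) (pc : pos c = p) (pd : pos d = p) (ea : 1 ≤ e a)
    (ec : 1 ≤ e c) (ed : 1 ≤ e d) (h1 : a ≠ c) (h2 : a ≠ d) (h3 : c ≠ d) :
    3 ≤ Nn i C pos e p := by
  unfold Nn
  have h4 : ({a, c, d} : Finset P) ⊆ Ex i C pos e 1 p := by
    intro z hz
    rw [mem_insert, mem_insert, mem_singleton] at hz
    rcases hz with rfl | rfl | rfl
    · exact mem_Ex.2 ⟨ha, na, pa, ea⟩
    · exact mem_Ex.2 ⟨hc, nc, pc, ec⟩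
    · exact mem_Ex.2 ⟨hd, nd, pd, ed⟩
  have h5 := card_le_card h4
  rwa [card_eq_three.2 ⟨a, c, d, h1, h2, h3, rfl⟩] at h5

/-- one element at a position -/
lemma one_le {a : P} {p : ℕ} (ha : a ∈ C) (na : ND i a) (pa : pos a = p) (ea : 1 ≤ e a) :
    1 ≤ Nn i C pos e p := Nn_pos.2 ⟨a, ha, na, pa, ea⟩

/-- the right part of a row of six sites -/
structure KR6 (i : ℕ) (C K : Finset P) (psi : P → P) (x : ℕ → P) (pos : P → ℕ)
    (y u w2 w3 w4 u2 u3 u4 v12 v13 v14 E E' : P) : Prop where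
  ps : PosS i 6 C x pos
  gp : GpS i C pos
  ucw2 : uc w2 = {x 2, x 3}
  ucw3 : uc w3 = {x 3, x 4}
  ucw4 : uc w4 = {x 4, x 5}
  dcu2 : dc u2 = {x 2, x 3}
  dcu3 : dc u3 = {x 3, x 4}
  dcu4 : dc u4 = {x 4, x 5}
  dcx3 : dc (x 3) = {w2, w3}
  dcx4 : dc (x 4) = {w3, w4}
  ucx3 : uc (x 3) = {u2, u3}
  ucx4 : uc (x 4) = {u3, u4}
  dcx5 : ∀ z ∈ dc (x 5), z ≠ w4 → pos z = 11
  ucx5 : ∀ z ∈ uc (x 5), z ≠ u4 → pos z = 11
  fL : ∀ z ∈ C, lev z = i + 2 → ∀ p, z ⋖ p → pos p = 11 → pos z = 11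
  fU : ∀ z ∈ C, lev z + 2 = i → ∀ p, p ⋖ z → pos p = 11 → pos z = 11
  dcw2 : ∀ z ∈ dc w2, z ∈ C → pos z = 6
  dcw3 : dc w3 = {E, E'}
  dcw4 : dc w4 = {E, E'}
  ucE : uc E = {w3, w4}
  ucE' : uc E' = {w3, w4}
  EE : E ≠ E'
  ucu2 : uc u2 = {v12, v13}
  ucu3 : uc u3 = {v13, v14}
  ucu4 : ∀ v ∈ uc u4, v ≠ v14 → pos v = 10 ∨ pos v = 11
  v14u : v14 ∈ uc u4
  dcv12 : dc v12 = {u, u2}
  dcv13 : dc v13 = {u2, u3}
  dcv14 : dc v14 = {u3, u4}
  yu : y ∈ K ∧ u ∈ K ∧ y ∈ C ∧ u ∈ C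
  ucy : uc y = {x 0, x 1}
  dcu : dc u = {x 1, x 2}
  hK : ∀ k ∈ K, k ∈ C → k = y ∨ k = u
  n4 : ∀ z ∈ C, (lev z = i + 1 ∨ lev z + 1 = i) → pos z = 4 → z = u
  n6 : ∀ z ∈ C, (lev z = i + 1 ∨ lev z + 1 = i) → pos z = 6 → z = w2 ∨ z = u2
  n8 : ∀ z ∈ C, (lev z = i + 1 ∨ lev z + 1 = i) → pos z = 8 → z = w3 ∨ z = u3
  n10 : ∀ z ∈ C, (lev z = i + 1 ∨ lev z + 1 = i) → pos z = 10 → z = w4 ∨ z = u4
  psi2 : psi w2 = u2 ∧ psi u2 = w2
  psi3 : psi w3 = u3 ∧ psi u3 = w3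
  psi4 : psi w4 = u4 ∧ psi u4 = w4
  psin : ∀ z ∈ C, pos z = 2 → z ∈ dbL P i ∪ dbU P i → z ∉ K → psi z ∈ C ∧ pos (psi z) = 2

end Pool.Agent.GaussPoset.Win.Kd
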