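import Pool.Agent.W_448kd_h10.KdC

/-!
MP_448cb3_co, G2, case B, block (K): the counting of positions, five sites.  helper10.
-/

namespace Pool.Agent.GaussPoset.Win.Kd

set_option linter.unusedSectionVars false

open Finset

variable {N L cs : ℕ → ℕ}

section five

variable (h : Num 5 N L cs)
include h

/-- the implications of the second superlevel set and of the near elements -/
lemma five_imp : (∀ a, a % 2 = 0 → 1 ≤ N a → L (a - 2) = 0 → L (a - 1) = 0 → L a = 0 →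
    L (a + 1) = 0 → L (a + 2) = 0 → cs (a - 2) + 1 ≤ cs (a + 1)) ∧
    (∀ t, 1 ≤ t → L (t - 1) = 0 → L (t + 1) = 0 → 1 ≤ L t → cs (t - 1) + 1 ≤ cs t) := by
  constructor
  · intro a h1 h2 h3 h4 h5 h6 h7
    refine h.g a h1 h2 fun t t1 t2 => ?_
    have : t = a - 2 ∨ t = a - 1 ∨ t = a ∨ t = a + 1 ∨ t = a + 2 := by omega
    rcases this with rfl | rfl | rfl | rfl | rfl <;> assumption
  · intro t h1 h2 h3 h4
    exact h.lp (t - 1) t t h2 h3 (by omega) le_rfl h4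

/-- the chain of the sink counts -/
lemma chain10 : cs 0 ≤ cs 1 ∧ cs 1 ≤ cs 2 ∧ cs 2 ≤ cs 3 ∧ cs 3 ≤ cs 4 ∧ cs 4 ≤ cs 5 ∧ cs 5 ≤ cs 6 ∧
    cs 6 ≤ cs 7 ∧ cs 7 ≤ cs 8 ∧ cs 8 ≤ cs 9 :=
  ⟨h.mono _ _ (by norm_num), h.mono _ _ (by norm_num), h.mono _ _ (by norm_num),
    h.mono _ _ (by norm_num), h.mono _ _ (by norm_num), h.mono _ _ (by norm_num),
    h.mono _ _ (by norm_num), h.mono _ _ (by norm_num), h.mono _ _ (by norm_num)⟩

/-- one sink: energy at least nine -/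
theorem five_one (hd : cs 9 ≤ 1) (hE : ∑ t ∈ range (2 * 5), (N t + L t) ≤ 8) : False := by
  rw [sum10 (fun t => N t + L t)] at hE
  have z0 := h.n0
  have z10 : N (9 + 1) = 0 := h.nb
  have ch := chain10 h
  have gap : ∀ k, 1 ≤ k → k < 5 → 1 ≤ N (2 * k) := by
    intro k h1 h2
    by_contra hc
    have e1 := h.site 0 (2 * k - 1) 0 z0 (by rw [Nat.sub_add_cancel (by omega)]; omega) (by omega)
      (by omega) (by omega)
    have e2 := h.site (2 * k) 9 k (by omega) z10 (by omega) (by omega) h2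
    have := h.mono (2 * k - 1) (2 * k) (by omega)
    omega
  have n2 : 1 ≤ N 2 := gap 1 (by norm_num) (by norm_num)
  have n4 : 1 ≤ N 4 := gap 2 (by norm_num) (by norm_num)
  have n6 : 1 ≤ N 6 := gap 3 (by norm_num) (by norm_num)
  have n8 : 1 ≤ N 8 := gap 4 (by norm_num) (by norm_num)
  have p3 : 1 ≤ N 3 := by
    by_contra hc
    have := h.one_odd (p := 3) (l := 0) (m := 9) (by omega) z0 z10 (by omega) (by omega) n2 n4
      (by omega)
    omega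
  have p5 : 1 ≤ N 5 := by
    by_contra hc
    have := h.one_odd (p := 5) (l := 0) (m := 9) (by omega) z0 z10 (by omega) (by omega) n4 n6
      (by omega)
    omega
  have p7 : 1 ≤ N 7 := by
    by_contra hc
    have := h.one_odd (p := 7) (l := 0) (m := 9) (by omega) z0 z10 (by omega) (by omega) n6 n8
      (by omega)
    omega
  have L0 := h.l0
  have L10 : L 10 = 0 := h.lb
  obtain ⟨g, t⟩ := five_imp h
  have g2 := g 2 (by norm_num) n2
  have g8 := g 8 (by norm_num) n8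
  have t1 := t 1 (by norm_num)
  have t2 := t 2 (by norm_num)
  have t3 := t 3 (by norm_num)
  have t4 := t 4 (by norm_num)
  have t5 := t 5 (by norm_num)
  have t6 := t 6 (by norm_num)
  have t7 := t 7 (by norm_num)
  have t8 := t 8 (by norm_num)
  have t9 := t 9 (by norm_num)
  norm_num at g2 g8 t1 t2 t3 t4 t5 t6 t7 t8 t9
  omega

/-- all gaps crossed, energy at most six -/
theorem five_all (hd : cs 9 ≤ 2) (hE : ∑ t ∈ range (2 * 5), (N t + L t) ≤ 6)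
    (n2 : 1 ≤ N 2) (n4 : 1 ≤ N 4) (n6 : 1 ≤ N 6) (n8 : 1 ≤ N 8) :
    (∀ t, t ≤ 10 → L t = 0) ∧ N 1 = 0 ∧ N 2 = 1 ∧ N 4 = 1 ∧ N 6 = 1 ∧ N 8 = 1 ∧ N 9 = 0 ∧
      N 3 + N 5 + N 7 = 2 ∧ N 7 ≤ 1 ∧ N 5 ≤ 1 ∧ N 3 ≤ 1 ∧ cs 0 + 1 ≤ cs 3 ∧ cs 6 + 1 ≤ cs 9 := by
  rw [sum10 (fun t => N t + L t)] at hE
  have z0 := h.n0
  have z10 : N (9 + 1) = 0 := h.nb
  have ch := chain10 h
  have p1 : ¬ (N 3 = 0 ∧ N 5 = 0) := fun ⟨a, c⟩ => by
    have := h.two_odd (p := 3) (q := 5) (l := 0) (m := 9) (by omega) (by omega) z0 z10 (by omega)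
      (by omega) n2 n4 n6 a c
    omega
  have p2 : ¬ (N 3 = 0 ∧ N 7 = 0) := fun ⟨a, c⟩ => by
    have := h.two_odd (p := 3) (q := 7) (l := 0) (m := 9) (by omega) (by omega) z0 z10 (by omega)
      (by omega) n2 n4 n8 a c
    omega
  have p4 : ¬ (N 5 = 0 ∧ N 7 = 0) := fun ⟨a, c⟩ => by
    have := h.two_odd (p := 5) (q := 7) (l := 0) (m := 9) (by omega) (by omega) z0 z10 (by omega)
      (by omega) n4 n6 n8 a c
    omega
  have L0 := h.l0
  have L10 : L 10 = 0 := h.lb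
  have s3 : 2 ≤ N 3 + N 5 + N 7 := by omega
  have hL : ∀ t, t ≤ 10 → L t = 0 := by
    intro t ht
    interval_cases t <;> omega
  have g1 := h.g 2 (by norm_num) n2 (fun t _ _ => hL t (by omega))
  have g3 := h.g 8 (by norm_num) n8 (fun t _ _ => hL t (by omega))
  norm_num at g1 g3
  refine ⟨hL, ?_, ?_, ?_, ?_, ?_, ?_, ?_, ?_, ?_, ?_, g1, g3⟩ <;> omega

/-- the first gap is not crossed, energy at most six -/
theorem five_two (hd : cs 9 ≤ 2) (hE : ∑ t ∈ range (2 * 5), (N t + L t) ≤ 6)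
    (n2 : N 2 = 0) (n4 : 1 ≤ N 4) (n6 : 1 ≤ N 6) (n8 : 1 ≤ N 8) :
    cs 0 + 1 ≤ cs 1 ∧ L 3 = 0 ∧ L 4 = 0 ∧ L 5 = 0 ∧ L 6 = 1 ∧ L 7 = 0 ∧ L 8 = 0 ∧ L 9 = 0 ∧
      N 3 = 0 ∧ N 4 = 1 ∧ N 5 = 1 ∧ N 6 = 1 ∧ N 7 = 1 ∧ N 8 = 1 ∧ N 9 = 0 ∧ cs 5 + 1 ≤ cs 6 := by
  rw [sum10 (fun t => N t + L t)] at hE
  have z0 := h.n0
  have z10 : N (9 + 1) = 0 := h.nb
  have ch := chain10 h
  have e1 := h.site 0 1 0 z0 n2 (by norm_num) (by norm_num) (by norm_num)
  have p5 : 1 ≤ N 5 := by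
    by_contra hc
    have := h.one_odd (p := 5) (l := 2) (m := 9) (by omega) n2 z10 (by omega) (by omega) n4 n6
      (by omega)
    omega
  have p7 : 1 ≤ N 7 := by
    by_contra hc
    have := h.one_odd (p := 7) (l := 2) (m := 9) (by omega) n2 z10 (by omega) (by omega) n6 n8
      (by omega)
    omega
  have L0 := h.l0
  have L10 : L 10 = 0 := h.lb
  have L2 := (h.ln 2).2
  have l6 := (h.ln 6).1
  obtain ⟨g, t⟩ := five_imp h
  have g4 := g 4 (by norm_num) n4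
  have g8 := g 8 (by norm_num) n8
  have t1 := t 1 (by norm_num)
  have t3 := t 3 (by norm_num)
  have t4 := t 4 (by norm_num)
  have t5 := t 5 (by norm_num)
  have t6 := t 6 (by norm_num)
  have t7 := t 7 (by norm_num)
  have t8 := t 8 (by norm_num)
  have t9 := t 9 (by norm_num)
  norm_num at g4 g8 t1 t3 t4 t5 t6 t7 t8 t9
  have key : 1 ≤ L 6 := by
    by_contra hc
    omega
  have := t6 (by omega) (by omega) key
  refine ⟨e1, ?_, ?_, ?_, ?_, ?_, ?_, ?_, ?_, ?_, ?_, ?_, ?_, ?_, ?_, this⟩ <;> omega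

/-- the last gap is not crossed, energy at most six -/
theorem five_eight (hd : cs 9 ≤ 2) (hE : ∑ t ∈ range (2 * 5), (N t + L t) ≤ 6)
    (n2 : 1 ≤ N 2) (n4 : 1 ≤ N 4) (n6 : 1 ≤ N 6) (n8 : N 8 = 0) :
    cs 8 + 1 ≤ cs 9 ∧ L 1 = 0 ∧ L 2 = 0 ∧ L 3 = 0 ∧ L 4 = 1 ∧ L 5 = 0 ∧ L 6 = 0 ∧ L 7 = 0 ∧
      N 2 = 1 ∧ N 3 = 1 ∧ N 4 = 1 ∧ N 5 = 1 ∧ N 6 = 1 ∧ N 7 = 0 ∧ N 9 = 0 ∧ cs 3 + 1 ≤ cs 4 := by
  rw [sum10 (fun t => N t + L t)] at hE
  have z0 := h.n0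
  have z10 : N (9 + 1) = 0 := h.nb
  have ch := chain10 h
  have e1 := h.site 8 9 4 n8 z10 (by norm_num) (by norm_num) (by norm_num)
  have p3 : 1 ≤ N 3 := by
    by_contra hc
    have := h.one_odd (p := 3) (l := 0) (m := 7) (by omega) z0 n8 (by omega) (by omega) n2 n4
      (by omega)
    omega
  have p5 : 1 ≤ N 5 := by
    by_contra hc
    have := h.one_odd (p := 5) (l := 0) (m := 7) (by omega) z0 n8 (by omega) (by omega) n4 n6
      (by omega)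
    omega
  have L0 := h.l0
  have L8 := (h.ln 8).2
  have l4 := (h.ln 4).1
  obtain ⟨g, t⟩ := five_imp h
  have g2 := g 2 (by norm_num) n2
  have g6 := g 6 (by norm_num) n6
  have t1 := t 1 (by norm_num)
  have t2 := t 2 (by norm_num)
  have t3 := t 3 (by norm_num)
  have t4 := t 4 (by norm_num)
  have t5 := t 5 (by norm_num)
  have t6 := t 6 (by norm_num)
  have t7 := t 7 (by norm_num)
  norm_num at g2 g6 t1 t2 t3 t4 t5 t6 t7
  have key : 1 ≤ L 4 := by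
    by_contra hc
    omega
  have := t4 (by omega) (by omega) key
  refine ⟨e1, ?_, ?_, ?_, ?_, ?_, ?_, ?_, ?_, ?_, ?_, ?_, ?_, ?_, ?_, this⟩ <;> omega

end five

end Pool.Agent.GaussPoset.Win.Kd
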