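import Pool.Agent.W_448kd_h10.KdD

/-!
MP_448cb3_co, G2, case B, block (K): the cores with two sinks of a row of six sites, the gap which is not
crossed.  helper10.
-/

namespace Pool.Agent.GaussPoset.Win.Kd

set_option linter.unusedSectionVars false

open Finset

universe u

variable {P : Type u} [Fintype P] [PartialOrder P] [DecidableEq P] {r i b : ℕ}
variable {e : P → ℕ} {C K : Finset P} {psi : P → P} {x : ℕ → P} {pos : P → ℕ}

lemma touch {a c : P} (hc : IsCore i K psi e) (la : lev a = i + 1) (lc : lev c + 1 = i) (ka : a ∉ K)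
    (kc : c ∉ K) (h1 : psi a = c) (h2 : psi c = a) (h : 1 ≤ e a ∨ 1 ≤ e c) :
    (∃ z, z ⋖ a ∧ 1 ≤ e z) ∨ ∃ v, c ⋖ v ∧ 1 ≤ e v := by
  have key : a ∈ Tch i e ∨ c ∈ Tch i e := by
    rcases h with h | h
    · by_contra hn
      rw [not_or] at hn
      have := hc a (mem_Rst.2 ⟨mem_near.2 (Or.inl la), ka, hn.1, fun h3 => hn.2 (h1 ▸ h3.2)⟩)
      omega
    · by_contra hn
      rw [not_or] at hn
      have := hc c (mem_Rst.2 ⟨mem_near.2 (Or.inr lc), kc, hn.2, fun h3 => hn.1 (h2 ▸ h3.2)⟩)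
      omega
  rcases key with h | h
  · rcases mem_Tch.1 h with ⟨-, z, hz, h0⟩ | ⟨h3, -⟩
    · exact Or.inl ⟨z, hz, h0⟩
    · omega
  · rcases mem_Tch.1 h with ⟨h3, -⟩ | ⟨-, z, hz, h0⟩
    · omega
    · exact Or.inr ⟨z, hz, h0⟩

section six

variable {y u w2 w3 w4 u2 u3 u4 v12 v13 v14 E E' : P}

/-- levels, membership and positions -/
structure Inf6 (i : ℕ) (C : Finset P) (x : ℕ → P) (pos : P → ℕ)
    (y u w2 w3 w4 u2 u3 u4 v12 v13 v14 E E' : P) : Prop where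
  xC : ∀ k, k < 6 → x k ∈ C ∧ lev (x k) = i ∧ pos (x k) = 2 * k + 1
  w2 : w2 ∈ C ∧ lev w2 = i + 1 ∧ pos w2 = 6
  w3 : w3 ∈ C ∧ lev w3 = i + 1 ∧ pos w3 = 8
  w4 : w4 ∈ C ∧ lev w4 = i + 1 ∧ pos w4 = 10
  u2 : u2 ∈ C ∧ lev u2 + 1 = i ∧ pos u2 = 6
  u3 : u3 ∈ C ∧ lev u3 + 1 = i ∧ pos u3 = 8
  u4 : u4 ∈ C ∧ lev u4 + 1 = i ∧ pos u4 = 10
  y : y ∈ C ∧ lev y = i + 1 ∧ pos y = 2
  u : u ∈ C ∧ lev u + 1 = i ∧ pos u = 4
  v12 : v12 ∈ C ∧ lev v12 + 2 = i ∧ pos v12 = 5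
  v13 : v13 ∈ C ∧ lev v13 + 2 = i ∧ pos v13 = 7
  v14 : v14 ∈ C ∧ lev v14 + 2 = i ∧ pos v14 = 9
  E : lev E = i + 2 ∧ (E ∈ C → pos E = 9)
  E' : lev E' = i + 2 ∧ (E' ∈ C → pos E' = 9)

theorem KR6.inf (H : Gr P r) (hC : Part (i + 1) C)
    (Q : KR6 i C K psi x pos y u w2 w3 w4 u2 u3 u4 v12 v13 v14 E E') :
    Inf6 i C x pos y u w2 w3 w4 u2 u3 u4 v12 v13 v14 E E' := by
  have xC : ∀ k, k < 6 → x k ∈ C ∧ lev (x k) = i ∧ pos (x k) = 2 * k + 1 := fun k hk => by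
    obtain ⟨h1, h2⟩ := mem_st.1 (Q.ps.xst k hk)
    exact ⟨h1, h2, Q.ps.px k hk⟩
  -- a lower near element over two sites
  have low : ∀ z k, k + 1 < 6 → uc z = {x k, x (k + 1)} →
      z ∈ C ∧ lev z = i + 1 ∧ pos z = 2 * k + 2 := by
    intro z k hk hz
    obtain ⟨a1, a2, a3⟩ := xC k (by omega)
    obtain ⟨b1, b2, b3⟩ := xC (k + 1) (by omega)
    have c1 : z ⋖ x k := mem_uc.1 (by rw [hz]; simp)
    have c2 : z ⋖ x (k + 1) := mem_uc.1 (by rw [hz]; simp)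
    have hl := lev_uc H (mem_uc.2 c1)
    have hzC : z ∈ C := hC.dn a1 (by omega) c1
    have d1 := Q.ps.adj z hzC _ a1 c1 (by omega) (by omega)
    have d2 := Q.ps.adj z hzC _ b1 c2 (by omega) (by omega)
    exact ⟨hzC, by omega, by omega⟩
  have upp : ∀ z k, k + 1 < 6 → dc z = {x k, x (k + 1)} →
      z ∈ C ∧ lev z + 1 = i ∧ pos z = 2 * k + 2 := by
    intro z k hk hz
    obtain ⟨a1, a2, a3⟩ := xC k (by omega)
    obtain ⟨b1, b2, b3⟩ := xC (k + 1) (by omega)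
    have c1 : x k ⋖ z := mem_dc.1 (by rw [hz]; simp)
    have c2 : x (k + 1) ⋖ z := mem_dc.1 (by rw [hz]; simp)
    have hl := lev_uc H (mem_uc.2 c1)
    have hzC : z ∈ C := hC.up a1 c1
    have d1 := Q.ps.adj _ a1 z hzC c1 (by omega) (by omega)
    have d2 := Q.ps.adj _ b1 z hzC c2 (by omega) (by omega)
    exact ⟨hzC, by omega, by omega⟩
  have iw2 := low w2 2 (by norm_num) Q.ucw2
  have iw3 := low w3 3 (by norm_num) Q.ucw3
  have iw4 := low w4 4 (by norm_num) Q.ucw4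
  have iu2 := upp u2 2 (by norm_num) Q.dcu2
  have iu3 := upp u3 3 (by norm_num) Q.dcu3
  have iu4 := upp u4 4 (by norm_num) Q.dcu4
  have iy := low y 0 (by norm_num) Q.ucy
  have iu := upp u 1 (by norm_num) Q.dcu
  -- a far upper element over two near ones
  have far : ∀ v a c : P, ∀ p : ℕ, a ∈ C → c ∈ C → lev a + 1 = i → lev c + 1 = i → pos a = p →
      pos c = p + 2 → dc v = {a, c} → v ∈ C ∧ lev v + 2 = i ∧ pos v = p + 1 := by
    intro v a c p aC cC la lc pa pc hv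
    have c1 : a ⋖ v := mem_dc.1 (by rw [hv]; simp)
    have c2 : c ⋖ v := mem_dc.1 (by rw [hv]; simp)
    have hl := lev_uc H (mem_uc.2 c1)
    have hvC : v ∈ C := hC.up aC c1
    have d1 := Q.ps.adj _ aC v hvC c1 (by omega) (by omega)
    have d2 := Q.ps.adj _ cC v hvC c2 (by omega) (by omega)
    exact ⟨hvC, by omega, by omega⟩
  have low2 : ∀ F, uc F = {w3, w4} → lev F = i + 2 ∧ (F ∈ C → pos F = 9) := by
    intro F hF
    have c1 : F ⋖ w3 := mem_uc.1 (by rw [hF]; simp)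
    have c2 : F ⋖ w4 := mem_uc.1 (by rw [hF]; simp)
    have hl := lev_uc H (mem_uc.2 c1)
    refine ⟨by omega, fun hFC => ?_⟩
    have d1 := Q.ps.adj F hFC _ iw3.1 c1 (by omega) (by omega)
    have d2 := Q.ps.adj F hFC _ iw4.1 c2 (by omega) (by omega)
    omega
  refine ⟨xC, iw2, iw3, iw4, iu2, iu3, iu4, iy, iu, ?_, ?_, ?_, low2 E Q.ucE, low2 E' Q.ucE'⟩
  · exact far v12 u u2 4 iu.1 iu2.1 iu.2.1 iu2.2.1 iu.2.2 iu2.2.2 Q.dcv12
  · exact far v13 u2 u3 6 iu2.1 iu3.1 iu2.2.1 iu3.2.1 iu2.2.2 iu3.2.2 Q.dcv13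
  · exact far v14 u3 u4 8 iu3.1 iu4.1 iu3.2.1 iu4.2.1 iu3.2.2 iu4.2.2 Q.dcv14

variable (H : Gr P r) (hir : i ≤ r) (hC : Part (i + 1) C)
  (Q : KR6 i C K psi x pos y u w2 w3 w4 u2 u3 u4 v12 v13 v14 E E') (c : Cfg i C K psi e)
include H hir hC Q c

/-- elements at other positions are not in `K` -/
lemma KR6.notK {z : P} (hz : z ∈ C) (h2 : pos z ≠ 2) (h4 : pos z ≠ 4) : z ∉ K := by
  intro hk
  have I := Q.inf H hC
  rcases Q.hK z hk hz with rfl | rfl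
  · exact h2 I.y.2.2
  · exact h4 I.u.2.2

/-- the touches of the gap at six -/
lemma KR6.T6 (hN : 1 ≤ Nn i C pos e 6) : 2 ≤ Nn i C pos e 6 ∨
    (1 ≤ e u2 ∧ ((1 ≤ e v12 ∧ 1 ≤ e u) ∨ (1 ≤ e v13 ∧ 1 ≤ e u3))) := by
  have I := Q.inf H hC
  obtain ⟨z, hz, hl, hp, he⟩ := near_even H hir Q.ps Q.gp c (by norm_num) hN
  have h1 := Q.n6 z hz hl hp
  have h2 : 1 ≤ e w2 ∨ 1 ≤ e u2 := by
    rcases h1 with rfl | rfl
    · exact Or.inl he
    · exact Or.inr he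
  rcases touch c.hc I.w2.2.1 I.u2.2.1 (Q.notK H hir hC c I.w2.1 (by rw [I.w2.2.2]; norm_num)
    (by rw [I.w2.2.2]; norm_num)) (Q.notK H hir hC c I.u2.1 (by rw [I.u2.2.2]; norm_num)
    (by rw [I.u2.2.2]; norm_num)) Q.psi2.1 Q.psi2.2 h2 with ⟨a, ha, h3⟩ | ⟨v, hv, h3⟩
  · left
    have hla := lev_uc H (mem_uc.2 ha)
    have l2 := I.w2.2.1
    have haC := c.inC h3
    have hpa := Q.dcw2 a (mem_dc.2 ha) haC
    have h4 := posL H c.hA (by omega) h3 ha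
    exact two_le haC I.w2.1 ⟨by omega, by omega⟩ ⟨by omega, by omega⟩ hpa I.w2.2.2 h3 h4
      (by rintro rfl; omega)
  · right
    have h4 := mem_uc.2 hv
    rw [Q.ucu2, mem_insert, mem_singleton] at h4
    rcases h4 with rfl | rfl
    · have l1 := I.v12.2.1
      have m1 := posU H hir c.hB (by omega) h3 (mem_dc.1 (by rw [Q.dcv12]; simp) : u ⋖ v)
      have m2 := posU H hir c.hB (by omega) h3 (mem_dc.1 (by rw [Q.dcv12]; simp) : u2 ⋖ v)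
      exact ⟨m2, Or.inl ⟨h3, m1⟩⟩
    · have l1 := I.v13.2.1
      have m1 := posU H hir c.hB (by omega) h3 (mem_dc.1 (by rw [Q.dcv13]; simp) : u2 ⋖ v)
      have m2 := posU H hir c.hB (by omega) h3 (mem_dc.1 (by rw [Q.dcv13]; simp) : u3 ⋖ v)
      exact ⟨m1, Or.inr ⟨h3, m2⟩⟩

/-- the touches of the gap at eight -/
lemma KR6.T8 (hN : 1 ≤ Nn i C pos e 8) : ((1 ≤ e E ∨ 1 ≤ e E') ∧ 1 ≤ e w3 ∧ 1 ≤ e w4) ∨
    (1 ≤ e u3 ∧ ((1 ≤ e v13 ∧ 1 ≤ e u2) ∨ (1 ≤ e v14 ∧ 1 ≤ e u4))) := by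
  have I := Q.inf H hC
  obtain ⟨z, hz, hl, hp, he⟩ := near_even H hir Q.ps Q.gp c (by norm_num) hN
  have h1 := Q.n8 z hz hl hp
  have h2 : 1 ≤ e w3 ∨ 1 ≤ e u3 := by
    rcases h1 with rfl | rfl
    · exact Or.inl he
    · exact Or.inr he
  rcases touch c.hc I.w3.2.1 I.u3.2.1 (Q.notK H hir hC c I.w3.1 (by rw [I.w3.2.2]; norm_num)
    (by rw [I.w3.2.2]; norm_num)) (Q.notK H hir hC c I.u3.1 (by rw [I.u3.2.2]; norm_num)
    (by rw [I.u3.2.2]; norm_num)) Q.psi3.1 Q.psi3.2 h2 with ⟨a, ha, h3⟩ | ⟨v, hv, h3⟩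
  · left
    have hla := lev_uc H (mem_uc.2 ha)
    have l2 := I.w3.2.1
    have h4 := mem_dc.2 ha
    rw [Q.dcw3, mem_insert, mem_singleton] at h4
    rcases h4 with rfl | rfl
    · have m1 := posL H c.hA (by omega) h3 (mem_uc.1 (by rw [Q.ucE]; simp) : a ⋖ w3)
      have m2 := posL H c.hA (by omega) h3 (mem_uc.1 (by rw [Q.ucE]; simp) : a ⋖ w4)
      exact ⟨Or.inl h3, m1, m2⟩
    · have m1 := posL H c.hA (by omega) h3 (mem_uc.1 (by rw [Q.ucE']; simp) : a ⋖ w3)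
      have m2 := posL H c.hA (by omega) h3 (mem_uc.1 (by rw [Q.ucE']; simp) : a ⋖ w4)
      exact ⟨Or.inr h3, m1, m2⟩
  · right
    have h4 := mem_uc.2 hv
    rw [Q.ucu3, mem_insert, mem_singleton] at h4
    rcases h4 with rfl | rfl
    · have l1 := I.v13.2.1
      have m1 := posU H hir c.hB (by omega) h3 (mem_dc.1 (by rw [Q.dcv13]; simp) : u2 ⋖ v)
      have m2 := posU H hir c.hB (by omega) h3 (mem_dc.1 (by rw [Q.dcv13]; simp) : u3 ⋖ v)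
      exact ⟨m2, Or.inl ⟨h3, m1⟩⟩
    · have l1 := I.v14.2.1
      have m1 := posU H hir c.hB (by omega) h3 (mem_dc.1 (by rw [Q.dcv14]; simp) : u3 ⋖ v)
      have m2 := posU H hir c.hB (by omega) h3 (mem_dc.1 (by rw [Q.dcv14]; simp) : u4 ⋖ v)
      exact ⟨m1, Or.inr ⟨h3, m2⟩⟩

/-- the touches of the gap at ten -/
lemma KR6.T10 (hN : 1 ≤ Nn i C pos e 10) : ((1 ≤ e E ∨ 1 ≤ e E') ∧ 1 ≤ e w3 ∧ 1 ≤ e w4) ∨
    (1 ≤ e v14 ∧ 1 ≤ e u3 ∧ 1 ≤ e u4) ∨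
    (2 ≤ Nn i C pos e 10 ∨ 1 ≤ Nn i C pos e 11) := by
  have I := Q.inf H hC
  obtain ⟨z, hz, hl, hp, he⟩ := near_even H hir Q.ps Q.gp c (by norm_num) hN
  have h1 := Q.n10 z hz hl hp
  have h2 : 1 ≤ e w4 ∨ 1 ≤ e u4 := by
    rcases h1 with rfl | rfl
    · exact Or.inl he
    · exact Or.inr he
  rcases touch c.hc I.w4.2.1 I.u4.2.1 (Q.notK H hir hC c I.w4.1 (by rw [I.w4.2.2]; norm_num)
    (by rw [I.w4.2.2]; norm_num)) (Q.notK H hir hC c I.u4.1 (by rw [I.u4.2.2]; norm_num)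
    (by rw [I.u4.2.2]; norm_num)) Q.psi4.1 Q.psi4.2 h2 with ⟨a, ha, h3⟩ | ⟨v, hv, h3⟩
  · left
    have hla := lev_uc H (mem_uc.2 ha)
    have l2 := I.w4.2.1
    have h4 := mem_dc.2 ha
    rw [Q.dcw4, mem_insert, mem_singleton] at h4
    rcases h4 with rfl | rfl
    · have m1 := posL H c.hA (by omega) h3 (mem_uc.1 (by rw [Q.ucE]; simp) : a ⋖ w3)
      have m2 := posL H c.hA (by omega) h3 (mem_uc.1 (by rw [Q.ucE]; simp) : a ⋖ w4)
      exact ⟨Or.inl h3, m1, m2⟩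
    · have m1 := posL H c.hA (by omega) h3 (mem_uc.1 (by rw [Q.ucE']; simp) : a ⋖ w3)
      have m2 := posL H c.hA (by omega) h3 (mem_uc.1 (by rw [Q.ucE']; simp) : a ⋖ w4)
      exact ⟨Or.inr h3, m1, m2⟩
  · right
    have hlv := lev_uc H (mem_uc.2 hv)
    have l4 := I.u4.2.1
    by_cases h5 : v = v14
    · subst h5
      have l1 := I.v14.2.1
      have m1 := posU H hir c.hB (by omega) h3 (mem_dc.1 (by rw [Q.dcv14]; simp) : u3 ⋖ v)
      have m2 := posU H hir c.hB (by omega) h3 (mem_dc.1 (by rw [Q.dcv14]; simp) : u4 ⋖ v)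
      exact Or.inl ⟨h3, m1, m2⟩
    · right
      have h6 := Q.ucu4 v (mem_uc.2 hv) h5
      have m2 := posU H hir c.hB (by omega) h3 hv
      have hvC := c.inC h3
      rcases h6 with h6 | h6
      · left
        exact two_le hvC I.u4.1 ⟨by omega, by omega⟩ ⟨by omega, by omega⟩ h6 I.u4.2.2 h3 m2
          (by rintro rfl; omega)
      · right
        exact one_le hvC ⟨by omega, by omega⟩ h6 h3

end six

end Pool.Agent.GaussPoset.Win.Kd
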