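import Pool.Agent.W_448kd_h10.KdF

/-!
MP_448cb3_co, G2, case B, block (K): six sites, two sinks, energy at most eight: the middle gap is not
crossed.  helper10.
-/

namespace Pool.Agent.GaussPoset.Win.Kd

set_option linter.unusedSectionVars false

open Finset

universe u

variable {P : Type u} [Fintype P] [PartialOrder P] [DecidableEq P] {r i b : ℕ}
variable {e : P → ℕ} {C K : Finset P} {psi : P → P} {x : ℕ → P} {pos : P → ℕ}

lemma ndL1 {z : P} (h : lev z = i + 1) : ND i z := ⟨by omega, by omega⟩
lemma ndL2 {z : P} (h : lev z = i + 2) : ND i z := ⟨by omega, by omega⟩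
lemma ndU1 {z : P} (h : lev z + 1 = i) : ND i z := ⟨by omega, by omega⟩
lemma ndU2 {z : P} (h : lev z + 2 = i) : ND i z := ⟨by omega, by omega⟩

/-- a near element at an even position is a sink or has a labelled site -/
lemma near_alt (H : Gr P r) (hP : PosS i b C x pos) (c : Cfg i C K psi e) {k : ℕ} (hk : k + 1 < b)
    {z : P} (hz : z ∈ C) (hl : lev z = i + 1 ∨ lev z + 1 = i) (hp : pos z = 2 * k + 2)
    (he : 1 ≤ e z) (h1 : Ll i C pos e (2 * k + 1) = 0) (h2 : Ll i C pos e (2 * k + 2) = 0)
    (h3 : Ll i C pos e (2 * k + 3) = 0) :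
    Cs i C pos e (2 * k + 1) + 1 ≤ Cs i C pos e (2 * k + 2) ∨ 1 ≤ e (x k) ∨ 1 ≤ e (x (k + 1)) := by
  rcases near_sink H hP c.hs hz hl he (by rw [hp]; exact h1) (by rw [hp]; exact h2)
    (by rw [hp]; exact h3) with h | ⟨v, hv, -, hev, hpv⟩
  · exact Or.inl (Cs_lt hz ⟨by omega, by omega⟩ h (by omega) (by omega))
  · right
    obtain ⟨m, hm, rfl⟩ := hP.stx v hv
    have hpm := hP.px m hm
    rw [hp] at hpv
    have : m = k ∨ m = k + 1 := by omega
    rcases this with rfl | rfl
    · left; omega
    · right; omega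

/-- a labelled site is a sink -/
lemma site_alt (H : Gr P r) (hP : PosS i b C x pos) (c : Cfg i C K psi e) {k : ℕ} (hk : k < b)
    (he : 1 ≤ e (x k)) (h1 : Ll i C pos e (2 * k) = 0) (h2 : Ll i C pos e (2 * k + 1) = 0)
    (h3 : Ll i C pos e (2 * k + 2) = 0) :
    Cs i C pos e (2 * k) + 1 ≤ Cs i C pos e (2 * k + 1) := by
  have hv := hP.xst k hk
  have hpk := hP.px k hk
  have h := site_sink H hP c.hs hv he (by rw [hpk]; exact h1) (by rw [hpk]; exact h2)
    (by rw [hpk]; exact h3)
  obtain ⟨hC, hl⟩ := mem_st.1 hv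
  exact Cs_lt hC ⟨by omega, by omega⟩ h (by omega) (by omega)

/-- a labelled site is counted -/
lemma site_N (hP : PosS i b C x pos) {k : ℕ} (hk : k < b) (he : 1 ≤ e (x k)) :
    1 ≤ Nn i C pos e (2 * k + 1) := by
  obtain ⟨hC, hl⟩ := mem_st.1 (hP.xst k hk)
  exact one_le hC ⟨by omega, by omega⟩ (hP.px k hk) he

/-- a labelled site and another element at the same position -/
lemma site_two (hP : PosS i b C x pos) {k : ℕ} (hk : k < b) (he : 1 ≤ e (x k)) {z : P} (hz : z ∈ C)
    (hl : lev z = i + 1 ∨ lev z + 1 = i ∨ lev z = i + 2 ∨ lev z + 2 = i)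
    (hp : pos z = 2 * k + 1) (hez : 1 ≤ e z) :
    2 ≤ Nn i C pos e (2 * k + 1) := by
  obtain ⟨hC, hlx⟩ := mem_st.1 (hP.xst k hk)
  exact two_le hC hz ⟨by omega, by omega⟩ ⟨by omega, by omega⟩ (hP.px k hk) hp he hez
    (by rintro rfl; omega)

section six

variable {y u w2 w3 w4 u2 u3 u4 v12 v13 v14 E E' : P}
variable (H : Gr P r) (hir : i ≤ r) (hC : Part (i + 1) C)
  (Q : KR6 i C K psi x pos y u w2 w3 w4 u2 u3 u4 v12 v13 v14 E E') (c : Cfg i C K psi e)
include H hir hC Q c

/-- the second gap is crossed -/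
theorem KR6.not_four (hd2 : (Sk i C e).card ≤ 2) (hE : ∑ z, e z ≤ 8)
    (n2 : 1 ≤ Nn i C pos e 2) (n4 : Nn i C pos e 4 = 0) (n6 : 1 ≤ Nn i C pos e 6)
    (n8 : 1 ≤ Nn i C pos e 8) (n10 : 1 ≤ Nn i C pos e 10) : False := by
  have I := Q.inf H hC
  have hn := num_of H hir Q.ps Q.gp c
  have hd : Cs i C pos e 11 ≤ 2 := Cs_le.trans hd2
  have hE' := (energy_ge (i := i) (C := C) (pos := pos) (e := e) 6).trans hE
  rw [sum12 (fun t => Nn i C pos e t + Ll i C pos e t)] at hE'
  have ch := chain12 hn
  obtain ⟨s4, p7, p9, hL⟩ := six_four hn hd n2 n4 n6 n8 n10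
  -- the last gap
  have last : Ll i C pos e 9 = 0 → Ll i C pos e 10 = 0 → Ll i C pos e 11 = 0 →
      Cs i C pos e 7 + 1 ≤ Cs i C pos e 8 → Nn i C pos e 9 = 1 → Nn i C pos e 10 = 1 →
      Nn i C pos e 11 = 0 → False := by
    intro l9 l10 l11 s8 k9 k10 k11
    obtain ⟨z, hz, hl, hp, he⟩ := near_even H hir Q.ps Q.gp c (by norm_num) n10
    rcases near_alt H Q.ps c (k := 4) (by norm_num) hz hl hp he l9 l10 l11 with h | h | h
    · norm_num at h
      omega
    · rcases Q.T10 H hir hC c n10 with ⟨h1 | h1, -, -⟩ | ⟨h1, -, -⟩ | h1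
      · have := site_two Q.ps (k := 4) (by norm_num) h (c.inC h1) (Or.inr (Or.inr (Or.inl I.E.1)))
          (I.E.2 (c.inC h1)) h1
        norm_num at this
        omega
      · have := site_two Q.ps (k := 4) (by norm_num) h (c.inC h1) (Or.inr (Or.inr (Or.inl I.E'.1)))
          (I.E'.2 (c.inC h1)) h1
        norm_num at this
        omega
      · have := site_two Q.ps (k := 4) (by norm_num) h (c.inC h1) (Or.inr (Or.inr (Or.inr I.v14.2.1)))
          I.v14.2.2 h1
        norm_num at this
        omega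
      · omega
    · have := site_N Q.ps (k := 5) (by norm_num) h
      norm_num at this
      omega
  rcases Q.T6 H hir hC c n6 with ha | ⟨hu2, ⟨hv, hu⟩ | ⟨hv13, hu3⟩⟩
  · rcases hL with h | ⟨l5, l6, l7, l8, l9, l10, l11, s8⟩
    · omega
    · exact last l9 l10 l11 s8 (by omega) (by omega) (by omega)
  · have := one_le I.u.1 (ndU1 I.u.2.1) I.u.2.2 hu
    omega
  · rcases hL with h | ⟨l5, l6, l7, l8, l9, l10, l11, s8⟩
    · -- two labels `≥ 2`
      have k5 : Nn i C pos e 5 = 0 := by omega
      have k6 : Nn i C pos e 6 = 1 := by omega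
      have k7 : Nn i C pos e 7 = 1 := by omega
      have k8 : Nn i C pos e 8 = 1 := by omega
      have k9 : Nn i C pos e 9 = 1 := by omega
      have k10 : Nn i C pos e 10 = 1 := by omega
      have k11 : Nn i C pos e 11 = 0 := by omega
      have L5 : Ll i C pos e 5 = 0 := by have := (hn.ln 5).2; omega
      have L11 : Ll i C pos e 11 = 0 := by have := (hn.ln 11).2; omega
      have lu3 := I.u3.2.1
      have lu2 := I.u2.2.1
      have lu4 := I.u4.2.1
      have lv13 := I.v13.2.1
      have lv14 := I.v14.2.1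
      have hv14 : 1 ≤ e v14 ∧ 1 ≤ e u4 := by
        rcases Q.T10 H hir hC c n10 with ⟨-, h1, -⟩ | ⟨h1, -, h2⟩ | h1
        · have lw3 := I.w3.2.1
          have := two_le I.w3.1 I.u3.1 (ndL1 lw3) (ndU1 lu3) I.w3.2.2 I.u3.2.2
            h1 hu3 (by rintro rfl; omega)
          omega
        · exact ⟨h1, h2⟩
        · omega
      have x2z : e (x 2) = 0 := by
        by_contra h0
        have := site_N Q.ps (k := 2) (by norm_num) (e := e) (by omega)
        norm_num at this
        omega
      have x3z : e (x 3) = 0 := by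
        by_contra h0
        have := site_two Q.ps (k := 3) (by norm_num) (e := e) (by omega) I.v13.1
          (Or.inr (Or.inr (Or.inr lv13))) I.v13.2.2 hv13
        norm_num at this
        omega
      have x4z : e (x 4) = 0 := by
        by_contra h0
        have := site_two Q.ps (k := 4) (by norm_num) (e := e) (by omega) I.v14.1
          (Or.inr (Or.inr (Or.inr lv14))) I.v14.2.2 hv14.1
        norm_num at this
        omega
      have x5z : e (x 5) = 0 := by
        by_contra h0
        have := site_N Q.ps (k := 5) (by norm_num) (e := e) (by omega)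
        norm_num at this
        omega
      have f2 : Cs i C pos e 5 + 1 ≤ Cs i C pos e 6 ∨ Ll i C pos e 7 = 1 := by
        by_cases hF : FU e u2
        · right
          obtain ⟨v, hv, hlt⟩ := hF
          have h4 := mem_uc.2 hv
          rw [Q.ucu2, mem_insert, mem_singleton] at h4
          rcases h4 with rfl | rfl
          · have := one_le I.v12.1 (ndU2 I.v12.2.1)
              I.v12.2.2 (e := e) (by omega)
            omega
          · have h5 : 1 ≤ Ll i C pos e 7 := Ll_one.2 ⟨v, I.v13.1, ndU2 lv13, I.v13.2.2,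
              by omega⟩
            have := (hn.ln 7).1
            omega
        · left
          refine Cs_lt I.u2.1 ⟨by omega, by omega⟩ (Or.inr (Or.inr ⟨by omega, hF, ?_⟩))
            (by rw [I.u2.2.2]; norm_num) (by rw [I.u2.2.2])
          rintro ⟨v, hv, hlt⟩
          have h4 := mem_dc.2 hv
          rw [Q.dcu2, mem_insert, mem_singleton] at h4
          rcases h4 with rfl | rfl <;> omega
      have f4 : Cs i C pos e 9 + 1 ≤ Cs i C pos e 10 ∨ Ll i C pos e 9 = 1 := by
        by_cases hF : FU e u4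
        · right
          obtain ⟨v, hv, hlt⟩ := hF
          have hlv := lev_uc H (mem_uc.2 hv)
          by_cases h5 : v = v14
          · subst h5
            have h5 : 1 ≤ Ll i C pos e 9 := Ll_one.2 ⟨v, I.v14.1, ndU2 lv14, I.v14.2.2,
              by omega⟩
            have := (hn.ln 9).1
            omega
          · exfalso
            have hvC := c.inC (z := v) (by omega)
            rcases Q.ucu4 v (mem_uc.2 hv) h5 with h6 | h6
            · have := two_le hvC I.u4.1 (ndU2 (i := i) (by omega)) (ndU1 lu4) h6 I.u4.2.2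
                (e := e) (by omega) hv14.2 (by rintro rfl; omega)
              omega
            · have := one_le hvC (ndU2 (i := i) (by omega)) h6 (e := e) (by omega)
              omega
        · left
          refine Cs_lt I.u4.1 ⟨by omega, by omega⟩ (Or.inr (Or.inr ⟨by omega, hF, ?_⟩))
            (by rw [I.u4.2.2]; norm_num) (by rw [I.u4.2.2])
          rintro ⟨v, hv, hlt⟩
          have h4 := mem_dc.2 hv
          rw [Q.dcu4, mem_insert, mem_singleton] at h4
          rcases h4 with rfl | rfl <;> omega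
      have t7 := fun a1 a2 a3 => hn.lp 6 7 7 a1 a2 (by norm_num) (by norm_num) a3
      have t9 := fun a1 a2 a3 => hn.lp 8 9 9 a1 a2 (by norm_num) (by norm_num) a3
      have t78 := fun a1 a2 a3 => hn.lp 6 8 7 a1 a2 (by norm_num) (by norm_num) a3
      have t67 := fun a1 a2 a3 => hn.lp 5 7 7 a1 a2 (by norm_num) (by norm_num) a3
      have t89 := fun a1 a2 a3 => hn.lp 7 9 9 a1 a2 (by norm_num) (by norm_num) a3
      have t910 := fun a1 a2 a3 => hn.lp 8 10 9 a1 a2 (by norm_num) (by norm_num) a3
      have l6 := (hn.ln 6).1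
      have l7 := (hn.ln 7).1
      have l8 := (hn.ln 8).1
      have l9 := (hn.ln 9).1
      have l10 := (hn.ln 10).1
      norm_num at t7 t9 t78 t67 t89 t910
      omega
    · -- one label `≥ 2`
      have lu2 := I.u2.2.1
      have L4 : Ll i C pos e 4 = 0 := by have := (hn.ln 4).2; omega
      rcases near_alt H Q.ps c (k := 2) (by norm_num) I.u2.1 (Or.inr lu2) I.u2.2.2 hu2 l5 l6 l7
        with h | h | h
      · norm_num at h
        omega
      · have := site_alt H Q.ps c (k := 2) (by norm_num) h L4 l5 l6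
        norm_num at this
        omega
      · have := site_two Q.ps (k := 3) (by norm_num) h I.v13.1
          (Or.inr (Or.inr (Or.inr I.v13.2.1))) I.v13.2.2 hv13
        norm_num at this
        exact last l9 l10 l11 s8 (by omega) (by omega) (by omega)

/-- the fourth gap is crossed -/
theorem KR6.not_eight (hd2 : (Sk i C e).card ≤ 2) (hE : ∑ z, e z ≤ 8)
    (n2 : 1 ≤ Nn i C pos e 2) (n4 : 1 ≤ Nn i C pos e 4) (n6 : 1 ≤ Nn i C pos e 6)
    (n8 : Nn i C pos e 8 = 0) (n10 : 1 ≤ Nn i C pos e 10) : False := by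
  have I := Q.inf H hC
  have hn := num_of H hir Q.ps Q.gp c
  have hd : Cs i C pos e 11 ≤ 2 := Cs_le.trans hd2
  have hE' := (energy_ge (i := i) (C := C) (pos := pos) (e := e) 6).trans hE
  rw [sum12 (fun t => Nn i C pos e t + Ll i C pos e t)] at hE'
  have ch := chain12 hn
  obtain ⟨s8, p3, p5, hL⟩ := six_eight hn hd n2 n4 n6 n8
  have lu3 := I.u3.2.1
  have lw3 := I.w3.2.1
  have hR : 2 ≤ Nn i C pos e 10 + Nn i C pos e 11 := by
    rcases Q.T10 H hir hC c n10 with ⟨-, h1, -⟩ | ⟨-, h1, -⟩ | h1
    · have := one_le I.w3.1 (ndL1 lw3) I.w3.2.2 h1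
      omega
    · have := one_le I.u3.1 (ndU1 lu3) I.u3.2.2 h1
      omega
    · omega
  rcases hL with h | ⟨l1, l2, l3, l4, l5, l6, l7, s4⟩
  · omega
  rcases Q.T6 H hir hC c n6 with ha | ⟨hu2, ⟨hv, hu⟩ | ⟨hv13, hu3⟩⟩
  · omega
  · have lu2 := I.u2.2.1
    have L8 : Ll i C pos e 8 = 0 := by have := (hn.ln 8).2; omega
    rcases near_alt H Q.ps c (k := 2) (by norm_num) I.u2.1 (Or.inr lu2) I.u2.2.2 hu2 l5 l6 l7
      with h | h | h
    · norm_num at h
      omega
    · have := site_two Q.ps (k := 2) (by norm_num) h I.v12.1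
        (Or.inr (Or.inr (Or.inr I.v12.2.1))) I.v12.2.2 hv
      norm_num at this
      omega
    · have := site_N Q.ps (k := 3) (by norm_num) h
      norm_num at this
      omega
  · have := one_le I.u3.1 (ndU1 lu3) I.u3.2.2 hu3
    omega

/-- THE MIDDLE GAP IS NOT CROSSED -/
theorem KR6.mid (hd2 : (Sk i C e).card ≤ 2) (hE : ∑ z, e z ≤ 8) :
    1 ≤ Nn i C pos e 2 ∧ 1 ≤ Nn i C pos e 3 ∧ 1 ≤ Nn i C pos e 4 ∧ Nn i C pos e 6 = 0 ∧
      1 ≤ Nn i C pos e 8 ∧ 1 ≤ Nn i C pos e 10 ∧ Cs i C pos e 0 + 1 ≤ Cs i C pos e 5 ∧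
      Cs i C pos e 6 + 1 ≤ Cs i C pos e 11 := by
  have hn := num_of H hir Q.ps Q.gp c
  have hd : Cs i C pos e 11 ≤ 2 := Cs_le.trans hd2
  have hE' := (energy_ge (i := i) (C := C) (pos := pos) (e := e) 6).trans hE
  have ch := chain12 hn
  have two : ∀ p q, p % 2 = 0 → q % 2 = 0 → 1 ≤ p → p < q → q < 2 * 6 →
      Nn i C pos e p = 0 → Nn i C pos e q = 0 → False := by
    intro p q h1 h2 h3 h4 h5 h6 h7
    have := hn.two_gaps h1 h2 h3 h4 h5 h6 h7
    norm_num at this
    omega
  have n6 : Nn i C pos e 6 = 0 := by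
    by_contra h6
    by_cases h2 : Nn i C pos e 2 = 0
    · refine six_two hn hd hE' h2 ?_ (by omega) ?_ ?_
      · by_contra h; exact two 2 4 (by norm_num) (by norm_num) (by norm_num) (by norm_num)
          (by norm_num) h2 (by omega)
      · by_contra h; exact two 2 8 (by norm_num) (by norm_num) (by norm_num) (by norm_num)
          (by norm_num) h2 (by omega)
      · by_contra h; exact two 2 10 (by norm_num) (by norm_num) (by norm_num) (by norm_num)
          (by norm_num) h2 (by omega)
    by_cases h4 : Nn i C pos e 4 = 0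
    · refine Q.not_four H hir hC c hd2 hE (by omega) h4 (by omega) ?_ ?_
      · by_contra h; exact two 4 8 (by norm_num) (by norm_num) (by norm_num) (by norm_num)
          (by norm_num) h4 (by omega)
      · by_contra h; exact two 4 10 (by norm_num) (by norm_num) (by norm_num) (by norm_num)
          (by norm_num) h4 (by omega)
    by_cases h8 : Nn i C pos e 8 = 0
    · refine Q.not_eight H hir hC c hd2 hE (by omega) (by omega) (by omega) h8 ?_
      by_contra h; exact two 8 10 (by norm_num) (by norm_num) (by norm_num) (by norm_num)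
          (by norm_num) h8 (by omega)
    by_cases h10 : Nn i C pos e 10 = 0
    · exact six_ten hn hd hE' (by omega) (by omega) (by omega) (by omega) h10
    · exact six_all hn hd hE' (by omega) (by omega) (by omega) (by omega) (by omega)
  have n2 : 1 ≤ Nn i C pos e 2 := by
    by_contra h; exact two 2 6 (by norm_num) (by norm_num) (by norm_num) (by norm_num)
          (by norm_num) (by omega) n6
  have n4 : 1 ≤ Nn i C pos e 4 := by
    by_contra h; exact two 4 6 (by norm_num) (by norm_num) (by norm_num) (by norm_num)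
          (by norm_num) (by omega) n6
  have n8 : 1 ≤ Nn i C pos e 8 := by
    by_contra h; exact two 6 8 (by norm_num) (by norm_num) (by norm_num) (by norm_num)
          (by norm_num) n6 (by omega)
  have n10 : 1 ≤ Nn i C pos e 10 := by
    by_contra h; exact two 6 10 (by norm_num) (by norm_num) (by norm_num) (by norm_num)
          (by norm_num) n6 (by omega)
  have z0 := hn.n0
  have z12 : Nn i C pos e (11 + 1) = 0 := hn.nb
  have s5 := hn.site 0 5 0 z0 n6 (by norm_num) (by norm_num) (by norm_num)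
  have s11 := hn.site 6 11 3 n6 z12 (by norm_num) (by norm_num) (by norm_num)
  refine ⟨n2, ?_, n4, n6, n8, n10, s5, s11⟩
  by_contra h
  have := hn.one_odd (p := 3) (l := 0) (m := 5) (by omega) z0 n6 (by omega) (by omega) n2 n4
    (by omega)
  omega

end six

end Pool.Agent.GaussPoset.Win.Kd
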