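import Pool.Agent.W_448kd_h10.KdG

/-!
MP_448cb3_co, G2, case B, block (K): five sites, two sinks, energy at most six.  helper10.
-/

namespace Pool.Agent.GaussPoset.Win.Kd

set_option linter.unusedSectionVars false

open Finset

universe u

variable {P : Type u} [Fintype P] [PartialOrder P] [DecidableEq P] {r i b : ℕ}
variable {e : P → ℕ} {C K : Finset P} {psi : P → P} {x : ℕ → P} {pos : P → ℕ}

/-- the right part of a row of five sites -/
structure KR5 (i : ℕ) (C K : Finset P) (psi : P → P) (x : ℕ → P) (pos : P → ℕ)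
    (y u w2 w3 p4 u2 u3 v12 v13 E E' : P) : Prop where
  ps : PosS i 5 C x pos
  gp : GpS i C pos
  ucw2 : uc w2 = {x 2, x 3}
  ucw3 : uc w3 = {x 3, x 4}
  dcu2 : dc u2 = {x 2, x 3}
  dcu3 : dc u3 = {x 3, x 4}
  dcx3 : dc (x 3) = {w2, w3}
  ucx3 : uc (x 3) = {u2, u3}
  dcx4 : dc (x 4) = {w3, p4}
  ucp4 : uc p4 = {x 4}
  ucx4 : ∀ z ∈ uc (x 4), z ≠ u3 → dc z = {x 4} ∧ pos z = 9
  dcw2 : ∀ z ∈ dc w2, z ∈ C → pos z = 6
  dcw3 : dc w3 = {E, E'}
  dcp4 : ∀ z ∈ dc p4, z ∈ C → z = E ∨ z = E'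
  ucE : uc E = {w3, p4}
  ucE' : uc E' = {w3, p4}
  pE : (E ∈ C → pos E = 9) ∧ (E' ∈ C → pos E' = 9)
  ucu2 : uc u2 = {v12, v13}
  ucu3 : ∀ t ∈ uc u3, t ≠ v13 → pos t = 9 ∧ ∃ s, s ∈ dc t ∧ dc s = {x 4} ∧ pos s = 9
  fU : ∀ z ∈ C, lev z + 2 = i → ∀ p, p ⋖ z → pos p = 9 → pos z = 9
  dcv12 : dc v12 = {u, u2}
  dcv13 : dc v13 = {u2, u3}
  yu : y ∈ K ∧ u ∈ K ∧ y ∈ C ∧ u ∈ C
  ucy : uc y = {x 0, x 1}
  dcu : dc u = {x 1, x 2}
  hK : ∀ k ∈ K, k ∈ C → k = y ∨ k = u
  n4 : ∀ z ∈ C, (lev z = i + 1 ∨ lev z + 1 = i) → pos z = 4 → z = u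
  n6 : ∀ z ∈ C, (lev z = i + 1 ∨ lev z + 1 = i) → pos z = 6 → z = w2 ∨ z = u2
  n8 : ∀ z ∈ C, (lev z = i + 1 ∨ lev z + 1 = i) → pos z = 8 → z = w3 ∨ z = u3
  psi2 : psi w2 = u2 ∧ psi u2 = w2
  psi3 : psi w3 = u3 ∧ psi u3 = w3

/-- an excited join at the right end -/
structure EndP (i : ℕ) (C : Finset P) (pos : P → ℕ) (e : P → ℕ) (a q F : P) : Prop where
  a1 : a ∈ C
  a2 : lev a = i + 1 ∨ lev a + 1 = i
  a3 : pos a = 8
  a4 : 1 ≤ e a
  q1 : q ∈ C
  q2 : lev q = i + 1 ∨ lev q + 1 = i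
  q3 : pos q = 9
  q4 : 1 ≤ e q
  F1 : F ∈ C
  F2 : lev F = i + 2 ∨ lev F + 2 = i
  F3 : pos F = 9
  F4 : 1 ≤ e F

lemma EndP.two {a q F : P} (h : EndP i C pos e a q F) : 2 ≤ Nn i C pos e 9 := by
  have h1 := h.q2
  have h2 := h.F2
  exact two_le h.q1 h.F1 ⟨by omega, by omega⟩ ⟨by omega, by omega⟩ h.q3 h.F3 h.q4 h.F4
    (by rintro rfl; omega)

section five

variable {y u w2 w3 p4 u2 u3 v12 v13 E E' : P}

/-- levels, membership and positions -/
structure Inf5 (i : ℕ) (C : Finset P) (x : ℕ → P) (pos : P → ℕ)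
    (y u w2 w3 p4 u2 u3 v12 v13 E E' : P) : Prop where
  xC : ∀ k, k < 5 → x k ∈ C ∧ lev (x k) = i ∧ pos (x k) = 2 * k + 1
  w2 : w2 ∈ C ∧ lev w2 = i + 1 ∧ pos w2 = 6
  w3 : w3 ∈ C ∧ lev w3 = i + 1 ∧ pos w3 = 8
  p4 : p4 ∈ C ∧ lev p4 = i + 1 ∧ 8 ≤ pos p4 ∧ pos p4 ≤ 9
  u2 : u2 ∈ C ∧ lev u2 + 1 = i ∧ pos u2 = 6
  u3 : u3 ∈ C ∧ lev u3 + 1 = i ∧ pos u3 = 8
  y : y ∈ C ∧ lev y = i + 1 ∧ pos y = 2
  u : u ∈ C ∧ lev u + 1 = i ∧ pos u = 4
  v12 : v12 ∈ C ∧ lev v12 + 2 = i ∧ pos v12 = 5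
  v13 : v13 ∈ C ∧ lev v13 + 2 = i ∧ pos v13 = 7
  E : lev E = i + 2 ∧ (E ∈ C → pos E = 9)
  E' : lev E' = i + 2 ∧ (E' ∈ C → pos E' = 9)

theorem KR5.inf (H : Gr P r) (hC : Part (i + 1) C)
    (Q : KR5 i C K psi x pos y u w2 w3 p4 u2 u3 v12 v13 E E') :
    Inf5 i C x pos y u w2 w3 p4 u2 u3 v12 v13 E E' := by
  have xC : ∀ k, k < 5 → x k ∈ C ∧ lev (x k) = i ∧ pos (x k) = 2 * k + 1 := fun k hk => by
    obtain ⟨h1, h2⟩ := mem_st.1 (Q.ps.xst k hk)
    exact ⟨h1, h2, Q.ps.px k hk⟩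
  have low : ∀ z k, k + 1 < 5 → uc z = {x k, x (k + 1)} →
      z ∈ C ∧ lev z = i + 1 ∧ pos z = 2 * k + 2 := by
    intro z k hk hz
    obtain ⟨a1, a2, a3⟩ := xC k (by omega)
    obtain ⟨b1, b2, b3⟩ := xC (k + 1) (by omega)
    have c1 : z ⋖ x k := mem_uc.1 (by rw [hz]; simp)
    have c2 : z ⋖ x (k + 1) := mem_uc.1 (by rw [hz]; simp)
    have hl := lev_uc H (mem_uc.2 c1)
    have hzC : z ∈ C := hC.dn a1 (by omega) c1
    have d1 := Q.ps.adj z hzC _ a1 c1 (by omega) (by omega)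
    have d2 := Q.ps.adj z hzC _ b1 c2 (by omega) (by omega)
    exact ⟨hzC, by omega, by omega⟩
  have upp : ∀ z k, k + 1 < 5 → dc z = {x k, x (k + 1)} →
      z ∈ C ∧ lev z + 1 = i ∧ pos z = 2 * k + 2 := by
    intro z k hk hz
    obtain ⟨a1, a2, a3⟩ := xC k (by omega)
    obtain ⟨b1, b2, b3⟩ := xC (k + 1) (by omega)
    have c1 : x k ⋖ z := mem_dc.1 (by rw [hz]; simp)
    have c2 : x (k + 1) ⋖ z := mem_dc.1 (by rw [hz]; simp)
    have hl := lev_uc H (mem_uc.2 c1)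
    have hzC : z ∈ C := hC.up a1 c1
    have d1 := Q.ps.adj _ a1 z hzC c1 (by omega) (by omega)
    have d2 := Q.ps.adj _ b1 z hzC c2 (by omega) (by omega)
    exact ⟨hzC, by omega, by omega⟩
  have iw2 := low w2 2 (by norm_num) Q.ucw2
  have iw3 := low w3 3 (by norm_num) Q.ucw3
  have iu2 := upp u2 2 (by norm_num) Q.dcu2
  have iu3 := upp u3 3 (by norm_num) Q.dcu3
  have iy := low y 0 (by norm_num) Q.ucy
  have iu := upp u 1 (by norm_num) Q.dcu
  have far : ∀ v a c : P, ∀ p : ℕ, a ∈ C → c ∈ C → lev a + 1 = i → lev c + 1 = i → pos a = p →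
      pos c = p + 2 → dc v = {a, c} → v ∈ C ∧ lev v + 2 = i ∧ pos v = p + 1 := by
    intro v a c p aC cC la lc pa pc hv
    have c1 : a ⋖ v := mem_dc.1 (by rw [hv]; simp)
    have c2 : c ⋖ v := mem_dc.1 (by rw [hv]; simp)
    have hl := lev_uc H (mem_uc.2 c1)
    have hvC : v ∈ C := hC.up aC c1
    have d1 := Q.ps.adj _ aC v hvC c1 (by omega) (by omega)
    have d2 := Q.ps.adj _ cC v hvC c2 (by omega) (by omega)
    exact ⟨hvC, by omega, by omega⟩
  have low2 : ∀ F, uc F = {w3, p4} → lev F = i + 2 := by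
    intro F hF
    have c1 : F ⋖ w3 := mem_uc.1 (by rw [hF]; simp)
    have hl := lev_uc H (mem_uc.2 c1)
    omega
  have ip4 : p4 ∈ C ∧ lev p4 = i + 1 ∧ 8 ≤ pos p4 ∧ pos p4 ≤ 9 := by
    obtain ⟨a1, a2, a3⟩ := xC 4 (by omega)
    have c1 : p4 ⋖ x 4 := mem_uc.1 (by rw [Q.ucp4]; simp)
    have hl := lev_uc H (mem_uc.2 c1)
    have hzC : p4 ∈ C := hC.dn a1 (by omega) c1
    have d1 := Q.ps.adj p4 hzC _ a1 c1 (by omega) (by omega)
    have d2 := Q.ps.rng p4 hzC ⟨by omega, by omega⟩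
    exact ⟨hzC, by omega, by omega, by omega⟩
  refine ⟨xC, iw2, iw3, ip4, iu2, iu3, iy, iu, ?_, ?_, ⟨low2 E Q.ucE, Q.pE.1⟩,
    ⟨low2 E' Q.ucE', Q.pE.2⟩⟩
  · exact far v12 u u2 4 iu.1 iu2.1 iu.2.1 iu2.2.1 iu.2.2 iu2.2.2 Q.dcv12
  · exact far v13 u2 u3 6 iu2.1 iu3.1 iu2.2.1 iu3.2.1 iu2.2.2 iu3.2.2 Q.dcv13

variable (H : Gr P r) (hir : i ≤ r) (hC : Part (i + 1) C)
  (Q : KR5 i C K psi x pos y u w2 w3 p4 u2 u3 v12 v13 E E') (c : Cfg i C K psi e)
include H hir hC Q

/-- elements at other positions are not in `K` -/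
lemma KR5.notK {z : P} (hz : z ∈ C) (h2 : pos z ≠ 2) (h4 : pos z ≠ 4) : z ∉ K := by
  intro hk
  have I := Q.inf H hC
  rcases Q.hK z hk hz with rfl | rfl
  · exact h2 I.y.2.2
  · exact h4 I.u.2.2

include c

/-- the touches of the gap at six -/
lemma KR5.T6 (hN : 1 ≤ Nn i C pos e 6) : 2 ≤ Nn i C pos e 6 ∨
    (1 ≤ e u2 ∧ ((1 ≤ e v12 ∧ 1 ≤ e u) ∨ (1 ≤ e v13 ∧ 1 ≤ e u3))) := by
  have I := Q.inf H hC
  obtain ⟨z, hz, hl, hp, he⟩ := near_even H hir Q.ps Q.gp c (by norm_num) hN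
  have h1 := Q.n6 z hz hl hp
  have h2 : 1 ≤ e w2 ∨ 1 ≤ e u2 := by
    rcases h1 with rfl | rfl
    · exact Or.inl he
    · exact Or.inr he
  rcases touch c.hc I.w2.2.1 I.u2.2.1 (Q.notK H hir hC I.w2.1 (by rw [I.w2.2.2]; norm_num)
    (by rw [I.w2.2.2]; norm_num)) (Q.notK H hir hC I.u2.1 (by rw [I.u2.2.2]; norm_num)
    (by rw [I.u2.2.2]; norm_num)) Q.psi2.1 Q.psi2.2 h2 with ⟨a, ha, h3⟩ | ⟨v, hv, h3⟩
  · left
    have hla := lev_uc H (mem_uc.2 ha)
    have l2 := I.w2.2.1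
    have haC := c.inC h3
    have hpa := Q.dcw2 a (mem_dc.2 ha) haC
    have h4 := posL H c.hA (by omega) h3 ha
    exact two_le haC I.w2.1 ⟨by omega, by omega⟩ ⟨by omega, by omega⟩ hpa I.w2.2.2 h3 h4
      (by rintro rfl; omega)
  · right
    have h4 := mem_uc.2 hv
    rw [Q.ucu2, mem_insert, mem_singleton] at h4
    rcases h4 with rfl | rfl
    · have l1 := I.v12.2.1
      have m1 := posU H hir c.hB (by omega) h3 (mem_dc.1 (by rw [Q.dcv12]; simp) : u ⋖ v)
      have m2 := posU H hir c.hB (by omega) h3 (mem_dc.1 (by rw [Q.dcv12]; simp) : u2 ⋖ v)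
      exact ⟨m2, Or.inl ⟨h3, m1⟩⟩
    · have l1 := I.v13.2.1
      have m1 := posU H hir c.hB (by omega) h3 (mem_dc.1 (by rw [Q.dcv13]; simp) : u2 ⋖ v)
      have m2 := posU H hir c.hB (by omega) h3 (mem_dc.1 (by rw [Q.dcv13]; simp) : u3 ⋖ v)
      exact ⟨m1, Or.inr ⟨h3, m2⟩⟩

/-- an excited lower join at the end -/
lemma KR5.low (hp4 : pos p4 = 9) (h : 1 ≤ e E ∨ 1 ≤ e E') : ∃ a q F, EndP i C pos e a q F := by
  have I := Q.inf H hC
  have lw3 := I.w3.2.1
  have lp4 := I.p4.2.1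
  rcases h with h | h
  · have lE := I.E.1
    have m1 := posL H c.hA (by omega) h (mem_uc.1 (by rw [Q.ucE]; simp) : E ⋖ w3)
    have m2 := posL H c.hA (by omega) h (mem_uc.1 (by rw [Q.ucE]; simp) : E ⋖ p4)
    exact ⟨w3, p4, E, I.w3.1, Or.inl lw3, I.w3.2.2, m1, I.p4.1, Or.inl lp4, hp4, m2, c.inC h,
      Or.inl lE, I.E.2 (c.inC h), h⟩
  · have lE := I.E'.1
    have m1 := posL H c.hA (by omega) h (mem_uc.1 (by rw [Q.ucE']; simp) : E' ⋖ w3)
    have m2 := posL H c.hA (by omega) h (mem_uc.1 (by rw [Q.ucE']; simp) : E' ⋖ p4)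
    exact ⟨w3, p4, E', I.w3.1, Or.inl lw3, I.w3.2.2, m1, I.p4.1, Or.inl lp4, hp4, m2, c.inC h,
      Or.inl lE, I.E'.2 (c.inC h), h⟩

/-- the touches of the gap at eight -/
lemma KR5.T8 (hN : 1 ≤ Nn i C pos e 8) (hp4 : pos p4 = 9) : (∃ a q F, EndP i C pos e a q F) ∨
    (1 ≤ e u3 ∧ 1 ≤ e v13 ∧ 1 ≤ e u2) := by
  have I := Q.inf H hC
  obtain ⟨z, hz, hl, hp, he⟩ := near_even H hir Q.ps Q.gp c (by norm_num) hN
  have h1 := Q.n8 z hz hl hp
  have h2 : 1 ≤ e w3 ∨ 1 ≤ e u3 := by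
    rcases h1 with rfl | rfl
    · exact Or.inl he
    · exact Or.inr he
  rcases touch c.hc I.w3.2.1 I.u3.2.1 (Q.notK H hir hC I.w3.1 (by rw [I.w3.2.2]; norm_num)
    (by rw [I.w3.2.2]; norm_num)) (Q.notK H hir hC I.u3.1 (by rw [I.u3.2.2]; norm_num)
    (by rw [I.u3.2.2]; norm_num)) Q.psi3.1 Q.psi3.2 h2 with ⟨a, ha, h3⟩ | ⟨v, hv, h3⟩
  · left
    have h4 := mem_dc.2 ha
    rw [Q.dcw3, mem_insert, mem_singleton] at h4
    rcases h4 with rfl | rfl
    · exact Q.low H hir hC c hp4 (Or.inl h3)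
    · exact Q.low H hir hC c hp4 (Or.inr h3)
  · have h4 := mem_uc.2 hv
    have l3 := I.u3.2.1
    have lv := lev_uc H h4
    by_cases hvv : v = v13
    · right
      subst hvv
      have m1 := posU H hir c.hB (by omega) h3 (mem_dc.1 (by rw [Q.dcv13]; simp) : u2 ⋖ v)
      have m2 := posU H hir c.hB (by omega) h3 (mem_dc.1 (by rw [Q.dcv13]; simp) : u3 ⋖ v)
      exact ⟨m2, h3, m1⟩
    · left
      obtain ⟨k1, s, k2, k3, k4⟩ := Q.ucu3 v h4 hvv
      have m1 := posU H hir c.hB (by omega) h3 hv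
      have m2 := posU H hir c.hB (by omega) h3 (mem_dc.1 k2)
      have ls := lev_dc H k2
      exact ⟨u3, s, v, I.u3.1, Or.inr l3, I.u3.2.2, m1, c.inC m2, Or.inr (by omega), k4, m2,
        c.inC h3, Or.inr (by omega), k1, h3⟩

/-- two excited elements at the right end besides the upper join -/
lemma KR5.no9 (hd2 : (Sk i C e).card ≤ 2) (hE : ∑ z, e z ≤ 6) (n2 : 1 ≤ Nn i C pos e 2)
    (s3 : Cs i C pos e 0 + 1 ≤ Cs i C pos e 3) (e2 : 1 ≤ e u2) (e3 : 1 ≤ e u3) (e13 : 1 ≤ e v13)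
    {q F : P} (q1 : q ∈ C) (q2 : lev q = i + 1 ∨ lev q + 1 = i) (q3 : pos q = 9) (q4 : 1 ≤ e q)
    (F1 : F ∈ C) (F2 : lev F = i + 2 ∨ lev F + 2 = i) (F3 : pos F = 9) (F4 : 1 ≤ e F) : False := by
  have I := Q.inf H hC
  have hn := num_of H hir Q.ps Q.gp c
  have hdd : Cs i C pos e 9 ≤ 2 := Cs_le.trans hd2
  have ch := chain10 hn
  have hE' := (energy_ge (i := i) (C := C) (pos := pos) (e := e) 5).trans hE
  rw [sum10 (fun t => Nn i C pos e t + Ll i C pos e t)] at hE'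
  have N7 : 1 ≤ Nn i C pos e 7 := one_le I.v13.1 (ndU2 I.v13.2.1) I.v13.2.2 e13
  have N6 : 1 ≤ Nn i C pos e 6 := one_le I.u2.1 (ndU1 I.u2.2.1) I.u2.2.2 e2
  have N8 : 1 ≤ Nn i C pos e 8 := one_le I.u3.1 (ndU1 I.u3.2.1) I.u3.2.2 e3
  have N9 : 2 ≤ Nn i C pos e 9 := two_le q1 F1 ⟨by omega, by omega⟩ ⟨by omega, by omega⟩ q3 F3 q4 F4
    (by rintro rfl; omega)
  have L5 : Ll i C pos e 5 = 0 := by omega
  have L6 : Ll i C pos e 6 = 0 := by omega
  have L7 : Ll i C pos e 7 = 0 := by omega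
  have L8 : Ll i C pos e 8 = 0 := by omega
  have L9 : Ll i C pos e 9 = 0 := by omega
  have k2 : Cs i C pos e 5 + 1 ≤ Cs i C pos e 6 := by
    rcases near_alt H Q.ps c (k := 2) (by norm_num) I.u2.1 (Or.inr I.u2.2.1) I.u2.2.2 e2 L5 L6 L7
      with h | h | h
    · norm_num at h
      exact h
    · have := site_N Q.ps (k := 2) (by norm_num) h
      norm_num at this
      omega
    · have := site_two Q.ps (k := 3) (by norm_num) h I.v13.1 (Or.inr (Or.inr (Or.inr I.v13.2.1)))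
        I.v13.2.2 e13
      norm_num at this
      omega
  have k3 : Cs i C pos e 7 + 1 ≤ Cs i C pos e 8 := by
    rcases near_alt H Q.ps c (k := 3) (by norm_num) I.u3.1 (Or.inr I.u3.2.1) I.u3.2.2 e3 L7 L8 L9
      with h | h | h
    · norm_num at h
      exact h
    · have := site_two Q.ps (k := 3) (by norm_num) h I.v13.1 (Or.inr (Or.inr (Or.inr I.v13.2.1)))
        I.v13.2.2 e13
      norm_num at this
      omega
    · norm_num at h
      obtain ⟨a1, a2, a3⟩ := I.xC 4 (by norm_num)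
      have := three_le (i := i) a1 q1 F1 ⟨by omega, by omega⟩ ⟨by omega, by omega⟩ ⟨by omega, by omega⟩ a3
        q3 F3 h q4 F4 (by rintro rfl; omega) (by rintro rfl; omega) (by rintro rfl; omega)
      norm_num at this
      omega
  omega

/-- THE SECOND GAP IS NOT CROSSED, the upper join at the right end is excited -/
theorem KR5.mid (hp4 : pos p4 = 9) (hd2 : (Sk i C e).card ≤ 2) (hE : ∑ z, e z ≤ 6) :
    1 ≤ Nn i C pos e 2 ∧ Nn i C pos e 4 = 0 ∧ Cs i C pos e 0 + 1 ≤ Cs i C pos e 3 ∧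
      1 ≤ e u2 ∧ 1 ≤ e u3 ∧ 1 ≤ e v13 ∧ e p4 = 0 ∧ ∀ z ∈ uc (x 4), z ≠ u3 → e z = 0 := by
  have I := Q.inf H hC
  have hn := num_of H hir Q.ps Q.gp c
  have hd : Cs i C pos e 9 ≤ 2 := Cs_le.trans hd2
  have hE' := (energy_ge (i := i) (C := C) (pos := pos) (e := e) 5).trans hE
  have hE2 := hE'
  rw [sum10 (fun t => Nn i C pos e t + Ll i C pos e t)] at hE2
  have ch := chain10 hn
  have z0 := hn.n0
  have z10 : Nn i C pos e (9 + 1) = 0 := hn.nb
  have lu2 := I.u2.2.1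
  have lu3 := I.u3.2.1
  have lw3 := I.w3.2.1
  have lp4 := I.p4.2.1
  have lv13 := I.v13.2.1
  have two : ∀ p q, p % 2 = 0 → q % 2 = 0 → 1 ≤ p → p < q → q < 2 * 5 →
      Nn i C pos e p = 0 → Nn i C pos e q = 0 → False := by
    intro p q h1 h2 h3 h4 h5 h6 h7
    have := hn.two_gaps h1 h2 h3 h4 h5 h6 h7
    norm_num at this
    omega
  have n4 : Nn i C pos e 4 = 0 := by
    by_contra h4
    by_cases h2 : Nn i C pos e 2 = 0
    · have h6 : 1 ≤ Nn i C pos e 6 := by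
        by_contra h; exact two 2 6 (by norm_num) (by norm_num) (by norm_num) (by norm_num)
          (by norm_num) h2 (by omega)
      have h8 : 1 ≤ Nn i C pos e 8 := by
        by_contra h; exact two 2 8 (by norm_num) (by norm_num) (by norm_num) (by norm_num)
          (by norm_num) h2 (by omega)
      obtain ⟨s1, l3, l4, l5, l6, l7, l8, l9, k3, k4, k5, k6, k7, k8, k9, s6⟩ :=
        five_two hn hd hE' h2 (by omega) h6 h8
      rcases Q.T8 H hir hC c h8 hp4 with ⟨a, q, F, h⟩ | ⟨hu3, hv13, hu2⟩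
      · have := h.two
        omega
      · rcases near_alt H Q.ps c (k := 3) (by norm_num) I.u3.1 (Or.inr lu3) I.u3.2.2 hu3 l7 l8 l9
          with h | h | h
        · norm_num at h
          omega
        · have := site_two Q.ps (k := 3) (by norm_num) h I.v13.1
            (Or.inr (Or.inr (Or.inr lv13))) I.v13.2.2 hv13
          norm_num at this
          omega
        · have := site_N Q.ps (k := 4) (by norm_num) h
          norm_num at this
          omega
    by_cases h6 : Nn i C pos e 6 = 0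
    · have h8 : 1 ≤ Nn i C pos e 8 := by
        by_contra h; exact two 6 8 (by norm_num) (by norm_num) (by norm_num) (by norm_num)
          (by norm_num) h6 (by omega)
      have s5 := hn.site 0 5 0 z0 h6 (by norm_num) (by norm_num) (by norm_num)
      have s9 := hn.site 6 9 3 h6 z10 (by norm_num) (by norm_num) (by norm_num)
      have p3 : 1 ≤ Nn i C pos e 3 := by
        by_contra h
        have := hn.one_odd (p := 3) (l := 0) (m := 5) (by omega) z0 h6 (by omega) (by omega)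
          (show 1 ≤ Nn i C pos e 2 by omega) (show 1 ≤ Nn i C pos e 4 by omega) (by omega)
        omega
      rcases Q.T8 H hir hC c h8 hp4 with ⟨a, q, F, h⟩ | ⟨hu3, hv13, hu2⟩
      · have h9 := h.two
        have L0 := hn.l0
        have L10 : Ll i C pos e 10 = 0 := hn.lb
        have lq := h.q2
        have lF := h.F2
        have pq := h.q3
        -- the site `x 4` is not labelled
        have x4 : e (x 4) = 0 := by
          by_contra h0
          obtain ⟨a1, a2, a3⟩ := I.xC 4 (by norm_num)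
          have := three_le (i := i) a1 h.q1 h.F1 ⟨by omega, by omega⟩ ⟨by omega, by omega⟩
            ⟨by omega, by omega⟩ a3 h.q3 h.F3 (e := e) (by omega) h.q4 h.F4
            (by rintro rfl; omega) (by rintro rfl; omega) (by rintro rfl; omega)
          norm_num at this
          omega
        have q1 : Cs i C pos e 7 + 1 ≤ Cs i C pos e 8 := by
          rcases near_alt H Q.ps c (k := 3) (by norm_num) h.a1 h.a2 h.a3 h.a4
            (by norm_num; omega) (by norm_num; omega) (by norm_num; omega) with h' | h' | h'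
          · norm_num at h'
            exact h'
          · have := site_N Q.ps (k := 3) (by norm_num) h'
            norm_num at this
            omega
          · norm_num at h'
            omega
        have q2 : Cs i C pos e 8 + 1 ≤ Cs i C pos e 9 := by
          rcases near_sink H Q.ps c.hs h.q1 h.q2 h.q4 (by rw [pq]; norm_num; omega)
            (by rw [pq]; omega) (by rw [pq]; norm_num; omega) with h' | ⟨v, hv, -, hev, hpv⟩
          · exact Cs_lt h.q1 ⟨by omega, by omega⟩ h' (by omega) (by omega)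
          · obtain ⟨m, hm, rfl⟩ := Q.ps.stx v hv
            have hpm := Q.ps.px m hm
            have : m = 4 := by omega
            subst this
            omega
        omega
      · have := one_le I.u2.1 (ndU1 lu2) I.u2.2.2 hu2
        omega
    by_cases h8 : Nn i C pos e 8 = 0
    · obtain ⟨s8, l1, l2, l3, l4, l5, l6, l7, k2, k3, k4, k5, k6, k7, k9, s4⟩ :=
        five_eight hn hd hE' (by omega) (by omega) (by omega) h8
      rcases Q.T6 H hir hC c (by omega) with h | ⟨hu2, ⟨hv12, hu⟩ | ⟨hv13, hu3⟩⟩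
      · omega
      · rcases near_alt H Q.ps c (k := 2) (by norm_num) I.u2.1 (Or.inr lu2) I.u2.2.2 hu2 l5 l6 l7
          with h | h | h
        · norm_num at h
          omega
        · have := site_two Q.ps (k := 2) (by norm_num) h I.v12.1
            (Or.inr (Or.inr (Or.inr I.v12.2.1))) I.v12.2.2 hv12
          norm_num at this
          omega
        · have := site_N Q.ps (k := 3) (by norm_num) h
          norm_num at this
          omega
      · have := one_le I.u3.1 (ndU1 lu3) I.u3.2.2 hu3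
        omega
    · obtain ⟨hL, k1, k2, k4, k6, k8, k9, k357, k7, k5, k3, s3, s9⟩ :=
        five_all hn hd hE' (by omega) (by omega) (by omega) (by omega)
      rcases Q.T8 H hir hC c (by omega) hp4 with ⟨a, q, F, h⟩ | ⟨hu3, hv13, hu2⟩
      · have := h.two
        omega
      · have q3 : Cs i C pos e 7 + 1 ≤ Cs i C pos e 8 := by
          rcases near_alt H Q.ps c (k := 3) (by norm_num) I.u3.1 (Or.inr lu3) I.u3.2.2 hu3
            (hL _ (by norm_num)) (hL _ (by norm_num)) (hL _ (by norm_num)) with h | h | h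
          · norm_num at h
            exact h
          · have := site_two Q.ps (k := 3) (by norm_num) h I.v13.1
              (Or.inr (Or.inr (Or.inr lv13))) I.v13.2.2 hv13
            norm_num at this
            omega
          · have := site_N Q.ps (k := 4) (by norm_num) h
            norm_num at this
            omega
        rcases near_alt H Q.ps c (k := 2) (by norm_num) I.u2.1 (Or.inr lu2) I.u2.2.2 hu2
            (hL _ (by norm_num)) (hL _ (by norm_num)) (hL _ (by norm_num)) with h | h | h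
        · norm_num at h
          omega
        · have := site_alt H Q.ps c (k := 2) (by norm_num) h (hL _ (by norm_num))
            (hL _ (by norm_num)) (hL _ (by norm_num))
          norm_num at this
          omega
        · have := site_two Q.ps (k := 3) (by norm_num) h I.v13.1
              (Or.inr (Or.inr (Or.inr lv13))) I.v13.2.2 hv13
          norm_num at this
          omega
  have n2 : 1 ≤ Nn i C pos e 2 := by
    by_contra h; exact two 2 4 (by norm_num) (by norm_num) (by norm_num) (by norm_num)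
          (by norm_num) (by omega) n4
  have n6 : 1 ≤ Nn i C pos e 6 := by
    by_contra h; exact two 4 6 (by norm_num) (by norm_num) (by norm_num) (by norm_num)
          (by norm_num) n4 (by omega)
  have n8 : 1 ≤ Nn i C pos e 8 := by
    by_contra h; exact two 4 8 (by norm_num) (by norm_num) (by norm_num) (by norm_num)
          (by norm_num) n4 (by omega)
  have s3 := hn.site 0 3 0 z0 n4 (by norm_num) (by norm_num) (by norm_num)
  have n7 : 1 ≤ Nn i C pos e 7 := by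
    by_contra h
    have := hn.one_odd (p := 7) (l := 4) (m := 9) (by omega) n4 z10 (by omega) (by omega)
      (by omega) (by omega) (by omega)
    omega
  -- the joins at the end are not excited
  have noE : ∀ a q F, ¬ EndP i C pos e a q F := by
    intro a q F h
    have h9 := h.two
    rcases Q.T6 H hir hC c n6 with h6 | ⟨hu2, ⟨hv12, hu⟩ | ⟨hv13, hu3⟩⟩
    · omega
    · have := one_le I.u.1 (ndU1 I.u.2.1) I.u.2.2 hu
      omega
    · exact Q.no9 H hir hC c hd2 hE n2 s3 hu2 hu3 hv13 h.q1 h.q2 h.q3 h.q4 h.F1 h.F2 h.F3 h.F4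
  rcases Q.T8 H hir hC c n8 hp4 with ⟨a, q, F, h⟩ | ⟨hu3, hv13, hu2⟩
  · exact absurd h (noE a q F)
  refine ⟨n2, n4, s3, hu2, hu3, hv13, ?_, ?_⟩
  · by_contra h0
    have hk4 : p4 ∉ K := Q.notK H hir hC I.p4.1 (by omega) (by omega)
    have h1 : p4 ∈ Tch i e := by
      by_contra hT
      refine h0 (c.hc p4 (mem_Rst.2 ⟨mem_near.2 (Or.inl lp4), hk4, hT, fun h3 => ?_⟩))
      rcases mem_union.1 h3.1 with h4 | h4
      · have := (mem_dbL.1 h4).2
        rw [Q.ucp4, card_singleton] at this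
        omega
      · have := (mem_dbU.1 h4).1
        omega
    rcases mem_Tch.1 h1 with ⟨-, z, hz, hz0⟩ | ⟨h3, -⟩
    · rcases Q.dcp4 z (mem_dc.2 hz) (c.inC hz0) with rfl | rfl
      · obtain ⟨a, q, F, h⟩ := Q.low H hir hC c hp4 (Or.inl hz0)
        exact noE a q F h
      · obtain ⟨a, q, F, h⟩ := Q.low H hir hC c hp4 (Or.inr hz0)
        exact noE a q F h
    · omega
  · intro z hz hne
    by_contra h0
    obtain ⟨k1, k2⟩ := Q.ucx4 z hz hne
    have hl := lev_uc H hz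
    have hx4 := (I.xC 4 (by norm_num)).2.1
    have zC : z ∈ C := c.inC (by omega)
    have hk4 : z ∉ K := Q.notK H hir hC zC (by omega) (by omega)
    have h1 : z ∈ Tch i e := by
      by_contra hT
      refine h0 (c.hc z (mem_Rst.2 ⟨mem_near.2 (Or.inr (by omega)), hk4, hT, fun h3 => ?_⟩))
      rcases mem_union.1 h3.1 with h4 | h4
      · have := (mem_dbL.1 h4).1
        omega
      · have := (mem_dbU.1 h4).2
        rw [k1, card_singleton] at this
        omega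
    rcases mem_Tch.1 h1 with ⟨h3, -⟩ | ⟨-, t, ht, ht0⟩
    · omega
    · have lt := lev_uc H (mem_uc.2 ht)
      exact Q.no9 H hir hC c hd2 hE n2 s3 hu2 hu3 hv13 zC (Or.inr (by omega)) k2 (by omega)
        (c.inC ht0) (Or.inr (by omega)) (Q.fU t (c.inC ht0) (by omega) z ht k2) ht0

end five

end Pool.Agent.GaussPoset.Win.Kd
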