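import Pool.Agent.W_448kd_h10.KdG
import Pool.Agent.W_448rb_h44.RbB

/-!
MP_448cb3_co, G2, case B, block (K): six sites, two sinks, energy at most eight: the right block.
helper10.
-/

namespace Pool.Agent.GaussPoset.Win.Kd

set_option linter.unusedSectionVars false

open Finset
open Pool.Agent.GaussPoset.Win.I2 (kd gu)

universe u

variable {P : Type u} [Fintype P] [PartialOrder P] [DecidableEq P] {r i b : ℕ}
variable {e : P → ℕ} {C K : Finset P} {psi : P → P} {x : ℕ → P} {pos : P → ℕ}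

open Classical in
/-- the left block: positions at most `m` -/
noncomputable def Lf (i : ℕ) (C : Finset P) (pos : P → ℕ) (m : ℕ) : Finset P :=
  C.filter (fun z => ND i z ∧ pos z ≤ m)

open Classical in
/-- the right block -/
noncomputable def Rt (i : ℕ) (C : Finset P) (pos : P → ℕ) (m : ℕ) : Finset P :=
  univ.filter (fun z => (z ∈ C ∨ lev z ≠ i) ∧ ¬ (z ∈ C ∧ ND i z ∧ pos z ≤ m))

lemma mem_Lf {m : ℕ} {z : P} : z ∈ Lf i C pos m ↔ z ∈ C ∧ ND i z ∧ pos z ≤ m := by
  classical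
  unfold Lf
  rw [mem_filter]

lemma mem_Rt {m : ℕ} {z : P} : z ∈ Rt i C pos m ↔
    (z ∈ C ∨ lev z ≠ i) ∧ ¬ (z ∈ C ∧ ND i z ∧ pos z ≤ m) := by
  classical
  unfold Rt
  rw [mem_filter]
  simp

/-- an element of the part to the right -/
lemma Rt_of {m : ℕ} {z : P} (hz : z ∈ C) (h : m < pos z) : z ∈ Rt i C pos m :=
  mem_Rt.2 ⟨Or.inl hz, fun h1 => by omega⟩

/-- a deep element is to the right -/
lemma Rt_deep {m : ℕ} {z : P} (h1 : lev z ≠ i) (h : ¬ ND i z) : z ∈ Rt i C pos m :=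
  mem_Rt.2 ⟨Or.inr h1, fun h1 => h h1.2.1⟩

/-- the energy of the left block -/
lemma left_ge (m : ℕ) : ∑ t ∈ range (m + 1), (Nn i C pos e t + Ll i C pos e t) ≤
    ∑ z ∈ Lf i C pos m, e z := by
  classical
  have h1 : ∀ t ∈ range (m + 1), Nn i C pos e t + Ll i C pos e t ≤
      ∑ z ∈ C.filter (fun z => ND i z ∧ pos z = t), e z := by
    intro t _
    have hsub : Ex i C pos e 1 t ⊆ C.filter (fun z => ND i z ∧ pos z = t) := by
      intro z hz
      obtain ⟨h1, h2, h3, h4⟩ := mem_Ex.1 hz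
      exact mem_filter.2 ⟨h1, h2, h3⟩
    refine le_trans ?_ (sum_le_sum_of_subset hsub)
    have hone : ∀ z ∈ Ex i C pos e 1 t, 1 ≤ e z := fun z hz => (mem_Ex.1 hz).2.2.2
    have hcard : Nn i C pos e t = ∑ z ∈ Ex i C pos e 1 t, 1 := by
      unfold Nn
      rw [card_eq_sum_ones]
    rcases Nat.eq_zero_or_pos (Ll i C pos e t) with h | h
    · rw [h, add_zero, hcard]
      exact sum_le_sum hone
    · obtain ⟨z0, k1, k2, k3, k4⟩ := Ll_one.1 h
      have hz0 : z0 ∈ Ex i C pos e 1 t := mem_Ex.2 ⟨k1, k2, k3, by omega⟩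
      have := Ll_le (i := i) (C := C) (pos := pos) (e := e) (p := t)
      rw [hcard]
      have h5 : ∑ z ∈ Ex i C pos e 1 t, 1 < ∑ z ∈ Ex i C pos e 1 t, e z :=
        sum_lt_sum hone ⟨z0, hz0, by omega⟩
      omega
  refine (sum_le_sum h1).trans ?_
  rw [← sum_biUnion]
  · refine sum_le_sum_of_subset ?_
    intro z hz
    rw [mem_biUnion] at hz
    obtain ⟨t, ht, hz⟩ := hz
    rw [mem_filter] at hz
    rw [mem_range] at ht
    exact mem_Lf.2 ⟨hz.1, hz.2.1, by omega⟩
  · intro s _ t _ hst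
    rw [Function.onFun, disjoint_left]
    intro z hz hz'
    rw [mem_filter] at hz hz'
    exact hst (hz.2.2.symm.trans hz'.2.2)

/-- the energies of the two blocks -/
lemma two_blocks (m : ℕ) : ∑ z ∈ Lf i C pos m, e z + ∑ z ∈ Rt i C pos m, e z ≤ ∑ z, e z := by
  classical
  rw [← sum_union]
  · exact sum_le_sum_of_subset (subset_univ _)
  · rw [disjoint_left]
    intro z hz hz'
    exact (mem_Rt.1 hz').2 (mem_Lf.1 hz)

/-- a sink to the left -/
lemma left_sink {m : ℕ} (h : Cs i C pos e 0 + 1 ≤ Cs i C pos e m) :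
    ∃ z ∈ Sk i C e, z ∈ Lf i C pos m := by
  classical
  have h1 : 0 < Cs i C pos e m := by omega
  unfold Cs at h1
  rw [card_pos] at h1
  obtain ⟨z, hz⟩ := h1
  rw [mem_filter] at hz
  exact ⟨z, hz.1, mem_Lf.2 ⟨(mem_Sk.1 hz.1).1, hz.2⟩⟩

/-- at most one sink to the right -/
lemma right_one (H : Gr P r) (hir : i ≤ r) (c : Cfg i C K psi e) {m : ℕ}
    (h : Cs i C pos e 0 + 1 ≤ Cs i C pos e m) (hd2 : (Sk i C e).card ≤ 2) :
    ∀ z ∈ Rt i C pos m, ∀ z' ∈ Rt i C pos m, Snk i e z → Snk i e z' → z = z' := by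
  classical
  intro z hz z' hz' h1 h2
  by_contra hne
  obtain ⟨s, hs, hsL⟩ := left_sink h
  have key : ∀ a ∈ Rt i C pos m, Snk i e a → a ∈ Sk i C e ∧ a ≠ s := by
    intro a ha hk
    refine ⟨mem_Sk.2 ⟨?_, hk⟩, ?_⟩
    · by_contra haC
      have hl : lev a ≠ i := (mem_Rt.1 ha).1.resolve_left haC
      rcases hk with ⟨h3, -⟩ | ⟨h3, -, h4⟩ | ⟨h3, -, h4⟩
      · exact hl h3
      · exact h4 (GU_out H c.hs haC (by omega))
      · exact h4 (GD_out H c.hs haC (by omega))
    · rintro rfl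
      exact (mem_Rt.1 ha).2 (mem_Lf.1 hsL)
  obtain ⟨a1, a2⟩ := key z hz h1
  obtain ⟨b1, b2⟩ := key z' hz' h2
  have h3 : ({z, z', s} : Finset P) ⊆ Sk i C e := by
    intro a ha
    rw [mem_insert, mem_insert, mem_singleton] at ha
    rcases ha with rfl | rfl | rfl
    · exact a1
    · exact b1
    · exact hs
  have h4 := card_le_card h3
  rw [card_eq_three.2 ⟨z, z', s, hne, a2, b2, rfl⟩] at h4
  omega

/-- a near element above or below a site which is not double is touched -/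
lemma core_single (c : Cfg i C K psi e) {z : P} (hl : lev z = i + 1 ∨ lev z + 1 = i)
    (hk : z ∉ K) (hd : z ∉ dbL P i ∪ dbU P i) (he : 1 ≤ e z) : z ∈ Tch i e := by
  by_contra hT
  have := c.hc z (mem_Rst.2 ⟨mem_near.2 hl, hk, hT, fun h => hd h.1⟩)
  omega

section six

variable {y u w2 w3 w4 u2 u3 u4 v12 v13 v14 E E' : P}
variable (H : Gr P r) (hir : i ≤ r) (hC : Part (i + 1) C)
  (Q : KR6 i C K psi x pos y u w2 w3 w4 u2 u3 u4 v12 v13 v14 E E') (c : Cfg i C K psi e)
include H hir hC Q c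

/-- no excited single element at the right end -/
lemma KR6.no11 (hd2 : (Sk i C e).card ≤ 2) (hE : ∑ z, e z ≤ 8) {a d θ : P}
    (ha : a ∈ C) (hd : d ∈ C) (hθ : θ ∈ C) (la : lev a = i + 1 ∨ lev a + 1 = i)
    (ld : lev d = i + 1 ∨ lev d + 1 = i) (lθ : lev θ = i + 2 ∨ lev θ + 2 = i)
    (pa : pos a = 8) (pd : pos d = 10) (pθ : pos θ = 9) (ea : 1 ≤ e a) (ed : 1 ≤ e d)
    (eθ : 1 ≤ e θ) {z : P} (hz : z ∈ C) (lz : lev z = i + 1 ∨ lev z + 1 = i) (pz : pos z = 11) :
    e z = 0 := by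
  by_contra h0
  have I := Q.inf H hC
  obtain ⟨n2, n3, n4, n6, n8, n10, s5, s11⟩ := Q.mid H hir hC c hd2 hE
  have hn := num_of H hir Q.ps Q.gp c
  have hdd : Cs i C pos e 11 ≤ 2 := Cs_le.trans hd2
  have ch := chain12 hn
  have hE' := (energy_ge (i := i) (C := C) (pos := pos) (e := e) 6).trans hE
  rw [sum12 (fun t => Nn i C pos e t + Ll i C pos e t)] at hE'
  have ndz : ND i z := ⟨by omega, by omega⟩
  have hzK : z ∉ K := Q.notK H hir hC c hz (by omega) (by omega)
  -- `z` is not double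
  have hzd : z ∉ dbL P i ∪ dbU P i := by
    intro h
    rcases mem_union.1 h with h | h
    · obtain ⟨h1, h2⟩ := mem_dbL.1 h
      obtain ⟨v, w, hvw, huc⟩ := card_eq_two.1 h2
      have hv : z ⋖ v := mem_uc.1 (by rw [huc]; simp)
      have hw : z ⋖ w := mem_uc.1 (by rw [huc]; simp)
      have lv := lev_uc H (mem_uc.2 hv)
      have lw := lev_uc H (mem_uc.2 hw)
      have vC := hC.up hz hv
      have wC := hC.up hz hw
      have av := Q.ps.adj z hz v vC hv (by omega) (by omega)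
      have aw := Q.ps.adj z hz w wC hw (by omega) (by omega)
      obtain ⟨k, hk, rfl⟩ := Q.ps.stx v (mem_st.2 ⟨vC, by omega⟩)
      obtain ⟨m, hm, rfl⟩ := Q.ps.stx w (mem_st.2 ⟨wC, by omega⟩)
      have pk := Q.ps.px k hk
      have pm := Q.ps.px m hm
      have : k = m := by omega
      exact hvw (by rw [this])
    · obtain ⟨h1, h2⟩ := mem_dbU.1 h
      obtain ⟨v, w, hvw, huc⟩ := card_eq_two.1 h2
      have hv : v ⋖ z := mem_dc.1 (by rw [huc]; simp)
      have hw : w ⋖ z := mem_dc.1 (by rw [huc]; simp)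
      have lv := lev_uc H (mem_uc.2 hv)
      have lw := lev_uc H (mem_uc.2 hw)
      have vC : v ∈ C := hC.dn hz (by omega) hv
      have wC : w ∈ C := hC.dn hz (by omega) hw
      have av := Q.ps.adj v vC z hz hv (by omega) (by omega)
      have aw := Q.ps.adj w wC z hz hw (by omega) (by omega)
      obtain ⟨k, hk, rfl⟩ := Q.ps.stx v (mem_st.2 ⟨vC, by omega⟩)
      obtain ⟨m, hm, rfl⟩ := Q.ps.stx w (mem_st.2 ⟨wC, by omega⟩)
      have pk := Q.ps.px k hk
      have pm := Q.ps.px m hm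
      have : k = m := by omega
      exact hvw (by rw [this])
  -- a far element at the end
  obtain ⟨f, fC, ff, pf, ef⟩ : ∃ f ∈ C, (lev f = i + 2 ∨ lev f + 2 = i) ∧ pos f = 11 ∧ 1 ≤ e f := by
    rcases mem_Tch.1 (core_single c lz hzK hzd (by omega)) with ⟨l1, f, hf, ef⟩ | ⟨l1, f, hf, ef⟩
    · have lf := lev_uc H (mem_uc.2 hf)
      exact ⟨f, c.inC ef, Or.inl (by omega), Q.fL f (c.inC ef) (by omega) z hf pz, ef⟩
    · have lf := lev_uc H (mem_uc.2 hf)
      exact ⟨f, c.inC ef, Or.inr (by omega), Q.fU f (c.inC ef) (by omega) z hf pz, ef⟩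
  have ndf : ND i f := ⟨by omega, by omega⟩
  have k11 : 2 ≤ Nn i C pos e 11 := two_le hz fC ndz ndf pz pf (by omega) ef
    (by rintro rfl; omega)
  have k9 : 1 ≤ Nn i C pos e 9 := one_le hθ ⟨by omega, by omega⟩ pθ eθ
  have L7 : Ll i C pos e 7 = 0 := by omega
  have L8 : Ll i C pos e 8 = 0 := by omega
  have L9 : Ll i C pos e 9 = 0 := by omega
  have L10 : Ll i C pos e 10 = 0 := by omega
  have L11 : Ll i C pos e 11 = 0 := by omega
  have q1 : Cs i C pos e 7 + 1 ≤ Cs i C pos e 8 := by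
    rcases near_alt H Q.ps c (k := 3) (by norm_num) ha la pa ea L7 L8 L9 with h | h | h
    · norm_num at h
      exact h
    · have := site_N Q.ps (k := 3) (by norm_num) h
      norm_num at this
      omega
    · have := site_two Q.ps (k := 4) (by norm_num) h hθ (by omega) pθ eθ
      norm_num at this
      omega
  have q2 : Cs i C pos e 9 + 1 ≤ Cs i C pos e 10 := by
    rcases near_alt H Q.ps c (k := 4) (by norm_num) hd ld pd ed L9 L10 L11 with h | h | h
    · norm_num at h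
      exact h
    · have := site_two Q.ps (k := 4) (by norm_num) h hθ (by omega) pθ eθ
      norm_num at this
      omega
    · obtain ⟨a1, a2, a3⟩ := I.xC 5 (by norm_num)
      have := three_le a1 hz fC ⟨by omega, by omega⟩ ndz ndf a3 pz pf h (by omega) ef
        (by rintro rfl; omega) (by rintro rfl; omega) (by rintro rfl; omega)
      norm_num at this
      omega
  omega

end six

end Pool.Agent.GaussPoset.Win.Kd
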