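import Pool.Agent.W_448kd_h10.KdI
import Pool.Agent.W_448rb_h44.RbC
import Pool.Agent.W_448kd_h63.DkC
import Pool.Agent.W_448ks_h61.KsB

/-!
MP_448cb3_co, G2, case B, block (K): six sites, two sinks, energy at most eight: the classification.
helper10.
-/

namespace Pool.Agent.GaussPoset.Win.Kd

set_option linter.unusedSectionVars false

open Finset
open Pool.Agent.GaussPoset.Win.I2 (kd gu)

universe u

variable {P : Type u} [Fintype P] [PartialOrder P] [DecidableEq P] {r i b : ℕ}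
variable {e : P → ℕ} {C K : Finset P} {psi : P → P} {x : ℕ → P} {pos : P → ℕ}

/-- sites are not killed from both sides -/
lemma Cfg.both (c : Cfg i C K psi e) {v : P} (lv : lev v = i) : ¬ (kd dc e v ∧ kd uc e v) := by
  rintro ⟨h1, h2⟩
  exact disjoint_left.1 c.hd ((NormD_mem_AL i e v).2 ⟨lv, FDm.2 h1⟩)
    ((NormD_mem_AU i e v).2 ⟨lv, FUm.2 h2⟩)

lemma Cfg.admL (c : Cfg i C K psi e) {z : P} (lz : i < lev z) : ¬ (kd dc e z ∧ gu uc e z) := by
  rintro ⟨h1, h2⟩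
  exact c.hA z lz ⟨FDm.2 h1, GUm.2 h2⟩

lemma Cfg.admU (c : Cfg i C K psi e) {z : P} (lz : lev z < i) : ¬ (kd uc e z ∧ gu dc e z) := by
  rintro ⟨h1, h2⟩
  exact c.hB z lz ⟨FUm.2 h1, GDm.2 h2⟩

lemma range6 (f : ℕ → ℕ) : ∑ t ∈ range (5 + 1), f t = f 0 + f 1 + f 2 + f 3 + f 4 + f 5 := by
  simp [Finset.sum_range_succ]

lemma range4 (f : ℕ → ℕ) : ∑ t ∈ range (3 + 1), f t = f 0 + f 1 + f 2 + f 3 := by
  simp [Finset.sum_range_succ]

section six

variable {y u w2 w3 w4 u2 u3 u4 v12 v13 v14 E E' : P}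
variable (H : Gr P r) (hir : i ≤ r) (hC : Part (i + 1) C)
  (Q : KR6 i C K psi x pos y u w2 w3 w4 u2 u3 u4 v12 v13 v14 E E') (c : Cfg i C K psi e)
include H hir hC Q c

/-- the energy of the right block -/
lemma KR6.sumR (hd2 : (Sk i C e).card ≤ 2) (hE : ∑ z, e z ≤ 8) : ∑ z ∈ Rt i C pos 5, e z ≤ 5 := by
  obtain ⟨n2, n3, n4, -⟩ := Q.mid H hir hC c hd2 hE
  have h1 := two_blocks (i := i) (C := C) (pos := pos) (e := e) 5
  have h2 := left_ge (i := i) (C := C) (pos := pos) (e := e) 5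
  rw [range6 (fun t => Nn i C pos e t + Ll i C pos e t)] at h2
  omega

/-- the right block, lower side -/
theorem KR6.rb_low (hd2 : (Sk i C e).card ≤ 2) (hE : ∑ z, e z ≤ 8) {θ : P}
    (hθ : θ = E ∨ θ = E') (eθ : 1 ≤ e θ) (e3 : 1 ≤ e w3) (e4 : 1 ≤ e w4) :
    RB (uc : P → Finset P) dc (fun z => (lev z : ℤ) - i) e (Rt i C pos 5) θ w3 w4 (x 3) (x 4)
      (x 5) := by
  have I := Q.inf H hC
  obtain ⟨n2, n3, n4, n6, n8, n10, s5, s11⟩ := Q.mid H hir hC c hd2 hE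
  have lθ : lev θ = i + 2 ∧ (θ ∈ C → pos θ = 9) ∧ uc θ = {w3, w4} := by
    rcases hθ with rfl | rfl
    · exact ⟨I.E.1, I.E.2, Q.ucE⟩
    · exact ⟨I.E'.1, I.E'.2, Q.ucE'⟩
  have θC := c.inC eθ
  have pθ := lθ.2.1 θC
  obtain ⟨x3a, x3b, x3c⟩ := I.xC 3 (by norm_num)
  obtain ⟨x4a, x4b, x4c⟩ := I.xC 4 (by norm_num)
  obtain ⟨x5a, x5b, x5c⟩ := I.xC 5 (by norm_num)
  norm_num at x3c x4c x5c
  have ne_of : ∀ {a a' : P}, pos a ≠ pos a' → a ≠ a' := fun h h' => h (by rw [h'])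
  have z6 := Nn_zero.1 n6
  have ew2 : e w2 = 0 := z6 w2 I.w2.1 (ndL1 I.w2.2.1) I.w2.2.2
  have eu2 : e u2 = 0 := z6 u2 I.u2.1 (ndU1 I.u2.2.1) I.u2.2.2
  have no : ∀ z ∈ C, (lev z = i + 1 ∨ lev z + 1 = i) → pos z = 11 → e z = 0 := fun z hz lz pz =>
    Q.no11 H hir hC c hd2 hE I.w3.1 I.w4.1 θC (Or.inl I.w3.2.1) (Or.inl I.w4.2.1) (Or.inl lθ.1)
      I.w3.2.2 I.w4.2.2 pθ e3 e4 eθ hz lz pz
  refine ⟨dual_low, lv_low H i, ?_, lθ.2.2, Q.ucw3, Q.ucw4, Q.dcx4, ?_, ?_, ?_, ?_, ?_, ?_, ?_, ?_,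
    ?_, ?_, eθ, e3, e4, Q.sumR H hir hC c hd2 hE, ?_, ?_, ?_, ?_, ?_, ?_, ?_, ?_, ?_⟩
  · simp only [x4b]
    omega
  · exact ne_of (by rw [I.w3.2.2, I.w4.2.2]; norm_num)
  · exact ne_of (by rw [x3c, x4c]; norm_num)
  · exact ne_of (by rw [x4c, x5c]; norm_num)
  · exact ne_of (by rw [x3c, x5c]; norm_num)
  · exact Rt_of θC (by omega)
  · exact Rt_of I.w3.1 (by rw [I.w3.2.2]; norm_num)
  · exact Rt_of I.w4.1 (by rw [I.w4.2.2]; norm_num)
  · exact Rt_of x3a (by omega)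
  · exact Rt_of x4a (by omega)
  · exact Rt_of x5a (by omega)
  · intro v hv
    refine c.both ?_
    rcases hv with rfl | rfl | rfl
    · exact x3b
    · exact x4b
    · exact x5b
  · intro z hz
    refine c.admL ?_
    rcases hz with rfl | rfl
    · rw [I.w3.2.1]; omega
    · rw [I.w4.2.1]; omega
  · intro z hz hne
    rw [Q.dcx3, mem_insert, mem_singleton] at hz
    rcases hz with rfl | rfl
    · exact ew2
    · exact absurd rfl hne
  · intro z hz hne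
    have hl := lev_dc H hz
    exact no z (hC.dn x5a (by omega) (mem_dc.1 hz)) (Or.inl (by omega)) (Q.dcx5 z hz hne)
  · intro z hz
    rw [Q.ucx3, mem_insert, mem_singleton] at hz
    rcases hz with rfl | rfl
    · exact Or.inr eu2
    · exact Or.inl (by rw [Q.ucx4]; simp)
  · intro z hz
    by_cases hne : z = u4
    · subst hne
      exact Or.inl (by rw [Q.ucx4]; simp)
    · right
      have hl := lev_uc H hz
      exact no z (hC.up x5a (mem_uc.1 hz)) (Or.inr (by omega)) (Q.ucx5 z hz hne)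
  · intro z hz
    rw [Q.ucx4, mem_insert, mem_singleton] at hz
    rcases hz with rfl | rfl
    · exact ⟨Rt_of I.u3.1 (by rw [I.u3.2.2]; norm_num), Or.inl Q.dcu3⟩
    · exact ⟨Rt_of I.u4.1 (by rw [I.u4.2.2]; norm_num), Or.inr Q.dcu4⟩
  · intro d hd
    have hdE : d = E ∨ d = E' := by
      rw [Q.dcw3, Q.dcw4, union_self, mem_insert, mem_singleton] at hd
      exact hd
    have ld : lev d = i + 2 ∧ (d ∈ C → pos d = 9) ∧ uc d = {w3, w4} := by
      rcases hdE with rfl | rfl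
      · exact ⟨I.E.1, I.E.2, Q.ucE⟩
      · exact ⟨I.E'.1, I.E'.2, Q.ucE'⟩
    refine ⟨mem_Rt.2 ⟨Or.inr (by omega), fun h => ?_⟩, ?_, ?_, ?_⟩
    · have := ld.2.1 h.1
      omega
    · rw [ld.2.2]
      intro z hz
      rw [mem_insert, mem_singleton] at hz
      rcases hz with rfl | rfl
      · exact Rt_of I.w3.1 (by rw [I.w3.2.2]; norm_num)
      · exact Rt_of I.w4.1 (by rw [I.w4.2.2]; norm_num)
    · intro z hz
      have hl := lev_dc H hz
      exact Rt_deep (by omega) (fun h => by have := h.1; omega)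
    · exact uc_card_le H _
  · intro z hz z' hz' h1 h2
    exact right_one H hir c s5 hd2 z hz z' hz' (Snk_of_snkL h1) (Snk_of_snkL h2)

/-- the right block, upper side -/
theorem KR6.rb_upp (hd2 : (Sk i C e).card ≤ 2) (hE : ∑ z, e z ≤ 8) (eθ : 1 ≤ e v14)
    (e3 : 1 ≤ e u3) (e4 : 1 ≤ e u4) :
    RB (dc : P → Finset P) uc (fun z => (i : ℤ) - lev z) e (Rt i C pos 5) v14 u3 u4 (x 3) (x 4)
      (x 5) := by
  have I := Q.inf H hC
  obtain ⟨n2, n3, n4, n6, n8, n10, s5, s11⟩ := Q.mid H hir hC c hd2 hE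
  obtain ⟨x3a, x3b, x3c⟩ := I.xC 3 (by norm_num)
  obtain ⟨x4a, x4b, x4c⟩ := I.xC 4 (by norm_num)
  obtain ⟨x5a, x5b, x5c⟩ := I.xC 5 (by norm_num)
  norm_num at x3c x4c x5c
  have ne_of : ∀ {a a' : P}, pos a ≠ pos a' → a ≠ a' := fun h h' => h (by rw [h'])
  have z6 := Nn_zero.1 n6
  have ew2 : e w2 = 0 := z6 w2 I.w2.1 (ndL1 I.w2.2.1) I.w2.2.2
  have eu2 : e u2 = 0 := z6 u2 I.u2.1 (ndU1 I.u2.2.1) I.u2.2.2
  have no : ∀ z ∈ C, (lev z = i + 1 ∨ lev z + 1 = i) → pos z = 11 → e z = 0 := fun z hz lz pz =>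
    Q.no11 H hir hC c hd2 hE I.u3.1 I.u4.1 I.v14.1 (Or.inr I.u3.2.1) (Or.inr I.u4.2.1)
      (Or.inr I.v14.2.1) I.u3.2.2 I.u4.2.2 I.v14.2.2 e3 e4 eθ hz lz pz
  have lu3 := I.u3.2.1
  have lu4 := I.u4.2.1
  refine ⟨dual_upp, lv_upp H i, ?_, Q.dcv14, Q.dcu3, Q.dcu4, Q.ucx4, ?_, ?_, ?_, ?_, ?_, ?_, ?_, ?_,
    ?_, ?_, eθ, e3, e4, Q.sumR H hir hC c hd2 hE, ?_, ?_, ?_, ?_, ?_, ?_, ?_, ?_, ?_⟩
  · simp only [x4b]
    omega
  · exact ne_of (by rw [I.u3.2.2, I.u4.2.2]; norm_num)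
  · exact ne_of (by rw [x3c, x4c]; norm_num)
  · exact ne_of (by rw [x4c, x5c]; norm_num)
  · exact ne_of (by rw [x3c, x5c]; norm_num)
  · exact Rt_of I.v14.1 (by rw [I.v14.2.2]; norm_num)
  · exact Rt_of I.u3.1 (by rw [I.u3.2.2]; norm_num)
  · exact Rt_of I.u4.1 (by rw [I.u4.2.2]; norm_num)
  · exact Rt_of x3a (by omega)
  · exact Rt_of x4a (by omega)
  · exact Rt_of x5a (by omega)
  · intro v hv h
    refine c.both (v := v) ?_ ⟨h.2, h.1⟩
    rcases hv with rfl | rfl | rfl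
    · exact x3b
    · exact x4b
    · exact x5b
  · intro z hz
    refine c.admU ?_
    rcases hz with rfl | rfl
    · omega
    · omega
  · intro z hz hne
    rw [Q.ucx3, mem_insert, mem_singleton] at hz
    rcases hz with rfl | rfl
    · exact eu2
    · exact absurd rfl hne
  · intro z hz hne
    have hl := lev_uc H hz
    exact no z (hC.up x5a (mem_uc.1 hz)) (Or.inr (by omega)) (Q.ucx5 z hz hne)
  · intro z hz
    rw [Q.dcx3, mem_insert, mem_singleton] at hz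
    rcases hz with rfl | rfl
    · exact Or.inr ew2
    · exact Or.inl (by rw [Q.dcx4]; simp)
  · intro z hz
    by_cases hne : z = w4
    · subst hne
      exact Or.inl (by rw [Q.dcx4]; simp)
    · right
      have hl := lev_dc H hz
      exact no z (hC.dn x5a (by omega) (mem_dc.1 hz)) (Or.inl (by omega)) (Q.dcx5 z hz hne)
  · intro z hz
    rw [Q.dcx4, mem_insert, mem_singleton] at hz
    rcases hz with rfl | rfl
    · exact ⟨Rt_of I.w3.1 (by rw [I.w3.2.2]; norm_num), Or.inl Q.ucw3⟩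
    · exact ⟨Rt_of I.w4.1 (by rw [I.w4.2.2]; norm_num), Or.inr Q.ucw4⟩
  · intro d hd
    have hdd : d = v13 ∨ d = v14 ∨ (d ∈ uc u4 ∧ (pos d = 10 ∨ pos d = 11)) := by
      rcases mem_union.1 hd with h | h
      · rw [Q.ucu3, mem_insert, mem_singleton] at h
        tauto
      · by_cases hne : d = v14
        · exact Or.inr (Or.inl hne)
        · exact Or.inr (Or.inr ⟨h, Q.ucu4 d h hne⟩)
    have key : d ∈ C ∧ lev d + 2 = i ∧ 7 ≤ pos d := by
      rcases hdd with rfl | rfl | ⟨h1, h2⟩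
      · exact ⟨I.v13.1, I.v13.2.1, I.v13.2.2.ge⟩
      · exact ⟨I.v14.1, I.v14.2.1, by rw [I.v14.2.2]; norm_num⟩
      · have hl := lev_uc H h1
        exact ⟨hC.up I.u4.1 (mem_uc.1 h1), by omega, by omega⟩
    obtain ⟨k1, k2, k3⟩ := key
    refine ⟨Rt_of k1 (by omega), ?_, ?_, dc_card_le H _⟩
    · intro z hz
      have hl := lev_dc H hz
      have zC : z ∈ C := hC.dn k1 (by omega) (mem_dc.1 hz)
      have := Q.ps.adj z zC d k1 (mem_dc.1 hz) (by omega) (by omega)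
      exact Rt_of zC (by omega)
    · intro z hz
      have hl := lev_uc H hz
      exact Rt_deep (by omega) (fun h => by have := h.2; omega)
  · intro z hz z' hz' h1 h2
    exact right_one H hir c s5 hd2 z hz z' hz' (Snk_of_snkU h1) (Snk_of_snkU h2)

end six

end Pool.Agent.GaussPoset.Win.Kd
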