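import Pool.Agent.W_448kd_h10.KdJ

/-!
MP_448cb3_co, G2, case B, block (K): six sites, two sinks, energy at most eight: the list of cores.
helper10.
-/

namespace Pool.Agent.GaussPoset.Win.Kd

set_option linter.unusedSectionVars false

open Finset
open Pool.Agent.GaussPoset.Win.I2 (kd gu)

universe u

variable {P : Type u} [Fintype P] [PartialOrder P] [DecidableEq P] {r i b : ℕ}
variable {e : P → ℕ} {C K : Finset P} {psi : P → P} {x : ℕ → P} {pos : P → ℕ}

/-- the configuration of energy eight which is not exchanged -/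
def ff (y u x1 w3 w4 E E' : P) : P → ℕ := fun z =>
  if z = E' then 2 else if z = y ∨ z = u ∨ z = x1 ∨ z = w3 ∨ z = w4 ∨ z = E then 1 else 0

lemma ff_eq {y u x1 w3 w4 E E' : P} (hy : e y = 1) (hu : e u = 1) (hx : e x1 = 1) (h3 : e w3 = 1)
    (h4 : e w4 = 1) (hE : e E = 1) (hE' : e E' = 2)
    (out : ∀ z, e z ≠ 0 → z = y ∨ z = u ∨ z = x1 ∨ z = w3 ∨ z = w4 ∨ z = E ∨ z = E') :
    e = ff y u x1 w3 w4 E E' := by
  funext z
  unfold ff
  split_ifs with h1 h2
  · rw [h1, hE']
  · rcases h2 with rfl | rfl | rfl | rfl | rfl | rfl <;> assumption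
  · by_contra h
    have := out z h
    tauto

section six

variable {y u w2 w3 w4 u2 u3 u4 v12 v13 v14 E E' : P}
variable (H : Gr P r) (hir : i ≤ r) (hC : Part (i + 1) C)
  (Q : KR6 i C K psi x pos y u w2 w3 w4 u2 u3 u4 v12 v13 v14 E E') (c : Cfg i C K psi e)
include H hir hC Q c

/-- from the right block to the exchange, lower side -/
lemma KR6.to_low {θ : P} (hθ : θ = E ∨ θ = E')
    (B : RB (uc : P → Finset P) dc (fun z => (lev z : ℤ) - i) e (Rt i C pos 5) θ w3 w4 (x 3) (x 4)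
      (x 5)) (hL : Lab θ w3 w4 (x 4) e)
    (ho : ∀ z ∈ Rt i C pos 5, z ≠ θ → z ≠ w3 → z ≠ w4 → z ≠ x 4 → e z ≤ 1) (p0 : e (x 3) = 0)
    (q0 : e (x 5) = 0) (u0 : ∀ u ∈ uc (x 4), e u = 0) :
    XcL i θ w3 w4 (x 3) (x 4) (x 5) e := by
  have I := Q.inf H hC
  have lθ : lev θ = i + 2 ∧ uc θ = {w3, w4} := by
    rcases hθ with rfl | rfl
    · exact ⟨I.E.1, Q.ucE⟩
    · exact ⟨I.E'.1, Q.ucE'⟩
  have l3 := I.w3.2.1
  have l4 := I.w4.2.1
  have lx := (I.xC 4 (by norm_num)).2.1
  have ne_of : ∀ {a a' : P}, lev a ≠ lev a' → a ≠ a' := fun h h' => h (by rw [h'])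
  refine ⟨lθ.1, lθ.2, Q.ucw3, Q.ucw4, Q.dcx4, B.hy, B.ps, B.sq, hL, p0, q0, ?_, ?_, u0⟩
  · intro t ht
    have hl := lev_dc H ht
    exact ho t (Rt_deep (by omega) (fun h => by have := h.1; omega)) (ne_of (by omega))
      (ne_of (by omega)) (ne_of (by omega)) (ne_of (by omega))
  · intro d hd hne
    have ld : lev d = i + 2 := by
      rcases mem_union.1 hd with h | h
      · have := lev_dc H h
        omega
      · have := lev_dc H h
        omega
    exact ho d (B.dR d hd).1 hne (ne_of (by omega)) (ne_of (by omega)) (ne_of (by omega))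

/-- from the right block to the exchange, upper side -/
lemma KR6.to_upp
    (B : RB (dc : P → Finset P) uc (fun z => (i : ℤ) - lev z) e (Rt i C pos 5) v14 u3 u4 (x 3) (x 4)
      (x 5)) (hL : Lab v14 u3 u4 (x 4) e)
    (ho : ∀ z ∈ Rt i C pos 5, z ≠ v14 → z ≠ u3 → z ≠ u4 → z ≠ x 4 → e z ≤ 1) (p0 : e (x 3) = 0)
    (q0 : e (x 5) = 0) (u0 : ∀ u ∈ dc (x 4), e u = 0) :
    XcU i v14 u3 u4 (x 3) (x 4) (x 5) e := by
  have I := Q.inf H hC
  have lθ := I.v14.2.1
  have l3 := I.u3.2.1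
  have l4 := I.u4.2.1
  have lx := (I.xC 4 (by norm_num)).2.1
  have ne_of : ∀ {a a' : P}, lev a ≠ lev a' → a ≠ a' := fun h h' => h (by rw [h'])
  refine ⟨lθ, Q.dcv14, Q.dcu3, Q.dcu4, Q.ucx4, B.hy, B.ps, B.sq, hL, p0, q0, ?_, ?_, u0⟩
  · intro t ht
    have hl := lev_uc H ht
    exact ho t (Rt_deep (by omega) (fun h => by have := h.2; omega)) (ne_of (by omega))
      (ne_of (by omega)) (ne_of (by omega)) (ne_of (by omega))
  · intro d hd hne
    have ld : lev d + 2 = i := by
      rcases mem_union.1 hd with h | h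
      · have := lev_uc H h
        omega
      · have := lev_uc H h
        omega
    exact ho d (B.dR d hd).1 hne (ne_of (by omega)) (ne_of (by omega)) (ne_of (by omega))

/-- the exceptional configuration -/
theorem KR6.exc (hd2 : (Sk i C e).card ≤ 2) (hE : ∑ z, e z ≤ 8)
    (L2 : Lab2 uc (Rt i C pos 5) e E w3 w4 (x 4)) : e = ff y u (x 1) w3 w4 E E' := by
  have I := Q.inf H hC
  obtain ⟨h1, h2, h3, h4, h5, d, h6, h7, h8, h9, h10⟩ := L2
  have hd' : d = E' := by
    have : d ∈ dc w3 := mem_dc.2 (mem_uc.1 (by rw [h8]; simp))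
    rw [Q.dcw3, mem_insert, mem_singleton] at this
    exact this.resolve_left h7
  subst hd'
  obtain ⟨n2, n3, n4, n6, n8, n10, s5, s11⟩ := Q.mid H hir hC c hd2 hE
  have hdd : Cs i C pos e 11 ≤ 2 := Cs_le.trans hd2
  have ch := chain12 (num_of H hir Q.ps Q.gp c)
  have hn := num_of H hir Q.ps Q.gp c
  have t1 := two_blocks (i := i) (C := C) (pos := pos) (e := e) 5
  have t2 := left_ge (i := i) (C := C) (pos := pos) (e := e) 5
  rw [range6 (fun t => Nn i C pos e t + Ll i C pos e t)] at t2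
  have N0 : Nn i C pos e 0 = 0 := by omega
  have N1 : Nn i C pos e 1 = 0 := by omega
  have N2 : Nn i C pos e 2 = 1 := by omega
  have N3 : Nn i C pos e 3 = 1 := by omega
  have N4 : Nn i C pos e 4 = 1 := by omega
  have N5 : Nn i C pos e 5 = 0 := by omega
  have L1 : Ll i C pos e 1 = 0 := by omega
  have L2 : Ll i C pos e 2 = 0 := by omega
  have L3 : Ll i C pos e 3 = 0 := by omega
  have L4 : Ll i C pos e 4 = 0 := by omega
  have L5 : Ll i C pos e 5 = 0 := by omega
  -- the element at position four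
  obtain ⟨a, aC, la, pa, ea⟩ := near_even H hir Q.ps Q.gp c (a := 4) (by norm_num) n4
  have hau := Q.n4 a aC la pa
  subst hau
  -- the element at position two
  obtain ⟨η, ηC, lη, pη, eη⟩ := near_even H hir Q.ps Q.gp c (a := 2) (by norm_num) n2
  obtain ⟨x0a, x0b, x0c⟩ := I.xC 0 (by norm_num)
  obtain ⟨x1a, x1b, x1c⟩ := I.xC 1 (by norm_num)
  obtain ⟨x2a, x2b, x2c⟩ := I.xC 2 (by norm_num)
  norm_num at x0c x1c x2c
  have ex1 : 1 ≤ e (x 1) := by
    by_contra hx1
    have q1 : Cs i C pos e 3 + 1 ≤ Cs i C pos e 4 := by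
      rcases near_alt H Q.ps c (k := 1) (by norm_num) aC la pa ea L3 L4 L5 with h | h | h
      · norm_num at h
        exact h
      · exact absurd h hx1
      · have := site_N Q.ps (k := 2) (by norm_num) h
        norm_num at this
        omega
    have q2 : Cs i C pos e 1 + 1 ≤ Cs i C pos e 2 := by
      rcases near_alt H Q.ps c (k := 0) (by norm_num) ηC lη pη eη L1 L2 L3 with h | h | h
      · norm_num at h
        exact h
      · have := site_N Q.ps (k := 0) (by norm_num) h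
        norm_num at this
        omega
      · norm_num at h
        exact absurd h hx1
    omega
  -- uniqueness
  have uq2 : ∀ z ∈ C, ND i z → pos z = 2 → 1 ≤ e z → z = η := by
    intro z hz nz pz ez
    by_contra hne
    have := two_le hz ηC nz ⟨by omega, by omega⟩ pz pη ez eη hne
    omega
  have uq3 : ∀ z ∈ C, ND i z → pos z = 3 → 1 ≤ e z → z = x 1 := by
    intro z hz nz pz ez
    by_contra hne
    have := two_le hz x1a nz ⟨by omega, by omega⟩ pz x1c ez ex1 hne
    omega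
  have uq4 : ∀ z ∈ C, ND i z → pos z = 4 → 1 ≤ e z → z = a := by
    intro z hz nz pz ez
    by_contra hne
    have := two_le hz aC nz ⟨by omega, by omega⟩ pz pa ez ea hne
    omega
  have nofar : ∀ f, (lev f = i + 2 ∨ lev f + 2 = i) → 1 ≤ e f → pos f ≤ 3 → False := by
    intro f lf ef pf
    have fC := c.inC ef
    have nf : ND i f := ⟨by omega, by omega⟩
    have hp : pos f = 0 ∨ pos f = 1 ∨ pos f = 2 ∨ pos f = 3 := by omega
    rcases hp with hp | hp | hp | hp
    · have := Nn_zero.1 N0 f fC nf hp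
      omega
    · have := Nn_zero.1 N1 f fC nf hp
      omega
    · have := uq2 f fC nf hp ef
      subst this
      omega
    · have := uq3 f fC nf hp ef
      subst this
      omega
  have noT : ∀ z ∈ C, pos z = 2 → z ∉ Tch i e := by
    intro z hz pz hT
    rcases mem_Tch.1 hT with ⟨l1, f, hf, ef⟩ | ⟨l1, f, hf, ef⟩
    · have lf := lev_uc H (mem_uc.2 hf)
      have := Q.ps.adj f (c.inC ef) z hz hf (by omega) (by omega)
      exact nofar f (Or.inl (by omega)) ef (by omega)
    · have lf := lev_uc H (mem_uc.2 hf)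
      have := Q.ps.adj z hz f (c.inC ef) hf (by omega) (by omega)
      exact nofar f (Or.inr (by omega)) ef (by omega)
  have hηK : η ∈ K := by
    by_contra hk
    have := c.hc η (mem_Rst.2 ⟨mem_near.2 lη, hk, noT η ηC pη, fun h => by
      obtain ⟨k1, k2⟩ := Q.psin η ηC pη h.1 hk
      exact noT _ k1 k2 h.2⟩)
    omega
  have hηy : η = y := by
    rcases Q.hK η hηK ηC with h | h
    · exact h
    · rw [h] at pη
      omega
  subst hηy
  have v2 := Ll_zero.1 L2 η ηC ⟨by omega, by omega⟩ pη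
  have v3 := Ll_zero.1 L3 (x 1) x1a ⟨by omega, by omega⟩ x1c
  have v4 := Ll_zero.1 L4 a aC ⟨by omega, by omega⟩ pa
  refine ff_eq (by omega) (by omega) (by omega) h1 h2 h3 h9 ?_
  intro z hz
  have zC : z ∈ C := by
    by_contra h
    exact hz (c.hs z h)
  by_cases hR : z ∈ Rt i C pos 5
  · by_contra hcon
    push Not at hcon
    obtain ⟨g1, g2, g3, g4, g5, g6, g7⟩ := hcon
    exact hz (h10 z hR g6 g7 g4 g5)
  · have hL : ND i z ∧ pos z ≤ 5 := by
      by_contra h
      apply hR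
      exact mem_Rt.2 ⟨Or.inl zC, fun h' => h h'.2⟩
    obtain ⟨nz, pz⟩ := hL
    have hp : pos z = 0 ∨ pos z = 1 ∨ pos z = 2 ∨ pos z = 3 ∨ pos z = 4 ∨ pos z = 5 := by omega
    rcases hp with hp | hp | hp | hp | hp | hp
    · exact absurd (Nn_zero.1 N0 z zC nz hp) hz
    · exact absurd (Nn_zero.1 N1 z zC nz hp) hz
    · exact Or.inl (uq2 z zC nz hp (by omega))
    · exact Or.inr (Or.inr (Or.inl (uq3 z zC nz hp (by omega))))
    · exact Or.inr (Or.inl (uq4 z zC nz hp (by omega)))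
    · exact absurd (Nn_zero.1 N5 z zC nz hp) hz

/-- THE LIST OF CORES, six sites -/
theorem KR6.class (hd2 : (Sk i C e).card ≤ 2) (hE : ∑ z, e z ≤ 8) :
    XcU i v14 u3 u4 (x 3) (x 4) (x 5) e ∨ XcL i E w3 w4 (x 3) (x 4) (x 5) e ∨
      (XcL i E' w3 w4 (x 3) (x 4) (x 5) e ∧ e E = 0) ∨ e = ff y u (x 1) w3 w4 E E' := by
  have I := Q.inf H hC
  obtain ⟨n2, n3, n4, n6, n8, n10, s5, s11⟩ := Q.mid H hir hC c hd2 hE
  have z6 := Nn_zero.1 n6
  have eu2 : e u2 = 0 := z6 u2 I.u2.1 (ndU1 I.u2.2.1) I.u2.2.2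
  rcases Q.T8 H hir hC c n8 with ⟨h, h3, h4⟩ | ⟨h3, h⟩
  · by_cases hE1 : 1 ≤ e E
    · have B := Q.rb_low H hir hC c hd2 hE (Or.inl rfl) hE1 h3 h4
      obtain ⟨p0, q0, u0, ⟨hL, ho, -⟩ | hL⟩ := B.main
      · exact Or.inr (Or.inl (Q.to_low H hir hC c (Or.inl rfl) B hL ho p0 q0 u0))
      · exact Or.inr (Or.inr (Or.inr (Q.exc H hir hC c hd2 hE hL)))
    · have hE' : 1 ≤ e E' := by
        rcases h with h | h
        · exact absurd h hE1
        · exact h
      have B := Q.rb_low H hir hC c hd2 hE (Or.inr rfl) hE' h3 h4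
      obtain ⟨p0, q0, u0, ⟨hL, ho, -⟩ | hL⟩ := B.main
      · exact Or.inr (Or.inr (Or.inl ⟨Q.to_low H hir hC c (Or.inr rfl) B hL ho p0 q0 u0, by omega⟩))
      · exfalso
        obtain ⟨h1, h2, h3, h4, h5, d, h6, h7, h8, h9, h10⟩ := hL
        have : d ∈ dc w3 := mem_dc.2 (mem_uc.1 (by rw [h8]; simp))
        rw [Q.dcw3, mem_insert, mem_singleton] at this
        rcases this with rfl | rfl
        · omega
        · exact h7 rfl
  · left
    have h' : 1 ≤ e v14 ∧ 1 ≤ e u4 := by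
      rcases h with h | h
      · omega
      · exact h
    have B := Q.rb_upp H hir hC c hd2 hE h'.1 h3 h'.2
    obtain ⟨p0, q0, u0, ⟨hL, ho, -⟩ | hL⟩ := B.main
    · exact Q.to_upp H hir hC c B hL ho p0 q0 u0
    · exfalso
      obtain ⟨h1, h2, h3, h4, h5, d, h6, h7, h8, h9, h10⟩ := hL
      have : d ∈ uc u3 := mem_uc.2 (mem_dc.1 (by rw [h8]; simp))
      rw [Q.ucu3, mem_insert, mem_singleton] at this
      rcases this with rfl | rfl
      · have h11 : u2 ∈ dc d := by rw [Q.dcv13]; simp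
        rw [h8, mem_insert, mem_singleton] at h11
        have p2 := I.u2.2.2
        have p3 := I.u3.2.2
        have p4 := I.u4.2.2
        rcases h11 with h | h
        · rw [h] at p2
          omega
        · rw [h] at p2
          omega
      · exact h7 rfl

end six

end Pool.Agent.GaussPoset.Win.Kd
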