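import Pool.Agent.W_448kd_h10.KdK

/-!
MP_448cb3_co, G2, case B, block (K): six sites: the window sums.  helper10.
-/

namespace Pool.Agent.GaussPoset.Win.Kd

set_option linter.unusedSectionVars false

open Finset
open Pool.Agent.GaussPoset.Win.I2 (kd gu)
open Pool.Agent.GaussPoset.Win.H2 (NoT)
open Pool.Agent.GaussPoset.Win.Dk (DkCase no_deep)

universe u

variable {P : Type u} [Fintype P] [PartialOrder P] [DecidableEq P] {r i b : ℕ}
variable {e : P → ℕ} {C K : Finset P} {psi : P → P} {x : ℕ → P} {pos : P → ℕ}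

/-- the number of sites -/
lemma PosS.card (hP : PosS i b C x pos) : (st i C).card = b := by
  have h : st i C = (range b).image x := by
    ext v
    rw [mem_image]
    constructor
    · intro hv
      obtain ⟨k, hk, rfl⟩ := hP.stx v hv
      exact ⟨k, mem_range.2 hk, rfl⟩
    · rintro ⟨k, hk, rfl⟩
      exact hP.xst k (mem_range.1 hk)
  rw [h, card_image_of_injOn, card_range]
  intro a ha c hc hac
  have h1 := hP.px a (mem_range.1 (mem_coe.1 ha))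
  have h2 := hP.px c (mem_range.1 (mem_coe.1 hc))
  rw [hac] at h1
  omega

/-- a configuration which is not cheap -/
theorem cfg_of (H : Gr P r) (hir : i ≤ r) (hT : NoT P (i + 2)) (hg : ∀ m, m + 1 = i → Good P m)
    (hC : Part (i + 1) C) (hs : Spt C e) (hc : IsCore i K psi e) {k : ℕ} (h : ¬ Cheap k i e)
    (hD : ∀ s, s + k + 1 ≤ (st i C).card → DkCase (st i C).card s (∑ x, e x)) :
    Cfg i C K psi e ∧ (Sk i C e).card + k + 1 ≤ (st i C).card := by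
  obtain ⟨h1, h2, h3, h4⟩ := Sk_le H hir hC hs h
  have hC' : Part i C := ⟨fun a b => hC.up a b, fun a b d => hC.dn a (by omega) d⟩
  have h5 := card_Sk H hir hC hs h3
  obtain ⟨h6, h7⟩ := no_deep H hir hT hg hC' hs h1 h2 h3 (s := (Sk i C e).card) (by omega)
    (hD _ h4)
  exact ⟨⟨hs, h1, h2, h3, hc, h6, h7⟩, h4⟩

lemma core_univ : IsCore i (univ : Finset P) psi e := by
  intro z hz
  exact absurd (mem_univ z) (mem_Rst.1 hz).2.1

lemma ff_one {y u x1 w3 w4 E E' z : P} (h : z ≠ E')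
    (h' : z = y ∨ z = u ∨ z = x1 ∨ z = w3 ∨ z = w4 ∨ z = E) : ff y u x1 w3 w4 E E' z = 1 := by
  unfold ff
  rw [if_neg h, if_pos h']

lemma ff_two {y u x1 w3 w4 E E' : P} : ff y u x1 w3 w4 E E' E' = 2 := by
  unfold ff
  rw [if_pos rfl]

lemma ff_out {y u x1 w3 w4 E E' z : P} (h : ff y u x1 w3 w4 E E' z ≠ 0) :
    z = y ∨ z = u ∨ z = x1 ∨ z = w3 ∨ z = w4 ∨ z = E ∨ z = E' := by
  unfold ff at h
  split_ifs at h with h1 h2
  · tauto
  · tauto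
  · exact absurd rfl h

section six

variable {y u w2 w3 w4 u2 u3 u4 v12 v13 v14 E E' : P}
variable (H : Gr P r) (hC : Part (i + 1) C)
  (Q : KR6 i C K psi x pos y u w2 w3 w4 u2 u3 u4 v12 v13 v14 E E')
  (hEC : E ∈ C) (hEC' : E' ∈ C)
include H hC Q

/-- the near elements at the site `x 4` are double -/
lemma KR6.dbl {z : P} (hz : z ⋖ x 4 ∨ x 4 ⋖ z) : z ∈ dbL P i ∪ dbU P i ∧ z ∉ K := by
  have I := Q.inf H hC
  obtain ⟨x3a, x3b, x3c⟩ := I.xC 3 (by norm_num)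
  obtain ⟨x4a, x4b, x4c⟩ := I.xC 4 (by norm_num)
  obtain ⟨x5a, x5b, x5c⟩ := I.xC 5 (by norm_num)
  norm_num at x3c x4c x5c
  have ne_of : ∀ {a a' : P}, pos a ≠ pos a' → a ≠ a' := fun h h' => h (by rw [h'])
  have n34 : x 3 ≠ x 4 := ne_of (by omega)
  have n45 : x 4 ≠ x 5 := ne_of (by omega)
  have nK : ∀ z ∈ C, pos z ≠ 2 → pos z ≠ 4 → z ∉ K := by
    intro z hz h2 h4 hk
    rcases Q.hK z hk hz with rfl | rfl
    · exact h2 I.y.2.2
    · exact h4 I.u.2.2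
  rcases hz with hz | hz
  · have hz' : z ∈ dc (x 4) := mem_dc.2 hz
    rw [Q.dcx4, mem_insert, mem_singleton] at hz'
    rcases hz' with rfl | rfl
    · exact ⟨mem_union_left _ (mem_dbL.2 ⟨I.w3.2.1, by rw [Q.ucw3, card_pair n34]⟩),
        nK _ I.w3.1 (by rw [I.w3.2.2]; norm_num) (by rw [I.w3.2.2]; norm_num)⟩
    · exact ⟨mem_union_left _ (mem_dbL.2 ⟨I.w4.2.1, by rw [Q.ucw4, card_pair n45]⟩),
        nK _ I.w4.1 (by rw [I.w4.2.2]; norm_num) (by rw [I.w4.2.2]; norm_num)⟩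
  · have hz' : z ∈ uc (x 4) := mem_uc.2 hz
    rw [Q.ucx4, mem_insert, mem_singleton] at hz'
    rcases hz' with rfl | rfl
    · exact ⟨mem_union_right _ (mem_dbU.2 ⟨I.u3.2.1, by rw [Q.dcu3, card_pair n34]⟩),
        nK _ I.u3.1 (by rw [I.u3.2.2]; norm_num) (by rw [I.u3.2.2]; norm_num)⟩
    · exact ⟨mem_union_right _ (mem_dbU.2 ⟨I.u4.2.1, by rw [Q.dcu4, card_pair n45]⟩),
        nK _ I.u4.1 (by rw [I.u4.2.2]; norm_num) (by rw [I.u4.2.2]; norm_num)⟩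

include hEC hEC'

/-- the elements of the configuration of energy eight are different -/
lemma KR6.nes : (y ≠ E' ∧ u ≠ E' ∧ x 1 ≠ E' ∧ w3 ≠ E' ∧ w4 ≠ E') ∧ y ≠ u ∧ y ≠ x 1 ∧ y ≠ w3 ∧
    y ≠ w4 ∧ y ≠ E ∧ u ≠ x 1 ∧ u ≠ w3 ∧ u ≠ w4 ∧ u ≠ E ∧ x 1 ≠ w3 ∧ x 1 ≠ w4 ∧ x 1 ≠ E ∧
    w3 ≠ w4 ∧ w3 ≠ E ∧ w4 ≠ E := by
  have I := Q.inf H hC
  have p1 := (I.xC 1 (by norm_num)).2.2
  have py := I.y.2.2
  have pu := I.u.2.2
  have p3 := I.w3.2.2
  have p4 := I.w4.2.2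
  have pE := I.E.2 hEC
  have pE' := I.E'.2 hEC'
  norm_num at p1
  have ne_of : ∀ {a a' : P}, pos a ≠ pos a' → a ≠ a' := fun h h' => h (by rw [h'])
  refine ⟨⟨ne_of ?_, ne_of ?_, ne_of ?_, ne_of ?_, ne_of ?_⟩, ne_of ?_, ne_of ?_, ne_of ?_,
    ne_of ?_, ne_of ?_, ne_of ?_, ne_of ?_, ne_of ?_, ne_of ?_, ne_of ?_, ne_of ?_, ne_of ?_,
    ne_of ?_, ne_of ?_, ne_of ?_⟩ <;> omega

lemma KR6.ff_spt : Spt C (ff y u (x 1) w3 w4 E E') := by
  have I := Q.inf H hC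
  intro z hz
  by_contra h
  rcases ff_out h with rfl | rfl | rfl | rfl | rfl | rfl | rfl
  · exact hz I.y.1
  · exact hz I.u.1
  · exact hz (I.xC 1 (by norm_num)).1
  · exact hz I.w3.1
  · exact hz I.w4.1
  · exact hz hEC
  · exact hz hEC'

lemma KR6.ff_sum : ∑ z, ff y u (x 1) w3 w4 E E' z = 8 := by
  obtain ⟨⟨a1, a2, a3, a4, a5⟩, b1, b2, b3, b4, b5, b6, b7, b8, b9, b10, b11, b12, b13, b14, b15⟩ :=
    Q.nes H hC hEC hEC'
  have hEE := Q.EE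
  have h1 : ∀ z, ff y u (x 1) w3 w4 E E' z = (if z = E' then 2 else 0) +
      (if z ∈ ({y, u, x 1, w3, w4, E} : Finset P) then 1 else 0) := by
    intro z
    by_cases h : z = E'
    · rw [h, ff_two, if_pos rfl, if_neg]
      simp only [mem_insert, mem_singleton, not_or]
      exact ⟨a1.symm, a2.symm, a3.symm, a4.symm, a5.symm, hEE.symm⟩
    · rw [if_neg h]
      unfold ff
      rw [if_neg h, zero_add]
      simp only [mem_insert, mem_singleton]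
  rw [sum_congr rfl fun z _ => h1 z, sum_add_distrib, sum_ite_eq' univ E' (fun _ => 2),
    if_pos (mem_univ _)]
  have h2 : ∑ z : P, (if z ∈ ({y, u, x 1, w3, w4, E} : Finset P) then 1 else 0) =
      ({y, u, x 1, w3, w4, E} : Finset P).card := by
    rw [← sum_filter, card_eq_sum_ones]
    congr 1
    ext z
    simp
  rw [h2, card_insert_of_notMem (by simp [b1, b2, b3, b4, b5]),
    card_insert_of_notMem (by simp [b6, b7, b8, b9]),
    card_insert_of_notMem (by simp [b10, b11, b12]), card_insert_of_notMem (by simp [b13, b14]),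
    card_pair b15]

lemma KR6.ff_core : IsCore i K psi (ff y u (x 1) w3 w4 E E') := by
  have I := Q.inf H hC
  obtain ⟨⟨a1, a2, a3, a4, a5⟩, b1, b2, b3, b4, b5, b6, b7, b8, b9, b10, b11, b12, b13, b14, b15⟩ :=
    Q.nes H hC hEC hEC'
  intro z hz
  obtain ⟨h1, h2, h3, -⟩ := mem_Rst.1 hz
  have h1' := mem_near.1 h1
  by_contra h
  have hE1 : 0 < ff y u (x 1) w3 w4 E E' E := by
    rw [ff_one Q.EE (by tauto)]
    norm_num
  rcases ff_out h with rfl | rfl | rfl | rfl | rfl | rfl | rfl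
  · exact h2 Q.yu.1
  · exact h2 Q.yu.2.1
  · have := (I.xC 1 (by norm_num)).2.1
    omega
  · exact h3 (mem_Tch.2 (Or.inl ⟨I.w3.2.1, E, mem_uc.1 (by rw [Q.ucE]; simp), hE1⟩))
  · exact h3 (mem_Tch.2 (Or.inl ⟨I.w4.2.1, E, mem_uc.1 (by rw [Q.ucE]; simp), hE1⟩))
  · have := I.E.1
    omega
  · have := I.E'.1
    omega

lemma KR6.ff_vc : VC i y u (x 1) w3 w4 E E' (x 0) (x 2) (x 3) (x 4) (x 5)
    (ff y u (x 1) w3 w4 E E') := by
  have I := Q.inf H hC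
  obtain ⟨⟨a1, a2, a3, a4, a5⟩, b1, b2, b3, b4, b5, b6, b7, b8, b9, b10, b11, b12, b13, b14, b15⟩ :=
    Q.nes H hC hEC hEC'
  have hx : ∀ k m : ℕ, k < 6 → m < 6 → k ≠ m → x k ≠ x m := by
    intro k m hk hm hne h
    have h1 := Q.ps.px k hk
    have h2 := Q.ps.px m hm
    rw [h] at h1
    omega
  refine ⟨(I.xC 1 (by norm_num)).2.1, (I.xC 4 (by norm_num)).2.1, I.u.2.1, Q.ucy, Q.dcu, Q.ucw3,
    Q.ucw4, Q.ucE, Q.ucE', ?_, b13, ff_one a1 (by tauto), ff_one a2 (by tauto),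
    ff_one a3 (by tauto), ff_one a4 (by tauto), ff_one a5 (by tauto), ff_one Q.EE (by tauto),
    ff_two, fun z hz => ff_out hz⟩
  simp only [List.nodup_cons, List.mem_cons, List.not_mem_nil, or_false, not_or,
      not_false_eq_true, List.nodup_nil, and_true]
  refine ⟨⟨hx _ _ ?_ ?_ ?_, hx _ _ ?_ ?_ ?_, hx _ _ ?_ ?_ ?_, hx _ _ ?_ ?_ ?_, hx _ _ ?_ ?_ ?_⟩,
    ⟨hx _ _ ?_ ?_ ?_, hx _ _ ?_ ?_ ?_, hx _ _ ?_ ?_ ?_, hx _ _ ?_ ?_ ?_⟩,
    ⟨hx _ _ ?_ ?_ ?_, hx _ _ ?_ ?_ ?_, hx _ _ ?_ ?_ ?_⟩, ⟨hx _ _ ?_ ?_ ?_, hx _ _ ?_ ?_ ?_⟩,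
    hx _ _ ?_ ?_ ?_⟩ <;> norm_num

end six

/-- BLOCK (K), SIX SITES -/
theorem K6 {y u w2 w3 w4 u2 u3 u4 v12 v13 v14 E E' : P} (H : Gr P r) (hi : 1 ≤ i)
    (hi2 : i + 1 ≤ r) (hM : Mat P i K psi) (hT : NoT P (i + 2)) (hg : ∀ m, m + 1 = i → Good P m)
    (hC : Part (i + 1) C) (Q : KR6 i C K psi x pos y u w2 w3 w4 u2 u3 u4 v12 v13 v14 E E')
    (hEC : E ∈ C) (hEC' : E' ∈ C) :
    dd ^ 3 ∣ ZC i C 7 ∧ dd ^ 2 ∣ ZC i C 9 ∧ dd ^ 2 ∣ ZC i C 10 ∧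
      PowerSeries.coeff 2 (ZC i C 8) = 1 := by
  have hir : i ≤ r := by omega
  have I := Q.inf H hC
  have hb := Q.ps.card
  have hC' : Part i C := ⟨fun a b => hC.up a b, fun a b d => hC.dn a (by omega) d⟩
  have fs := Q.ff_spt H hC hEC hEC'
  refine sum6 H hi hi2 hM hC (x := x 4) (v := v14) (u := u3) (u2 := u4) (E := E) (E2 := E')
    (w := w3) (w2 := w4) (p := x 3) (q := x 5) (f := ff y u (x 1) w3 w4 E E') hb ?_
    (fun z hz => Q.dbl H hC hz) ?_ Q.EE I.E.1 (by rw [Q.dcw3]; simp) (by rw [Q.dcx4]; simp)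
    (Q.ff_core H hC hEC hEC') fs (Q.ff_sum H hC hEC hEC')
    (ff_one Q.EE (by tauto)) ff_two
    (ff_one (Q.nes H hC hEC hEC').1.2.2.2.1 (by tauto))
    ((Q.ff_vc H hC hEC hEC').value H hir hC' fs hb).2
  · intro e hs hE
    by_contra h
    obtain ⟨c, hk⟩ := cfg_of (K := univ) (psi := psi) H hir hT hg hC hs core_univ h
      (fun s hs' => Or.inr (Or.inl ⟨hb, by omega, hE⟩))
    have hn := num_of H hir Q.ps Q.gp c
    refine six_one hn (Cs_le.trans (by omega)) ?_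
    exact (energy_ge 6).trans hE
  · intro e hc hs hE h
    obtain ⟨c, hk⟩ := cfg_of H hir hT hg hC hs hc h
      (fun s hs' => Or.inl ⟨hb, by omega, hE⟩)
    exact Q.class H hir hC c (by omega) hE

end Pool.Agent.GaussPoset.Win.Kd
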