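import Pool.Agent.W_448kd_h10.KdL
import Pool.Agent.W_448kd_h10.KdH

/-!
MP_448cb3_co, G2, case B, block (K): five sites: the cores and the window sums.  helper10.
-/

namespace Pool.Agent.GaussPoset.Win.Kd

set_option linter.unusedSectionVars false

open Finset
open Pool.Agent.GaussPoset.Win.I2 (kd gu)
open Pool.Agent.GaussPoset.Win.H2 (NoT)
open Pool.Agent.GaussPoset.Win.Dk (DkCase no_deep)

universe u

variable {P : Type u} [Fintype P] [PartialOrder P] [DecidableEq P] {r i b : ℕ}
variable {e : P → ℕ} {C K : Finset P} {psi : P → P} {x : ℕ → P} {pos : P → ℕ}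

/-- a near element at an odd position is not double -/
lemma odd_single (H : Gr P r) (hC : Part (i + 1) C) (hP : PosS i b C x pos) {z : P} (hz : z ∈ C)
    (ho : pos z % 2 = 1) : z ∉ dbL P i ∪ dbU P i := by
  intro h
  rcases mem_union.1 h with h | h
  · obtain ⟨h1, h2⟩ := mem_dbL.1 h
    obtain ⟨v, w, hvw, huc⟩ := card_eq_two.1 h2
    have hv : z ⋖ v := mem_uc.1 (by rw [huc]; simp)
    have hw : z ⋖ w := mem_uc.1 (by rw [huc]; simp)
    have lv := lev_uc H (mem_uc.2 hv)
    have lw := lev_uc H (mem_uc.2 hw)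
    have vC := hC.up hz hv
    have wC := hC.up hz hw
    have av := hP.adj z hz v vC hv (by omega) (by omega)
    have aw := hP.adj z hz w wC hw (by omega) (by omega)
    obtain ⟨k, hk, rfl⟩ := hP.stx v (mem_st.2 ⟨vC, by omega⟩)
    obtain ⟨m, hm, rfl⟩ := hP.stx w (mem_st.2 ⟨wC, by omega⟩)
    have pk := hP.px k hk
    have pm := hP.px m hm
    have : k = m := by omega
    exact hvw (by rw [this])
  · obtain ⟨h1, h2⟩ := mem_dbU.1 h
    obtain ⟨v, w, hvw, huc⟩ := card_eq_two.1 h2
    have hv : v ⋖ z := mem_dc.1 (by rw [huc]; simp)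
    have hw : w ⋖ z := mem_dc.1 (by rw [huc]; simp)
    have lv := lev_uc H (mem_uc.2 hv)
    have lw := lev_uc H (mem_uc.2 hw)
    have vC : v ∈ C := hC.dn hz (by omega) hv
    have wC : w ∈ C := hC.dn hz (by omega) hw
    have av := hP.adj v vC z hz hv (by omega) (by omega)
    have aw := hP.adj w wC z hz hw (by omega) (by omega)
    obtain ⟨k, hk, rfl⟩ := hP.stx v (mem_st.2 ⟨vC, by omega⟩)
    obtain ⟨m, hm, rfl⟩ := hP.stx w (mem_st.2 ⟨wC, by omega⟩)
    have pk := hP.px k hk
    have pm := hP.px m hm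
    have : k = m := by omega
    exact hvw (by rw [this])

section five

variable {y u w2 w3 p4 u2 u3 v12 v13 E E' : P}
variable (H : Gr P r) (hir : i ≤ r) (hC : Part (i + 1) C)
  (Q : KR5 i C K psi x pos y u w2 w3 p4 u2 u3 v12 v13 E E') (c : Cfg i C K psi e)
include H hir hC Q c

/-- no excited single element at the site `x 2` -/
lemma KR5.no5 (hp4 : pos p4 = 9) (hd2 : (Sk i C e).card ≤ 2) (hE : ∑ z, e z ≤ 6) {z : P}
    (hz : z ∈ C) (lz : lev z = i + 1 ∨ lev z + 1 = i) (pz : pos z = 5) : e z = 0 := by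
  by_contra h0
  have I := Q.inf H hC
  obtain ⟨n2, n4, s3, e2, e3, e13, ep4, es4⟩ := Q.mid H hir hC c hp4 hd2 hE
  have hn := num_of H hir Q.ps Q.gp c
  have hdd : Cs i C pos e 9 ≤ 2 := Cs_le.trans hd2
  have ch := chain10 hn
  have hE' := (energy_ge (i := i) (C := C) (pos := pos) (e := e) 5).trans hE
  rw [sum10 (fun t => Nn i C pos e t + Ll i C pos e t)] at hE'
  have ndz : ND i z := ⟨by omega, by omega⟩
  have hzK : z ∉ K := Q.notK H hir hC hz (by omega) (by omega)
  have hzd := odd_single H hC Q.ps hz (by omega)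
  have N7 : 1 ≤ Nn i C pos e 7 := one_le I.v13.1 (ndU2 I.v13.2.1) I.v13.2.2 e13
  have N6 : 1 ≤ Nn i C pos e 6 := one_le I.u2.1 (ndU1 I.u2.2.1) I.u2.2.2 e2
  have N8 : 1 ≤ Nn i C pos e 8 := one_le I.u3.1 (ndU1 I.u3.2.1) I.u3.2.2 e3
  have N5 : 1 ≤ Nn i C pos e 5 := one_le hz ndz pz (by omega)
  -- a far element
  obtain ⟨f, fC, lf, pf, ef⟩ : ∃ f ∈ C, (lev f = i + 2 ∨ lev f + 2 = i) ∧
      (pos f = 4 ∨ pos f = 5 ∨ pos f = 6) ∧ 1 ≤ e f := by
    rcases mem_Tch.1 (core_single c lz hzK hzd (by omega)) with ⟨l1, f, hf, ef⟩ | ⟨l1, f, hf, ef⟩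
    · have lf := lev_uc H (mem_uc.2 hf)
      have := Q.ps.adj f (c.inC ef) z hz hf (by omega) (by omega)
      exact ⟨f, c.inC ef, Or.inl (by omega), by omega, ef⟩
    · have lf := lev_uc H (mem_uc.2 hf)
      have := Q.ps.adj z hz f (c.inC ef) hf (by omega) (by omega)
      exact ⟨f, c.inC ef, Or.inr (by omega), by omega, ef⟩
  have ndf : ND i f := ⟨by omega, by omega⟩
  rcases pf with pf | pf | pf
  · have := Nn_zero.1 n4 f fC ndf pf
    omega
  · -- the far element is at the same place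
    have k5 : 2 ≤ Nn i C pos e 5 := two_le hz fC ndz ndf pz pf (by omega) ef
      (by rintro rfl; omega)
    obtain ⟨η, ηC, lη, pη, eη⟩ := near_even H hir Q.ps Q.gp c (a := 2) (by norm_num) n2
    have L1 : Ll i C pos e 1 = 0 := by omega
    have L2 : Ll i C pos e 2 = 0 := by omega
    have L3 : Ll i C pos e 3 = 0 := by omega
    have L5 : Ll i C pos e 5 = 0 := by omega
    have L6 : Ll i C pos e 6 = 0 := by omega
    have L7 : Ll i C pos e 7 = 0 := by omega
    have L8 : Ll i C pos e 8 = 0 := by omega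
    have L9 : Ll i C pos e 9 = 0 := by omega
    have q1 : Cs i C pos e 1 + 1 ≤ Cs i C pos e 2 := by
      rcases near_alt H Q.ps c (k := 0) (by norm_num) ηC lη pη eη L1 L2 L3 with h | h | h
      · norm_num at h
        exact h
      · have := site_N Q.ps (k := 0) (by norm_num) h
        norm_num at this
        omega
      · norm_num at h
        have := site_N Q.ps (k := 1) (by norm_num) h
        norm_num at this
        omega
    have q2 : Cs i C pos e 5 + 1 ≤ Cs i C pos e 6 := by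
      rcases near_alt H Q.ps c (k := 2) (by norm_num) I.u2.1 (Or.inr I.u2.2.1) I.u2.2.2 e2 L5 L6 L7
        with h | h | h
      · norm_num at h
        exact h
      · obtain ⟨a1, a2, a3⟩ := I.xC 2 (by norm_num)
        have := three_le a1 hz fC ⟨by omega, by omega⟩ ndz ndf a3 pz pf h (by omega) ef
          (by rintro rfl; omega) (by rintro rfl; omega) (by rintro rfl; omega)
        norm_num at this
        omega
      · norm_num at h
        have := site_two Q.ps (k := 3) (by norm_num) h I.v13.1 (Or.inr (Or.inr (Or.inr I.v13.2.1)))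
          I.v13.2.2 e13
        norm_num at this
        omega
    have q3 : Cs i C pos e 7 + 1 ≤ Cs i C pos e 8 := by
      rcases near_alt H Q.ps c (k := 3) (by norm_num) I.u3.1 (Or.inr I.u3.2.1) I.u3.2.2 e3 L7 L8 L9
        with h | h | h
      · norm_num at h
        exact h
      · have := site_two Q.ps (k := 3) (by norm_num) h I.v13.1 (Or.inr (Or.inr (Or.inr I.v13.2.1)))
          I.v13.2.2 e13
        norm_num at this
        omega
      · have := site_N Q.ps (k := 4) (by norm_num) h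
        norm_num at this
        omega
    omega
  · -- the far element is at an even position
    rcases lf with lf | lf
    · obtain ⟨a, ha, pa⟩ := Q.gp.gL f fC lf (by omega)
      have la := lev_uc H (mem_uc.2 ha)
      have ea := posL H c.hA (by omega) ef ha
      have aC := c.inC ea
      have haw : a = w2 := by
        rcases Q.n6 a aC (Or.inl (by omega)) (by omega) with h | h
        · exact h
        · have := I.u2.2.1
          rw [h] at la
          omega
      subst haw
      have := three_le aC I.u2.1 fC (ndL1 I.w2.2.1) (ndU1 I.u2.2.1) ndf I.w2.2.2 I.u2.2.2 pf ea e2 ef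
        (by
          intro h
          have h1 := I.w2.2.1
          have h2 := I.u2.2.1
          rw [h] at h1
          omega) (by rintro rfl; omega) (by
          intro h
          have h2 := I.u2.2.1
          rw [h] at h2
          omega)
      omega
    · obtain ⟨a, ha, pa⟩ := Q.gp.gU f fC lf (by omega)
      have la := lev_uc H (mem_uc.2 ha)
      have ea := posU H hir c.hB (by omega) ef ha
      have aC := c.inC ea
      have hau : a = u2 := by
        rcases Q.n6 a aC (Or.inr (by omega)) (by omega) with h | h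
        · have := I.w2.2.1
          rw [h] at la
          omega
        · exact h
      subst hau
      have : f ∈ uc a := mem_uc.2 ha
      rw [Q.ucu2, mem_insert, mem_singleton] at this
      rcases this with rfl | rfl
      · have := I.v12.2.2
        omega
      · have := I.v13.2.2
        omega

/-- the right block, five sites -/
theorem KR5.rb (hp4 : pos p4 = 9) (hd2 : (Sk i C e).card ≤ 2) (hE : ∑ z, e z ≤ 6) :
    RB (dc : P → Finset P) uc (fun z => (i : ℤ) - lev z) e (Rt i C pos 3) v13 u2 u3 (x 2) (x 3)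
      (x 4) := by
  have I := Q.inf H hC
  obtain ⟨n2, n4, s3, e2, e3, e13, ep4, es4⟩ := Q.mid H hir hC c hp4 hd2 hE
  obtain ⟨x2a, x2b, x2c⟩ := I.xC 2 (by norm_num)
  obtain ⟨x3a, x3b, x3c⟩ := I.xC 3 (by norm_num)
  obtain ⟨x4a, x4b, x4c⟩ := I.xC 4 (by norm_num)
  norm_num at x2c x3c x4c
  have ne_of : ∀ {a a' : P}, pos a ≠ pos a' → a ≠ a' := fun h h' => h (by rw [h'])
  have lu2 := I.u2.2.1
  have lu3 := I.u3.2.1
  have eu : e u = 0 := Nn_zero.1 n4 u I.u.1 (ndU1 I.u.2.1) I.u.2.2
  have sum : ∑ z ∈ Rt i C pos 3, e z ≤ 5 := by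
    have h1 := two_blocks (i := i) (C := C) (pos := pos) (e := e) 3
    have h2 := left_ge (i := i) (C := C) (pos := pos) (e := e) 3
    rw [range4 (fun t => Nn i C pos e t + Ll i C pos e t)] at h2
    omega
  have uu2 : u ≠ u2 := ne_of (by rw [I.u.2.2, I.u2.2.2]; norm_num)
  have ucx2 : uc (x 2) = {u, u2} := by
    symm
    refine eq_of_subset_of_card_le ?_ ?_
    · intro z hz
      rw [mem_insert, mem_singleton] at hz
      rcases hz with rfl | rfl
      · exact mem_uc.2 (mem_dc.1 (by rw [Q.dcu]; simp))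
      · exact mem_uc.2 (mem_dc.1 (by rw [Q.dcu2]; simp))
    · rw [card_pair uu2]
      exact uc_card_le H _
  refine ⟨dual_upp, lv_upp H i, ?_, Q.dcv13, Q.dcu2, Q.dcu3, Q.ucx3, ?_, ?_, ?_, ?_, ?_, ?_, ?_, ?_,
    ?_, ?_, e13, e2, e3, sum, ?_, ?_, ?_, ?_, ?_, ?_, ?_, ?_, ?_⟩
  · simp only [x3b]
    omega
  · exact ne_of (by rw [I.u2.2.2, I.u3.2.2]; norm_num)
  · exact ne_of (by rw [x2c, x3c]; norm_num)
  · exact ne_of (by rw [x3c, x4c]; norm_num)
  · exact ne_of (by rw [x2c, x4c]; norm_num)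
  · exact Rt_of I.v13.1 (by rw [I.v13.2.2]; norm_num)
  · exact Rt_of I.u2.1 (by rw [I.u2.2.2]; norm_num)
  · exact Rt_of I.u3.1 (by rw [I.u3.2.2]; norm_num)
  · exact Rt_of x2a (by omega)
  · exact Rt_of x3a (by omega)
  · exact Rt_of x4a (by omega)
  · intro v hv h
    refine c.both (v := v) ?_ ⟨h.2, h.1⟩
    rcases hv with rfl | rfl | rfl
    · exact x2b
    · exact x3b
    · exact x4b
  · intro z hz
    refine c.admU ?_
    rcases hz with rfl | rfl
    · omega
    · omega
  · intro z hz hne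
    rw [ucx2, mem_insert, mem_singleton] at hz
    rcases hz with rfl | rfl
    · exact eu
    · exact absurd rfl hne
  · exact es4
  · intro z hz
    have hl := lev_dc H hz
    have zC : z ∈ C := hC.dn x2a (by omega) (mem_dc.1 hz)
    have := Q.ps.adj z zC (x 2) x2a (mem_dc.1 hz) (by omega) (by omega)
    have hp : pos z = 4 ∨ pos z = 5 ∨ pos z = 6 := by omega
    rcases hp with hp | hp | hp
    · have h1 := Q.n4 z zC (Or.inl (by omega)) hp
      have h2 := I.u.2.1
      rw [← h1] at h2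
      omega
    · exact Or.inr (Q.no5 H hir hC c hp4 hd2 hE zC (Or.inl (by omega)) hp)
    · left
      rcases Q.n6 z zC (Or.inl (by omega)) hp with h | h
      · rw [h, Q.dcx3]
        simp
      · have h2 := I.u2.2.1
        rw [← h] at h2
        omega
  · intro z hz
    rw [Q.dcx4, mem_insert, mem_singleton] at hz
    rcases hz with rfl | rfl
    · exact Or.inl (by rw [Q.dcx3]; simp)
    · exact Or.inr ep4
  · intro z hz
    rw [Q.dcx3, mem_insert, mem_singleton] at hz
    rcases hz with rfl | rfl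
    · exact ⟨Rt_of I.w2.1 (by rw [I.w2.2.2]; norm_num), Or.inl Q.ucw2⟩
    · exact ⟨Rt_of I.w3.1 (by rw [I.w3.2.2]; norm_num), Or.inr Q.ucw3⟩
  · intro d hd
    have hdd : d = v12 ∨ d = v13 ∨ (d ∈ uc u3 ∧ pos d = 9) := by
      rcases mem_union.1 hd with h | h
      · rw [Q.ucu2, mem_insert, mem_singleton] at h
        tauto
      · by_cases hne : d = v13
        · exact Or.inr (Or.inl hne)
        · exact Or.inr (Or.inr ⟨h, (Q.ucu3 d h hne).1⟩)
    have key : d ∈ C ∧ lev d + 2 = i ∧ 5 ≤ pos d ∧ dc d ⊆ Rt i C pos 3 := by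
      rcases hdd with rfl | rfl | ⟨h1, h2⟩
      · refine ⟨I.v12.1, I.v12.2.1, I.v12.2.2.ge, ?_⟩
        rw [Q.dcv12]
        intro z hz
        rw [mem_insert, mem_singleton] at hz
        rcases hz with rfl | rfl
        · exact Rt_of I.u.1 (by rw [I.u.2.2]; norm_num)
        · exact Rt_of I.u2.1 (by rw [I.u2.2.2]; norm_num)
      · refine ⟨I.v13.1, I.v13.2.1, by rw [I.v13.2.2]; norm_num, ?_⟩
        rw [Q.dcv13]
        intro z hz
        rw [mem_insert, mem_singleton] at hz
        rcases hz with rfl | rfl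
        · exact Rt_of I.u2.1 (by rw [I.u2.2.2]; norm_num)
        · exact Rt_of I.u3.1 (by rw [I.u3.2.2]; norm_num)
      · have hl := lev_uc H h1
        have dC : d ∈ C := hC.up I.u3.1 (mem_uc.1 h1)
        refine ⟨dC, by omega, by omega, ?_⟩
        intro z hz
        have hlz := lev_dc H hz
        have zC : z ∈ C := hC.dn dC (by omega) (mem_dc.1 hz)
        have := Q.ps.adj z zC d dC (mem_dc.1 hz) (by omega) (by omega)
        exact Rt_of zC (by omega)
    obtain ⟨k1, k2, k3, k4⟩ := key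
    refine ⟨Rt_of k1 (by omega), k4, ?_, dc_card_le H _⟩
    intro z hz
    have hl := lev_uc H hz
    exact Rt_deep (by omega) (fun h => by have := h.2; omega)
  · intro z hz z' hz' h1 h2
    exact right_one H hir c s3 hd2 z hz z' hz' (Snk_of_snkU h1) (Snk_of_snkU h2)

/-- THE LIST OF CORES, five sites -/
theorem KR5.class (hp4 : pos p4 = 9) (hd2 : (Sk i C e).card ≤ 2) (hE : ∑ z, e z ≤ 6) :
    XcU i v13 u2 u3 (x 2) (x 3) (x 4) e := by
  have I := Q.inf H hC
  have B := Q.rb H hir hC c hp4 hd2 hE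
  have lθ := I.v13.2.1
  have l3 := I.u2.2.1
  have l4 := I.u3.2.1
  have lx := (I.xC 3 (by norm_num)).2.1
  have ne_of : ∀ {a a' : P}, lev a ≠ lev a' → a ≠ a' := fun h h' => h (by rw [h'])
  obtain ⟨p0, q0, u0, ⟨hL, ho, -⟩ | hL⟩ := B.main
  · refine ⟨lθ, Q.dcv13, Q.dcu2, Q.dcu3, Q.ucx3, B.hy, B.ps, B.sq, hL, p0, q0, ?_, ?_, u0⟩
    · intro t ht
      have hl := lev_uc H ht
      exact ho t (Rt_deep (by omega) (fun h => by have := h.2; omega)) (ne_of (by omega))
        (ne_of (by omega)) (ne_of (by omega)) (ne_of (by omega))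
    · intro d hd hne
      have ld : lev d + 2 = i := by
        rcases mem_union.1 hd with h | h
        · have := lev_uc H h
          omega
        · have := lev_uc H h
          omega
      exact ho d (B.dR d hd).1 hne (ne_of (by omega)) (ne_of (by omega)) (ne_of (by omega))
  · exfalso
    obtain ⟨h1, h2, h3, h4, h5, d, h6, h7, h8, h9, h10⟩ := hL
    have hdu : d ∈ uc u3 := mem_uc.2 (mem_dc.1 (by rw [h8]; simp))
    obtain ⟨-, s, k1, k2, k3⟩ := Q.ucu3 d hdu h7
    rw [h8, mem_insert, mem_singleton] at k1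
    rcases k1 with rfl | rfl
    · have := I.u2.2.2
      omega
    · have := I.u3.2.2
      omega

end five

/-- BLOCK (K), FIVE SITES -/
theorem K5 {y u w2 w3 p4 u2 u3 v12 v13 E E' : P} (H : Gr P r) (hi : 1 ≤ i)
    (hi2 : i + 1 ≤ r) (hM : Mat P i K psi) (hT : NoT P (i + 2)) (hg : ∀ m, m + 1 = i → Good P m)
    (hC : Part (i + 1) C) (Q : KR5 i C K psi x pos y u w2 w3 p4 u2 u3 v12 v13 E E')
    (hp4 : pos p4 = 9) : dd ^ 3 ∣ ZC i C 6 ∧ dd ^ 2 ∣ ZC i C 7 := by
  have hir : i ≤ r := by omega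
  have I := Q.inf H hC
  have hb := Q.ps.card
  obtain ⟨x2a, x2b, x2c⟩ := I.xC 2 (by norm_num)
  obtain ⟨x3a, x3b, x3c⟩ := I.xC 3 (by norm_num)
  obtain ⟨x4a, x4b, x4c⟩ := I.xC 4 (by norm_num)
  norm_num at x2c x3c x4c
  have ne_of : ∀ {a a' : P}, pos a ≠ pos a' → a ≠ a' := fun h h' => h (by rw [h'])
  have n23 : x 2 ≠ x 3 := ne_of (by omega)
  have n34 : x 3 ≠ x 4 := ne_of (by omega)
  have nK : ∀ z ∈ C, pos z ≠ 2 → pos z ≠ 4 → z ∉ K := fun z hz h2 h4 =>
    Q.notK H hir hC hz h2 h4
  refine sum5 H hi hi2 hM hC (x := x 3) (d := v13) (w := u2) (w2 := u3) (p := x 2) (q := x 4) hb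
    ?_ ?_ ?_
  · intro e hs hE
    by_contra h
    obtain ⟨c, hk⟩ := cfg_of (K := univ) (psi := psi) H hir hT hg hC hs core_univ h
      (fun s hs' => Or.inr (Or.inr (Or.inr ⟨hb, by omega, hE⟩)))
    have hn := num_of H hir Q.ps Q.gp c
    refine five_one hn (Cs_le.trans (by omega)) ?_
    exact ((energy_ge 5).trans hE).trans (by norm_num)
  · intro z hz
    rcases hz with hz | hz
    · have hz' : z ∈ dc (x 3) := mem_dc.2 hz
      rw [Q.dcx3, mem_insert, mem_singleton] at hz'
      rcases hz' with rfl | rfl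
      · exact ⟨mem_union_left _ (mem_dbL.2 ⟨I.w2.2.1, by rw [Q.ucw2, card_pair n23]⟩),
          nK _ I.w2.1 (by rw [I.w2.2.2]; norm_num) (by rw [I.w2.2.2]; norm_num)⟩
      · exact ⟨mem_union_left _ (mem_dbL.2 ⟨I.w3.2.1, by rw [Q.ucw3, card_pair n34]⟩),
          nK _ I.w3.1 (by rw [I.w3.2.2]; norm_num) (by rw [I.w3.2.2]; norm_num)⟩
    · have hz' : z ∈ uc (x 3) := mem_uc.2 hz
      rw [Q.ucx3, mem_insert, mem_singleton] at hz'
      rcases hz' with rfl | rfl
      · exact ⟨mem_union_right _ (mem_dbU.2 ⟨I.u2.2.1, by rw [Q.dcu2, card_pair n23]⟩),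
          nK _ I.u2.1 (by rw [I.u2.2.2]; norm_num) (by rw [I.u2.2.2]; norm_num)⟩
      · exact ⟨mem_union_right _ (mem_dbU.2 ⟨I.u3.2.1, by rw [Q.dcu3, card_pair n34]⟩),
          nK _ I.u3.1 (by rw [I.u3.2.2]; norm_num) (by rw [I.u3.2.2]; norm_num)⟩
  · intro e hc hs hE h
    obtain ⟨c, hk⟩ := cfg_of H hir hT hg hC hs hc h
      (fun s hs' => Or.inr (Or.inr (Or.inl ⟨hb, by omega, hE⟩)))
    exact Q.class H hir hC c hp4 (by omega) hE

end Pool.Agent.GaussPoset.Win.Kd
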