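import Pool.Agent.W_448kd_h10.KdD
import Pool.Agent.W_448kf_h15.KfD

/-!
MP_448cb3_co, G2, case B, block (K): the positions of the elements of a row.  helper10.
-/

namespace Pool.Agent.GaussPoset.Win.Kd

set_option linter.unusedSectionVars false

open Finset
open Pool.Agent.GaussPoset.Win.W4 (PRow ed)

universe u

variable {P : Type u} [Fintype P] [PartialOrder P] [DecidableEq P] {r i b : ℕ}
variable {e : P → ℕ} {C K : Finset P} {psi : P → P} {x : ℕ → P} {m : ℕ}

/-- position of a site -/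
def ps1 (m : ℕ) (x : ℕ → P) (s : P) : ℕ := ∑ k ∈ range (m + 1), if x k = s then 2 * k + 1 else 0

/-- average -/
def av (p : P → ℕ) (S : Finset P) : ℕ := (∑ s ∈ S, p s) / S.card

/-- average, rounded up -/
def avc (p : P → ℕ) (S : Finset P) : ℕ := (∑ s ∈ S, p s + (S.card - 1)) / S.card

/-- THE POSITIONS -/
noncomputable def posf (i m : ℕ) (x : ℕ → P) (z : P) : ℕ :=
  if lev z = i then ps1 m x z
  else if lev z = i + 1 then av (ps1 m x) (uc z)
  else if lev z + 1 = i then av (ps1 m x) (dc z)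
  else if lev z = i + 2 then avc (fun y => av (ps1 m x) (uc y)) (uc z)
  else avc (fun y => av (ps1 m x) (dc y)) (dc z)

lemma av_one {p : P → ℕ} {a : P} : av p {a} = p a := by
  unfold av
  rw [sum_singleton, card_singleton, Nat.div_one]

lemma av_two {p : P → ℕ} {a c : P} (h : a ≠ c) : av p {a, c} = (p a + p c) / 2 := by
  unfold av
  rw [sum_pair h, card_pair h]

lemma avc_one {p : P → ℕ} {a : P} : avc p {a} = p a := by
  unfold avc
  rw [sum_singleton, card_singleton, Nat.div_one]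
  omega

lemma avc_two {p : P → ℕ} {a c : P} (h : a ≠ c) : avc p {a, c} = (p a + p c + 1) / 2 := by
  unfold avc
  rw [sum_pair h, card_pair h]

/-- a row whose far elements have neighbouring covers -/
structure RowP (r i : ℕ) (C : Finset P) (m : ℕ) (x : ℕ → P) : Prop where
  W : PRow r i C m x
  hd : ∀ k l, k < l → l ≤ m → l ≠ k + 1 → dcv (x k) (x l) = 0
  shL : ∀ z ∈ C, lev z = i + 2 → ∀ y ∈ uc z, ∀ y' ∈ uc z, y ≠ y' → ∃ s, s ∈ uc y ∧ s ∈ uc y'
  shU : ∀ z ∈ C, lev z + 2 = i → ∀ y ∈ dc z, ∀ y' ∈ dc z, y ≠ y' → ∃ s, s ∈ dc y ∧ s ∈ dc y'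

namespace RowP

variable (R : RowP r i C m x)
include R

lemma ps1_x {k : ℕ} (hk : k ≤ m) : ps1 m x (x k) = 2 * k + 1 := by
  unfold ps1
  rw [sum_eq_single k]
  · rw [if_pos rfl]
  · intro l hl hne
    rw [if_neg]
    intro h
    exact hne (R.W.inj l k (by have := mem_range.1 hl; omega) hk h)
  · intro h
    exact absurd (mem_range.2 (by omega)) h

lemma pos_site {k : ℕ} (hk : k ≤ m) : posf i m x (x k) = 2 * k + 1 := by
  unfold posf
  rw [if_pos (R.W.lev_x k hk), R.ps1_x hk]

lemma av_ed {k : ℕ} (hk : k < m) : av (ps1 m x) (ed x k) = 2 * k + 2 := by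
  unfold ed
  rw [av_two (R.W.ne (by omega) (by omega) (by omega)), R.ps1_x (by omega), R.ps1_x (by omega)]
  omega

lemma pos_low {z : P} (hz : lev z = i + 1) : posf i m x z = av (ps1 m x) (uc z) := by
  unfold posf
  rw [if_neg (by omega), if_pos hz]

lemma pos_upp {z : P} (hz : lev z + 1 = i) : posf i m x z = av (ps1 m x) (dc z) := by
  unfold posf
  rw [if_neg (by omega), if_neg (by omega), if_pos hz]

/-- types of the lower near elements -/
lemma tyL {z : P} (hz : z ∈ C) (lz : lev z = i + 1) :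
    (∃ k, k < m ∧ uc z = ed x k ∧ posf i m x z = 2 * k + 2) ∨
      ∃ k, k ≤ m ∧ uc z = {x k} ∧ posf i m x z = 2 * k + 1 := by
  rw [R.pos_low lz]
  rcases uc_card_cases R.W.H (x := z) (by omega) with h | h
  · right
    obtain ⟨s, hs⟩ := card_eq_one.1 h
    have hs' : s ∈ uc z := by rw [hs]; simp
    have ls := lev_uc R.W.H hs'
    obtain ⟨k, hk, rfl⟩ := R.W.surj s (R.W.hC.up hz (mem_uc.1 hs')) (by omega)
    exact ⟨k, hk, hs, by rw [hs, av_one, R.ps1_x hk]⟩
  · left
    obtain ⟨k, hk, hu⟩ := R.W.lo_ed R.hd hz lz h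
    exact ⟨k, hk, hu, by rw [hu, R.av_ed hk]⟩

/-- types of the upper near elements -/
lemma tyU {z : P} (hz : z ∈ C) (lz : lev z + 1 = i) :
    (∃ k, k < m ∧ dc z = ed x k ∧ posf i m x z = 2 * k + 2) ∨
      ∃ k, k ≤ m ∧ dc z = {x k} ∧ posf i m x z = 2 * k + 1 := by
  rw [R.pos_upp lz]
  have hir : lev z < r := by have := R.W.hi2; omega
  obtain ⟨s0, hs0⟩ := dc_nonempty R.W.H (x := z) hir
  rcases dc_card_cases R.W.H (mem_dc.1 hs0) with h | h
  · right
    obtain ⟨s, hs⟩ := card_eq_one.1 h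
    have hs' : s ∈ dc z := by rw [hs]; simp
    have ls := lev_dc R.W.H hs'
    obtain ⟨k, hk, rfl⟩ := R.W.surj s (R.W.hC.dn hz (by omega) (mem_dc.1 hs')) (by omega)
    exact ⟨k, hk, hs, by rw [hs, av_one, R.ps1_x hk]⟩
  · left
    obtain ⟨k, hk, hu⟩ := R.W.up_ed hz lz h
    exact ⟨k, hk, hu, by rw [hu, R.av_ed hk]⟩

/-- the sites of an edge -/
lemma ed_site {k : ℕ} {s : P} (hs : s ∈ ed x k) : s = x k ∨ s = x (k + 1) := by
  unfold ed at hs
  rwa [mem_insert, mem_singleton] at hs

/-- positions of two sets of sites with a common site -/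
lemma share {S S' : Finset P} {p p' : ℕ}
    (h : (∃ k, k < m ∧ S = ed x k ∧ p = 2 * k + 2) ∨ ∃ k, k ≤ m ∧ S = {x k} ∧ p = 2 * k + 1)
    (h' : (∃ k, k < m ∧ S' = ed x k ∧ p' = 2 * k + 2) ∨ ∃ k, k ≤ m ∧ S' = {x k} ∧ p' = 2 * k + 1)
    {s : P} (hs : s ∈ S) (hs' : s ∈ S') : p = p' ∨ p = p' + 1 ∨ p' = p + 1 ∨
      (p % 2 = 0 ∧ (p = p' + 2 ∨ p' = p + 2)) := by
  have inj := R.W.inj
  rcases h with ⟨k, hk, rfl, rfl⟩ | ⟨k, hk, rfl, rfl⟩
  · rcases h' with ⟨l, hl, rfl, rfl⟩ | ⟨l, hl, rfl, rfl⟩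
    · rcases R.ed_site hs with h1 | h1 <;> rcases R.ed_site hs' with h2 | h2
      · have := inj k l (by omega) (by omega) (h1.symm.trans h2)
        omega
      · have := inj k (l + 1) (by omega) (by omega) (h1.symm.trans h2)
        omega
      · have := inj (k + 1) l (by omega) (by omega) (h1.symm.trans h2)
        omega
      · have := inj (k + 1) (l + 1) (by omega) (by omega) (h1.symm.trans h2)
        omega
    · rw [mem_singleton] at hs'
      rcases R.ed_site hs with h1 | h1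
      · have := inj k l (by omega) (by omega) (h1.symm.trans hs')
        omega
      · have := inj (k + 1) l (by omega) (by omega) (h1.symm.trans hs')
        omega
  · rw [mem_singleton] at hs
    rcases h' with ⟨l, hl, rfl, rfl⟩ | ⟨l, hl, rfl, rfl⟩
    · rcases R.ed_site hs' with h2 | h2
      · have := inj k l (by omega) (by omega) (hs.symm.trans h2)
        omega
      · have := inj k (l + 1) (by omega) (by omega) (hs.symm.trans h2)
        omega
    · rw [mem_singleton] at hs'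
      have := inj k l (by omega) (by omega) (hs.symm.trans hs')
      omega

/-- the position of a lower far element -/
lemma pos_far {z : P} (hz : z ∈ C) (lz : lev z = i + 2) :
    (∃ y, uc z = {y} ∧ posf i m x z = posf i m x y) ∨
      ∃ y y', y ≠ y' ∧ uc z = {y, y'} ∧ (posf i m x z = (posf i m x y + posf i m x y' + 1) / 2) ∧
        (posf i m x y = posf i m x y' ∨ posf i m x y = posf i m x y' + 1 ∨
          posf i m x y' = posf i m x y + 1 ∨ (posf i m x y % 2 = 0 ∧
            (posf i m x y = posf i m x y' + 2 ∨ posf i m x y' = posf i m x y + 2))) := by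
  have hp : posf i m x z = avc (fun y => av (ps1 m x) (uc y)) (uc z) := by
    unfold posf
    rw [if_neg (by omega), if_neg (by omega), if_neg (by omega), if_pos lz]
  rcases uc_card_cases R.W.H (x := z) (by omega) with h | h
  · left
    obtain ⟨y, hy⟩ := card_eq_one.1 h
    have hy' : y ∈ uc z := by rw [hy]; simp
    have ly := lev_uc R.W.H hy'
    refine ⟨y, hy, ?_⟩
    rw [hp, hy, avc_one, R.pos_low (by omega)]
  · right
    obtain ⟨y, y', hne, hy⟩ := card_eq_two.1 h
    have h1 : y ∈ uc z := by rw [hy]; simp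
    have h2 : y' ∈ uc z := by rw [hy]; simp
    have l1 := lev_uc R.W.H h1
    have l2 := lev_uc R.W.H h2
    obtain ⟨s, s1, s2⟩ := R.shL z hz lz y h1 y' h2 hne
    refine ⟨y, y', hne, hy, ?_, ?_⟩
    · rw [hp, hy, avc_two hne, R.pos_low (by omega), R.pos_low (by omega)]
    · exact R.share (R.tyL (R.W.hC.up hz (mem_uc.1 h1)) (by omega))
        (R.tyL (R.W.hC.up hz (mem_uc.1 h2)) (by omega)) s1 s2

/-- the position of an upper far element -/
lemma pos_farU {z : P} (hz : z ∈ C) (lz : lev z + 2 = i) :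
    (∃ y, dc z = {y} ∧ posf i m x z = posf i m x y) ∨
      ∃ y y', y ≠ y' ∧ dc z = {y, y'} ∧ (posf i m x z = (posf i m x y + posf i m x y' + 1) / 2) ∧
        (posf i m x y = posf i m x y' ∨ posf i m x y = posf i m x y' + 1 ∨
          posf i m x y' = posf i m x y + 1 ∨ (posf i m x y % 2 = 0 ∧
            (posf i m x y = posf i m x y' + 2 ∨ posf i m x y' = posf i m x y + 2))) := by
  have hp : posf i m x z = avc (fun y => av (ps1 m x) (dc y)) (dc z) := by
    unfold posf
    rw [if_neg (by omega), if_neg (by omega), if_neg (by omega), if_neg (by omega)]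
  have hir : lev z < r := by have := R.W.hi2; omega
  obtain ⟨s0, hs0⟩ := dc_nonempty R.W.H (x := z) hir
  rcases dc_card_cases R.W.H (mem_dc.1 hs0) with h | h
  · left
    obtain ⟨y, hy⟩ := card_eq_one.1 h
    have hy' : y ∈ dc z := by rw [hy]; simp
    have ly := lev_dc R.W.H hy'
    refine ⟨y, hy, ?_⟩
    rw [hp, hy, avc_one, R.pos_upp (by omega)]
  · right
    obtain ⟨y, y', hne, hy⟩ := card_eq_two.1 h
    have h1 : y ∈ dc z := by rw [hy]; simp
    have h2 : y' ∈ dc z := by rw [hy]; simp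
    have l1 := lev_dc R.W.H h1
    have l2 := lev_dc R.W.H h2
    obtain ⟨s, s1, s2⟩ := R.shU z hz lz y h1 y' h2 hne
    refine ⟨y, y', hne, hy, ?_, ?_⟩
    · rw [hp, hy, avc_two hne, R.pos_upp (by omega), R.pos_upp (by omega)]
    · exact R.share (R.tyU (R.W.hC.dn hz (by omega) (mem_dc.1 h1)) (by omega))
        (R.tyU (R.W.hC.dn hz (by omega) (mem_dc.1 h2)) (by omega)) s1 s2

lemma near_rng {z : P} (hz : z ∈ C) (lz : lev z = i + 1 ∨ lev z + 1 = i) :
    1 ≤ posf i m x z ∧ posf i m x z < 2 * (m + 1) := by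
  rcases lz with lz | lz
  · rcases R.tyL hz lz with ⟨k, h1, -, h2⟩ | ⟨k, h1, -, h2⟩ <;> omega
  · rcases R.tyU hz lz with ⟨k, h1, -, h2⟩ | ⟨k, h1, -, h2⟩ <;> omega

/-- near elements are next to their sites -/
lemma near_adj {z s : P} {S : Finset P} {p : ℕ} (hs : s ∈ S)
    (h : (∃ k, k < m ∧ S = ed x k ∧ p = 2 * k + 2) ∨ ∃ k, k ≤ m ∧ S = {x k} ∧ p = 2 * k + 1) :
    p ≤ posf i m x s + 1 ∧ posf i m x s ≤ p + 1 := by
  rcases h with ⟨k, hk, rfl, rfl⟩ | ⟨k, hk, rfl, rfl⟩
  · rcases R.ed_site hs with h1 | h1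
    · rw [h1, R.pos_site (by omega)]
      omega
    · rw [h1, R.pos_site (by omega)]
      omega
  · rw [mem_singleton] at hs
    rw [hs, R.pos_site hk]
    omega

/-- THE POSITIONS OF A ROW -/
theorem posS : PosS i (m + 1) C x (posf i m x) where
  stx := by
    intro v hv
    obtain ⟨h1, h2⟩ := mem_st.1 hv
    obtain ⟨k, hk, rfl⟩ := R.W.surj v h1 h2
    exact ⟨k, by omega, rfl⟩
  xst := fun k hk => mem_st.2 ⟨R.W.mem k (by omega), R.W.lev_x k (by omega)⟩
  px := fun k hk => R.pos_site (by omega)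
  adj := by
    intro z hz y hy hzy h1 h2
    have hl := lev_uc R.W.H (mem_uc.2 hzy)
    have hcase : lev z = i + 2 ∨ lev z = i + 1 ∨ lev z = i ∨ lev z + 1 = i := by omega
    rcases hcase with lz | lz | lz | lz
    · have hy' : y ∈ uc z := mem_uc.2 hzy
      rcases R.pos_far hz lz with ⟨a, ha, hp⟩ | ⟨a, a', hne, ha, hp, hd⟩
      · rw [ha, mem_singleton] at hy'
        subst hy'
        omega
      · rw [ha, mem_insert, mem_singleton] at hy'
        rcases hy' with rfl | rfl <;> omega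
    · exact R.near_adj (z := z) (mem_uc.2 hzy) (R.tyL hz lz)
    · have := R.near_adj (z := y) (mem_dc.2 hzy) (R.tyU hy (by omega))
      omega
    · have hz' : z ∈ dc y := mem_dc.2 hzy
      rcases R.pos_farU hy (by omega) with ⟨a, ha, hp⟩ | ⟨a, a', hne, ha, hp, hd⟩
      · rw [ha, mem_singleton] at hz'
        subst hz'
        omega
      · rw [ha, mem_insert, mem_singleton] at hz'
        rcases hz' with rfl | rfl <;> omega
  rng := by
    intro z hz hn
    obtain ⟨n1, n2⟩ := hn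
    have hcase : lev z = i + 2 ∨ lev z = i + 1 ∨ lev z = i ∨ lev z + 1 = i ∨ lev z + 2 = i := by
      omega
    rcases hcase with lz | lz | lz | lz | lz
    · rcases R.pos_far hz lz with ⟨a, ha, hp⟩ | ⟨a, a', hne, ha, hp, hd⟩
      · have h1 : a ∈ uc z := by rw [ha]; simp
        have l1 := lev_uc R.W.H h1
        have := R.near_rng (R.W.hC.up hz (mem_uc.1 h1)) (Or.inl (by omega))
        omega
      · have h1 : a ∈ uc z := by rw [ha]; simp
        have h2 : a' ∈ uc z := by rw [ha]; simp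
        have l1 := lev_uc R.W.H h1
        have l2 := lev_uc R.W.H h2
        have := R.near_rng (R.W.hC.up hz (mem_uc.1 h1)) (Or.inl (by omega))
        have := R.near_rng (R.W.hC.up hz (mem_uc.1 h2)) (Or.inl (by omega))
        omega
    · exact R.near_rng hz (Or.inl lz)
    · obtain ⟨k, hk, rfl⟩ := R.W.surj z hz lz
      rw [R.pos_site hk]
      omega
    · exact R.near_rng hz (Or.inr lz)
    · rcases R.pos_farU hz lz with ⟨a, ha, hp⟩ | ⟨a, a', hne, ha, hp, hd⟩
      · have h1 : a ∈ dc z := by rw [ha]; simp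
        have l1 := lev_dc R.W.H h1
        have := R.near_rng (R.W.hC.dn hz (by omega) (mem_dc.1 h1)) (Or.inr (by omega))
        omega
      · have h1 : a ∈ dc z := by rw [ha]; simp
        have h2 : a' ∈ dc z := by rw [ha]; simp
        have l1 := lev_dc R.W.H h1
        have l2 := lev_dc R.W.H h2
        have := R.near_rng (R.W.hC.dn hz (by omega) (mem_dc.1 h1)) (Or.inr (by omega))
        have := R.near_rng (R.W.hC.dn hz (by omega) (mem_dc.1 h2)) (Or.inr (by omega))
        omega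

theorem gpS : GpS i C (posf i m x) where
  gL := by
    intro z hz lz hp
    rcases R.pos_far hz lz with ⟨a, ha, hp'⟩ | ⟨a, a', hne, ha, hp', hd⟩
    · exact ⟨a, mem_uc.1 (by rw [ha]; simp), hp'.symm⟩
    · have h1 : z ⋖ a := mem_uc.1 (by rw [ha]; simp)
      have h2 : z ⋖ a' := mem_uc.1 (by rw [ha]; simp)
      rcases hd with h | h | h | h
      · exact ⟨a, h1, by omega⟩
      · exact ⟨a, h1, by omega⟩
      · exact ⟨a', h2, by omega⟩
      · omega
  gU := by
    intro z hz lz hp
    rcases R.pos_farU hz lz with ⟨a, ha, hp'⟩ | ⟨a, a', hne, ha, hp', hd⟩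
    · exact ⟨a, mem_dc.1 (by rw [ha]; simp), hp'.symm⟩
    · have h1 : a ⋖ z := mem_dc.1 (by rw [ha]; simp)
      have h2 : a' ⋖ z := mem_dc.1 (by rw [ha]; simp)
      rcases hd with h | h | h | h
      · exact ⟨a, h1, by omega⟩
      · exact ⟨a, h1, by omega⟩
      · exact ⟨a', h2, by omega⟩
      · omega

/-- a lower far element below the end is at the end -/
lemma endL {z p : P} (hz : z ∈ C) (lz : lev z = i + 2) (hzp : z ⋖ p)
    (hp : posf i m x p = 2 * m + 1) : posf i m x z = 2 * m + 1 := by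
  have hr := (R.posS.rng z hz ⟨by omega, by omega⟩).2
  have hp' : p ∈ uc z := mem_uc.2 hzp
  rcases R.pos_far hz lz with ⟨a, ha, hq⟩ | ⟨a, a', hne, ha, hq, hd⟩
  · rw [ha, mem_singleton] at hp'
    subst hp'
    omega
  · rw [ha, mem_insert, mem_singleton] at hp'
    rcases hp' with rfl | rfl <;> omega

lemma endU {z p : P} (hz : z ∈ C) (lz : lev z + 2 = i) (hzp : p ⋖ z)
    (hp : posf i m x p = 2 * m + 1) : posf i m x z = 2 * m + 1 := by
  have hr := (R.posS.rng z hz ⟨by omega, by omega⟩).2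
  have hp' : p ∈ dc z := mem_dc.2 hzp
  rcases R.pos_farU hz lz with ⟨a, ha, hq⟩ | ⟨a, a', hne, ha, hq, hd⟩
  · rw [ha, mem_singleton] at hp'
    subst hp'
    omega
  · rw [ha, mem_insert, mem_singleton] at hp'
    rcases hp' with rfl | rfl <;> omega

end RowP

end Pool.Agent.GaussPoset.Win.Kd
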