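import Pool.Agent.W_448kd_h10.KdN
import Pool.Agent.W_448kd_h10.KdM
import Pool.Agent.W_448ce_h84.CeE

/-!
MP_448cb3_co, G2, case B, block (K): from the list of the rows to the hypotheses of the block.  helper10.
-/

namespace Pool.Agent.GaussPoset.Win.Kd

set_option linter.unusedSectionVars false

open Finset
open Pool.Agent.GaussPoset.Win.W4 (PRow ed CeH LRow LOut UE mem_UE DLr)
open Pool.Agent.GaussPoset.Mp (dcv_inter ucv_inter)
open Pool.Agent.GaussPoset.Win.H2 (NoT)

universe u

variable {P : Type u} [Fintype P] [PartialOrder P] [DecidableEq P] {r i b : ℕ}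
variable {e : P → ℕ} {C K : Finset P} {psi : P → P} {x f : ℕ → P} {m : ℕ} {w v y0 a : P}

/-- a pair of lower covers -/
lemma dc_pair (H : Gr P r) {z s s' : P} (h1 : s ⋖ z) (h2 : s' ⋖ z) (hne : s ≠ s') :
    dc z = {s, s'} := by
  symm
  refine eq_of_subset_of_card_le ?_ ?_
  · intro y hy
    rw [mem_insert, mem_singleton] at hy
    rcases hy with rfl | rfl
    · exact mem_dc.2 h1
    · exact mem_dc.2 h2
  · rw [card_pair hne]
    exact dc_card_le H _

/-- a pair of upper covers -/
lemma uc_pair (H : Gr P r) {z s s' : P} (h1 : z ⋖ s) (h2 : z ⋖ s') (hne : s ≠ s') :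
    uc z = {s, s'} := by
  symm
  refine eq_of_subset_of_card_le ?_ ?_
  · intro y hy
    rw [mem_insert, mem_singleton] at hy
    rcases hy with rfl | rfl
    · exact mem_uc.2 h1
    · exact mem_uc.2 h2
  · rw [card_pair hne]
    exact uc_card_le H _

/-- the upper side of a row -/
structure URow (i : ℕ) (C : Finset P) (m : ℕ) (x g v : ℕ → P) : Prop where
  gd : ∀ k, k < m → dc (g k) = ed x k
  gC : ∀ k, k < m → g k ∈ C
  lg : ∀ k, k < m → lev (g k) + 1 = i
  gu : ∀ k, k < m → ∀ u, dc u = ed x k → u = g k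
  vd : ∀ k, k + 1 < m → dc (v k) = {g k, g (k + 1)}
  vC : ∀ k, k + 1 < m → v k ∈ C
  lv : ∀ k, k + 1 < m → lev (v k) + 2 = i
  vu : ∀ k, k + 1 < m → ∀ u, g k ⋖ u → g (k + 1) ⋖ u → u = v k

lemma ed_mem (x : ℕ → P) (k : ℕ) : x k ∈ ed x k ∧ x (k + 1) ∈ ed x k := by
  unfold ed
  exact ⟨by simp, by simp⟩

/-- the upper side of a row exists -/
theorem urow (W : PRow r i C m x) (hm : 1 ≤ m) (hg : ∀ n, n + 1 = i → Good P n) :
    ∃ g v, URow i C m x g v := by
  classical
  have H := W.H
  have h1 : ∀ k, k < m → ∃ u, dc u = ed x k ∧ u ∈ C ∧ lev u + 1 = i ∧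
      ∀ u', dc u' = ed x k → u' = u := by
    intro k hk
    have hd := W.up k (k + 1) (by omega) (by omega)
    rw [if_pos rfl, ucv_inter, card_eq_one] at hd
    obtain ⟨u, hu⟩ := hd
    have hu1 : u ∈ uc (x k) ∩ uc (x (k + 1)) := by rw [hu]; exact mem_singleton_self u
    rw [mem_inter] at hu1
    have hl := lev_uc H hu1.1
    have hx := W.lev_x k (by omega)
    have hi := W.hi
    refine ⟨u, dc_pair H (mem_uc.1 hu1.1) (mem_uc.1 hu1.2) (W.ne (by omega) (by omega) (by omega)),
      W.hC.up (W.mem k (by omega)) (mem_uc.1 hu1.1), by omega, ?_⟩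
    intro u' hu'
    have : u' ∈ uc (x k) ∩ uc (x (k + 1)) := by
      rw [mem_inter, mem_uc, mem_uc, ← mem_dc, ← mem_dc, hu']
      exact ed_mem x k
    rw [hu, mem_singleton] at this
    exact this
  have hG : ∃ g : ℕ → P, ∀ k, k < m → dc (g k) = ed x k ∧ g k ∈ C ∧ lev (g k) + 1 = i ∧
      ∀ u', dc u' = ed x k → u' = g k := by
    refine ⟨fun k => if hk : k < m then (h1 k hk).choose else x 0, ?_⟩
    intro k hk
    have := (h1 k hk).choose_spec
    simp only [dif_pos hk]
    exact this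
  obtain ⟨g, hG⟩ := hG
  have h2 : ∀ k, k + 1 < m → ∃ v, dc v = {g k, g (k + 1)} ∧ v ∈ C ∧ lev v + 2 = i ∧
      ∀ u, g k ⋖ u → g (k + 1) ⋖ u → u = v := by
    intro k hk
    obtain ⟨d1, c1, l1, -⟩ := hG k (by omega)
    obtain ⟨d2, c2, l2, -⟩ := hG (k + 1) hk
    have hne : g k ≠ g (k + 1) := by
      intro h
      rw [h, d2] at d1
      have := W.ed_inj (k := k + 1) (l := k) (by omega) (by omega) d1
      omega
    have hgood := hg (lev (g k)) l1 (g k) (g (k + 1)) rfl (by omega) hne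
    rw [ucv_inter, dcv_inter, d1, d2, (W.inter_ed (k := k) (l := k + 1) (by omega) hk).2
      (Or.inl rfl), card_eq_one] at hgood
    obtain ⟨v, hv⟩ := hgood
    have hv1 : v ∈ uc (g k) ∩ uc (g (k + 1)) := by rw [hv]; exact mem_singleton_self v
    rw [mem_inter] at hv1
    have hl := lev_uc H hv1.1
    refine ⟨v, dc_pair H (mem_uc.1 hv1.1) (mem_uc.1 hv1.2) hne,
      W.hC.up c1 (mem_uc.1 hv1.1), by omega, ?_⟩
    intro u a1 a2
    have : u ∈ uc (g k) ∩ uc (g (k + 1)) := mem_inter.2 ⟨mem_uc.2 a1, mem_uc.2 a2⟩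
    rw [hv, mem_singleton] at this
    exact this
  refine ⟨g, fun k => if hk : k + 1 < m then (h2 k hk).choose else x 0,
    fun k hk => (hG k hk).1, fun k hk => (hG k hk).2.1, fun k hk => (hG k hk).2.2.1,
    fun k hk => (hG k hk).2.2.2, ?_, ?_, ?_, ?_⟩
  · intro k hk
    simp only [dif_pos hk]
    exact (h2 k hk).choose_spec.1
  · intro k hk
    simp only [dif_pos hk]
    exact (h2 k hk).choose_spec.2.1
  · intro k hk
    simp only [dif_pos hk]
    exact (h2 k hk).choose_spec.2.2.1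
  · intro k hk
    simp only [dif_pos hk]
    exact (h2 k hk).choose_spec.2.2.2

/-- the far elements have neighbouring covers -/
theorem rowP_of (h : CeH r i K psi C w v m x) (hg : ∀ n, n + 1 = i → Good P n) : RowP r i C m x where
  W := h.D.W
  hd := h.D.hd
  shL := by
    intro z hz lz y hy y' hy' hne
    have H := h.D.W.H
    have ly := lev_uc H hy
    have ly' := lev_uc H hy'
    have key : ∀ t, t ∈ C → lev t = i + 1 → (uc t).card = 1 → t ∈ pen (x m) := by
      intro t htC lt h1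
      obtain ⟨s, hs⟩ := card_eq_one.1 h1
      have hs' : s ∈ uc t := by rw [hs]; simp
      have ls := lev_uc H hs'
      obtain ⟨k, hk, rfl⟩ := h.D.W.surj s (h.D.W.hC.up htC (mem_uc.1 hs')) (by omega)
      have hp : t ∈ pen (x k) := mem_pen.2 ⟨mem_uc.1 hs', h1⟩
      have hm := h.hm4
      by_contra hcon
      have hkm : k < m := by
        by_contra hge
        have : k = m := by omega
        subst this
        exact hcon hp
      have h8 : pen (x k) = ∅ := by
        rcases Nat.lt_or_ge k 3 with h9 | h9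
        · rcases (show k = 0 ∨ k = 1 ∨ k = 2 by omega) with rfl | rfl | rfl
          · exact h.D.pen0'
          · exact h.D.pen1'
          · exact h.D.W.pen0 2 le_rfl (by omega)
        · exact h.D.pen_k' h9 hkm
      rw [h8] at hp
      exact absurd hp (notMem_empty t)
    rcases uc_card_cases H (x := y) (by omega) with h1 | h1
    · rcases uc_card_cases H (x := y') (by omega) with h2 | h2
      · exfalso
        have k1 := key y (h.D.W.hC.up hz (mem_uc.1 hy)) (by omega) h1
        have k2 := key y' (h.D.W.hC.up hz (mem_uc.1 hy')) (by omega) h2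
        exact hne (card_le_one.1 (h.D.pen_m h.hm4) y k1 y' k2)
      · obtain ⟨s, s1, s2⟩ := h.hT z lz y' hy' y hy hne.symm h2
        exact ⟨s, s2, s1⟩
    · exact h.hT z lz y hy y' hy' hne h1
  shU := by
    intro z hz lz y hy y' hy' hne
    have H := h.D.W.H
    have ly := lev_dc H hy
    have ly' := lev_dc H hy'
    have h1 := ucv_pos (mem_dc.1 hy) (mem_dc.1 hy')
    rw [hg (lev y) (by omega) y y' rfl (by omega) hne, dcv_inter, card_pos] at h1
    obtain ⟨s, hs⟩ := h1
    rw [mem_inter] at hs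
    exact ⟨s, hs.1, hs.2⟩

section bridge

variable {g vv : ℕ → P}
variable (h : CeH r i K psi C w v m x) (L : LOut i C w y0 m x f a)
  (U : URow i C m x g vv) (R : RowP r i C m x)
include h L U R

omit L U in
lemma pos_ed {z : P} {k : ℕ} (hk : k < m) (hz : (lev z = i + 1 ∧ uc z = ed x k) ∨
    (lev z + 1 = i ∧ dc z = ed x k)) : posf i m x z = 2 * k + 2 := by
  rcases hz with ⟨h1, h2⟩ | ⟨h1, h2⟩
  · rw [R.pos_low h1, h2, R.av_ed hk]
  · rw [R.pos_upp h1, h2, R.av_ed hk]

omit U R in
/-- uniqueness of the lower doubles -/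
lemma f_uq {k : ℕ} (h2 : 2 ≤ k) (hk : k < m) {z : P} (hz : uc z = ed x k) : z = f k := by
  have hzk : z ∈ dc (x k) := mem_dc.2 (mem_uc.1 (by rw [hz]; exact (ed_mem x k).1))
  rcases Nat.lt_or_ge 2 k with h3 | h3
  · rw [L.L.dk k h3 hk, mem_insert, mem_singleton] at hzk
    rcases hzk with h4 | h4
    · rw [h4, L.L.uf (k - 1) (by omega) (by omega)] at hz
      have := h.D.W.ed_inj (k := k - 1) (l := k) (by omega) hk hz
      omega
    · exact h4
  · have : k = 2 := by omega
    subst this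
    rw [L.L.d2, mem_singleton] at hzk
    exact hzk

omit R in
lemma notK_f {k : ℕ} (h2 : 2 ≤ k) (hk : k < m) : f k ∉ K := by
  intro hK
  have hm := h.hm4
  rcases (h.D.Q.hK (f k) (L.L.fC k h2 hk)).1 hK with h1 | h1
  · have h3 := L.L.uf k h2 hk
    rw [h1, L.L.uw] at h3
    have := h.D.W.ed_inj (k := 0) (l := k) (by omega) hk h3
    omega
  · have h3 := L.L.lf k h2 hk
    have h4 := h.D.Q.lv0
    rw [h1] at h3
    omega

omit L R in
lemma notK_g {k : ℕ} (h2 : 2 ≤ k) (hk : k < m) : g k ∉ K := by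
  intro hK
  have hm := h.hm4
  rcases (h.D.Q.hK (g k) (U.gC k hk)).1 hK with h1 | h1
  · have h3 := U.lg k hk
    have h4 := h.D.Q.lw0
    rw [h1] at h3
    omega
  · have h3 := U.gd k hk
    rw [h1, h.D.hv] at h3
    have := h.D.W.ed_inj (k := 1) (l := k) (by omega) hk h3
    omega

omit R in
lemma psi_fg {k : ℕ} (h2 : 2 ≤ k) (hk : k < m) : psi (f k) = g k ∧ psi (g k) = f k := by
  have hM := h.D.Q.hM
  constructor
  · refine U.gu k hk _ ?_
    rw [(hM.low (f k) (mem_dbL.2 ⟨L.L.lf k h2 hk, by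
      rw [L.L.uf k h2 hk]; exact h.D.W.card_ed hk⟩) (notK_f h L U h2 hk)).2]
    exact L.L.uf k h2 hk
  · refine f_uq h L h2 hk ?_
    rw [(hM.upp (g k) (mem_dbU.2 ⟨U.lg k hk, by
      rw [U.gd k hk]; exact h.D.W.card_ed hk⟩) (notK_g h U h2 hk)).2]
    exact U.gd k hk

omit L R in
lemma g_one : g 1 = v := by
  have hm := h.hm4
  exact (U.gu 1 (by omega) v h.D.hv).symm

/-- near elements at even positions -/
lemma near4 {z : P} (hz : z ∈ C) (lz : lev z = i + 1 ∨ lev z + 1 = i)
    (pz : posf i m x z = 4) : z = v := by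
  rcases lz with lz | lz
  · rcases R.tyL hz lz with ⟨k, h1, h2, h3⟩ | ⟨k, h1, h2, h3⟩
    · have : k = 1 := by omega
      subst this
      exact absurd h2 (h.D.no_f1 z)
    · omega
  · rcases R.tyU hz lz with ⟨k, h1, h2, h3⟩ | ⟨k, h1, h2, h3⟩
    · have : k = 1 := by omega
      subst this
      rw [U.gu 1 h1 z h2, g_one h U]
    · omega

lemma near_e {k : ℕ} (h2 : 2 ≤ k) (hk : k < m) {z : P} (hz : z ∈ C)
    (lz : lev z = i + 1 ∨ lev z + 1 = i) (pz : posf i m x z = 2 * k + 2) : z = f k ∨ z = g k := by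
  rcases lz with lz | lz
  · rcases R.tyL hz lz with ⟨l, h1, h3, h4⟩ | ⟨l, h1, h3, h4⟩
    · have : l = k := by omega
      subst this
      exact Or.inl (f_uq h L h2 hk h3)
    · omega
  · rcases R.tyU hz lz with ⟨l, h1, h3, h4⟩ | ⟨l, h1, h3, h4⟩
    · have : l = k := by omega
      subst this
      exact Or.inr (U.gu l h1 z h3)
    · omega

omit L in
lemma psi_two {z : P} (hz : z ∈ C) (pz : posf i m x z = 2) (hd : z ∈ dbL P i ∪ dbU P i)
    (hK : z ∉ K) : psi z ∈ C ∧ posf i m x (psi z) = 2 := by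
  have hM := h.D.Q.hM
  have hm := h.hm4
  rcases mem_union.1 hd with h1 | h1
  · obtain ⟨lz, hc⟩ := mem_dbL.1 h1
    have hu : uc z = ed x 0 := by
      rcases R.tyL hz lz with ⟨l, h1, h3, h4⟩ | ⟨l, h1, h3, h4⟩
      · have : l = 0 := by omega
        subst this
        exact h3
      · omega
    obtain ⟨h3, h4⟩ := hM.low z h1 hK
    have h5 := (mem_dbU.1 h3).1
    rw [hu] at h4
    rw [U.gu 0 (by omega) _ h4]
    exact ⟨U.gC 0 (by omega), pos_ed h R (k := 0) (by omega)
      (Or.inr ⟨U.lg 0 (by omega), U.gd 0 (by omega)⟩)⟩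
  · obtain ⟨lz, hc⟩ := mem_dbU.1 h1
    have hu : dc z = ed x 0 := by
      rcases R.tyU hz lz with ⟨l, h1, h3, h4⟩ | ⟨l, h1, h3, h4⟩
      · have : l = 0 := by omega
        subst this
        exact h3
      · omega
    obtain ⟨h3, h4⟩ := hM.upp z h1 hK
    have h5 := (mem_dbL.1 h3).1
    rw [hu] at h4
    have hcov : psi z ⋖ x 0 := mem_uc.1 (by rw [h4]; exact (ed_mem x 0).1)
    refine ⟨h.D.W.hC.dn (h.D.W.mem 0 (by omega)) ?_ hcov, ?_⟩
    · have := h.D.W.lev_x 0 (by omega)
      omega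
    · exact pos_ed h R (k := 0) (by omega) (Or.inl ⟨h5, h4⟩)

omit L R in
/-- upper covers of the inner sites -/
lemma uc_in {k : ℕ} (h1 : 1 ≤ k) (hk : k < m) : uc (x k) = {g (k - 1), g k} := by
  have H := h.D.W.H
  refine uc_pair H ?_ ?_ ?_
  · have := (ed_mem x (k - 1)).2
    rw [show k - 1 + 1 = k by omega] at this
    exact mem_dc.1 (by rw [U.gd (k - 1) (by omega)]; exact this)
  · exact mem_dc.1 (by rw [U.gd k hk]; exact (ed_mem x k).1)
  · intro hne
    have h3 := U.gd (k - 1) (by omega)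
    rw [hne, U.gd k hk] at h3
    have := h.D.W.ed_inj (k := k) (l := k - 1) hk (by omega) h3
    omega

omit L R in
lemma g_ne {k l : ℕ} (hk : k < m) (hl : l < m) (hne : k ≠ l) : g k ≠ g l := by
  intro h1
  have h3 := U.gd k hk
  rw [h1, U.gd l hl] at h3
  have := h.D.W.ed_inj (k := l) (l := k) hl hk h3
  omega

omit L R in
/-- upper covers of the inner upper elements -/
lemma uc_g {k : ℕ} (hk : k + 2 < m) : uc (g (k + 1)) = {vv k, vv (k + 1)} := by
  have H := h.D.W.H
  refine uc_pair H ?_ ?_ ?_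
  · exact mem_dc.1 (by rw [U.vd k (by omega)]; simp)
  · exact mem_dc.1 (by rw [U.vd (k + 1) (by omega)]; simp)
  · intro hne
    have h1 : g k ∈ dc (vv (k + 1)) := by rw [← hne, U.vd k (by omega)]; simp
    rw [U.vd (k + 1) (by omega), mem_insert, mem_singleton] at h1
    rcases h1 with h1 | h1
    · exact g_ne h U (by omega) (by omega) (by omega) h1
    · exact g_ne h U (by omega) (by omega) (by omega) h1

/-- the upper covers of the last upper element -/
lemma uc_last {t : P} (ht : t ∈ uc (g (m - 1))) (hne : t ≠ vv (m - 2)) :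
    (dc t = {g (m - 1)} ∧ posf i m x t = 2 * m) ∨
      ∃ s, dc s = {x m} ∧ s ∈ dc t ∧ posf i m x t = 2 * m + 1 := by
  have H := h.D.W.H
  have hm := h.hm4
  have lg := U.lg (m - 1) (by omega)
  have lt := lev_uc H ht
  have tC := h.D.W.hC.up (U.gC (m - 1) (by omega)) (mem_uc.1 ht)
  have pg : posf i m x (g (m - 1)) = 2 * m := by
    rw [pos_ed h R (k := m - 1) (by omega) (Or.inr ⟨lg, U.gd (m - 1) (by omega)⟩)]
    omega
  have hgt : g (m - 1) ∈ dc t := mem_dc.2 (mem_uc.1 ht)
  -- the other cover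
  have other : ∀ s, s ∈ dc t → s ≠ g (m - 1) →
      (posf i m x (g (m - 1)) = posf i m x s ∨ posf i m x (g (m - 1)) = posf i m x s + 1 ∨
        posf i m x s = posf i m x (g (m - 1)) + 1 ∨ (posf i m x (g (m - 1)) % 2 = 0 ∧
        (posf i m x (g (m - 1)) = posf i m x s + 2 ∨ posf i m x s = posf i m x (g (m - 1)) + 2))) →
      dc s = {x m} ∧ posf i m x s = 2 * m + 1 := by
    intro s hs hsg hd
    have ls := lev_dc H hs
    have sC := h.D.W.hC.dn tC (by omega) (mem_dc.1 hs)
    rcases R.tyU sC (by omega) with ⟨k, h1, h2, h3⟩ | ⟨k, h1, h2, h3⟩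
    · exfalso
      have hsk := U.gu k h1 s h2
      have hk : k = m - 2 ∨ k = m - 1 := by omega
      rcases hk with rfl | rfl
      · apply hne
        refine U.vu (m - 2) (by omega) t ?_ ?_
        · rw [← hsk]; exact mem_dc.1 hs
        · rw [show m - 2 + 1 = m - 1 by omega]; exact mem_uc.1 ht
      · exact hsg hsk
    · have hk : k = m - 1 ∨ k = m := by omega
      rcases hk with rfl | rfl
      · exfalso
        have h4 : s ∈ uc (x (m - 1)) := mem_uc.2 (mem_dc.1 (by rw [h2]; simp))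
        rw [uc_in h U (by omega) (by omega), mem_insert, mem_singleton] at h4
        have h5 : (dc s).card = 2 := by
          rcases h4 with h4 | h4
          · rw [h4, U.gd _ (by omega)]; exact h.D.W.card_ed (by omega)
          · rw [h4, U.gd _ (by omega)]; exact h.D.W.card_ed (by omega)
        rw [h2, card_singleton] at h5
        omega
      · exact ⟨h2, h3⟩
  rcases R.pos_farU tC (by omega) with ⟨s, hs, hp⟩ | ⟨s, s', hss, hs, hp, hd⟩
  · left
    rw [hs, mem_singleton] at hgt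
    subst hgt
    exact ⟨hs, by rw [hp, pg]⟩
  · right
    have m1 : s ∈ dc t := by rw [hs]; simp
    have m2 : s' ∈ dc t := by rw [hs]; simp
    rw [hs, mem_insert, mem_singleton] at hgt
    rcases hgt with h1 | h1
    · rw [← h1] at hp hd hss
      obtain ⟨o1, o2⟩ := other s' m2 (fun h => hss h.symm) hd
      exact ⟨s', o1, m2, by omega⟩
    · rw [← h1] at hp hd hss
      obtain ⟨o1, o2⟩ := other s m1 hss (by omega)
      exact ⟨s, o1, m1, by omega⟩

omit U in
lemma pos_a {z : P} (hz : z ∈ dc (f 2)) (hzC : z ∈ C) : posf i m x z = 6 := by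
  have hm := h.hm4
  have H := h.D.W.H
  have hlz := lev_dc H hz
  have lf := L.L.lf 2 le_rfl (by omega)
  rw [L.da, mem_singleton] at hz
  subst hz
  have pf : posf i m x (f 2) = 6 := by
    rw [pos_ed h R (k := 2) (by omega) (Or.inl ⟨lf, L.L.uf 2 le_rfl (by omega)⟩)]
  rcases R.pos_far hzC (by omega) with ⟨s, hs, hp⟩ | ⟨s, s', hss, hs, hp, hd⟩
  · rw [L.ua] at hs
    have := singleton_injective hs
    rw [hp, ← this, pf]
  · have h1 := congrArg card hs
    rw [L.ua, card_singleton, card_pair hss] at h1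
    omega

end bridge

end Pool.Agent.GaussPoset.Win.Kd
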