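import Pool.Agent.W_448kd_h10.KdO

/-!
MP_448cb3_co, G2, case B, block (K): the window sums of the parts of the list with five and six sites.
helper10.
-/

namespace Pool.Agent.GaussPoset.Win.Kd

set_option linter.unusedSectionVars false

open Finset
open Pool.Agent.GaussPoset.Win.W4 (PRow ed CeH LRow LOut UE mem_UE DLr)
open Pool.Agent.GaussPoset.Mp (dcv_inter ucv_inter)
open Pool.Agent.GaussPoset.Win.H2 (NoT)

universe u

variable {P : Type u} [Fintype P] [PartialOrder P] [DecidableEq P] {r i b : ℕ}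
variable {e : P → ℕ} {C K : Finset P} {psi : P → P} {x f g vv : ℕ → P} {m : ℕ} {w v y0 a : P}

section ends

variable (h : CeH r i K psi C w v m x) (U : URow i C m x g vv) (R : RowP r i C m x)
include h U R

/-- upper elements at the last site -/
lemma uc_end {z : P} (hz : z ∈ uc (x m)) (hne : z ≠ g (m - 1)) :
    dc z = {x m} ∧ posf i m x z = 2 * m + 1 := by
  have H := h.D.W.H
  have hm := h.hm4
  have hi := h.D.W.hi
  have lx := h.D.W.lev_x m le_rfl
  have lz := lev_uc H hz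
  have zC := h.D.W.hC.up (h.D.W.mem m le_rfl) (mem_uc.1 hz)
  have hxz : x m ∈ dc z := mem_dc.2 (mem_uc.1 hz)
  rcases R.tyU zC (by omega) with ⟨k, h1, h2, h3⟩ | ⟨k, h1, h2, h3⟩
  · exfalso
    rw [h2] at hxz
    have := (h.D.W.mem_ed (a := m) (k := k) le_rfl h1).1 hxz
    have hk : k = m - 1 := by omega
    subst hk
    exact hne (U.gu _ h1 z h2)
  · rw [h2, mem_singleton] at hxz
    have := h.D.W.inj m k le_rfl h1 hxz
    subst this
    exact ⟨h2, h3⟩

omit U in
/-- single elements below the last site -/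
lemma pen_end {z : P} (hz : z ∈ pen (x m)) : uc z = {x m} ∧ lev z = i + 1 ∧
    posf i m x z = 2 * m + 1 := by
  have H := h.D.W.H
  have lx := h.D.W.lev_x m le_rfl
  have h1 := mem_pen.1 hz
  have lz := lev_cov H h1.1
  have hu : uc z = {x m} := by
    obtain ⟨s, hs⟩ := card_eq_one.1 h1.2
    have : x m ∈ uc z := mem_uc.2 h1.1
    rw [hs, mem_singleton] at this
    rw [hs, this]
  refine ⟨hu, by omega, ?_⟩
  rw [R.pos_low (by omega), hu, av_one, R.ps1_x le_rfl]

end ends

/-- the hypotheses of the block for the parts with six sites -/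
theorem ce_kr6 (h : CeH r i K psi C w v 5 x) (L : LOut i C w y0 5 x f a)
    (hg : ∀ n, n + 1 = i → Good P n) : ∃ u2 u3 u4 v12 v13 v14 E E',
      KR6 i C K psi x (posf i 5 x) w v (f 2) (f 3) (f 4) u2 u3 u4 v12 v13 v14 E E' ∧
        E ∈ C ∧ E' ∈ C := by
  have H := h.D.W.H
  have R := rowP_of h hg
  obtain ⟨g, vv, U⟩ := urow h.D.W (by omega) hg
  obtain ⟨b1, b2⟩ := L.blk 1 le_rfl (by norm_num)
  norm_num at b1 b2
  obtain ⟨E, E', hEE, hd⟩ := card_eq_two.1 b2
  have hd' : dc (f 4) = {E, E'} := by rw [← b1, hd]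
  have f34 : f 3 ≠ f 4 := by
    intro h1
    have h2 := L.L.uf 3 (by norm_num) (by norm_num)
    rw [h1, L.L.uf 4 (by norm_num) (by norm_num)] at h2
    have := h.D.W.ed_inj (k := 4) (l := 3) (by norm_num) (by norm_num) h2
    omega
  have uE : uc E = {f 3, f 4} := uc_pair H (mem_dc.1 (by rw [hd]; simp))
    (mem_dc.1 (by rw [hd']; simp)) f34
  have uE' : uc E' = {f 3, f 4} := uc_pair H (mem_dc.1 (by rw [hd]; simp))
    (mem_dc.1 (by rw [hd']; simp)) f34
  have l3 := L.L.lf 3 (by norm_num) (by norm_num)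
  have inC : ∀ F, uc F = {f 3, f 4} → F ∈ C := by
    intro F hF
    have h1 : f 3 ∈ uc F := by rw [hF]; simp
    have := lev_uc H h1
    refine h.cl F (by omega) ?_
    intro s hs
    rw [hF, mem_insert, mem_singleton] at hs
    rcases hs with rfl | rfl
    · exact L.L.fC 3 (by norm_num) (by norm_num)
    · exact L.L.fC 4 (by norm_num) (by norm_num)
  refine ⟨g 2, g 3, g 4, vv 1, vv 2, vv 3, E, E', ?_, inC E uE, inC E' uE'⟩
  refine
    { ps := R.posS
      gp := R.gpS
      ucw2 := L.L.uf 2 (by norm_num) (by norm_num)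
      ucw3 := L.L.uf 3 (by norm_num) (by norm_num)
      ucw4 := L.L.uf 4 (by norm_num) (by norm_num)
      dcu2 := U.gd 2 (by norm_num)
      dcu3 := U.gd 3 (by norm_num)
      dcu4 := U.gd 4 (by norm_num)
      dcx3 := L.L.dk 3 (by norm_num) (by norm_num)
      dcx4 := L.L.dk 4 (by norm_num) (by norm_num)
      ucx3 := uc_in h U (k := 3) (by norm_num) (by norm_num)
      ucx4 := uc_in h U (k := 4) (by norm_num) (by norm_num)
      dcx5 := ?_
      ucx5 := fun z hz hne => (uc_end h U R hz hne).2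
      fL := fun z hz lz p hp pp => R.endL hz lz hp pp
      fU := fun z hz lz p hp pp => R.endU hz lz hp pp
      dcw2 := fun z hz hzC => pos_a h L R hz hzC
      dcw3 := hd
      dcw4 := hd'
      ucE := uE
      ucE' := uE'
      EE := hEE
      ucu2 := uc_g h U (k := 1) (by norm_num)
      ucu3 := uc_g h U (k := 2) (by norm_num)
      ucu4 := ?_
      v14u := mem_uc.2 (mem_dc.1 (by rw [U.vd 3 (by norm_num)]; simp))
      dcv12 := ?_
      dcv13 := U.vd 2 (by norm_num)
      dcv14 := U.vd 3 (by norm_num)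
      yu := ⟨h.D.Q.wK, h.D.Q.vK, h.D.Q.wC, h.D.Q.vC⟩
      ucy := L.L.uw
      dcu := h.D.hv
      hK := fun k hk hkC => (h.D.Q.hK k hkC).1 hk
      n4 := fun z hz lz pz => near4 h L U R hz lz pz
      n6 := fun z hz lz pz => near_e h L U R (k := 2) (by norm_num) (by norm_num) hz lz pz
      n8 := fun z hz lz pz => near_e h L U R (k := 3) (by norm_num) (by norm_num) hz lz pz
      n10 := fun z hz lz pz => near_e h L U R (k := 4) (by norm_num) (by norm_num) hz lz pz
      psi2 := psi_fg h L U (k := 2) (by norm_num) (by norm_num)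
      psi3 := psi_fg h L U (k := 3) (by norm_num) (by norm_num)
      psi4 := psi_fg h L U (k := 4) (by norm_num) (by norm_num)
      psin := fun z hz pz hd hK => psi_two h U R hz pz hd hK }
  · intro z hz hne
    rw [L.L.dm, mem_insert] at hz
    rcases hz with hz | hz
    · exact absurd hz hne
    · exact (pen_end h R hz).2.2
  · intro t ht hne
    rcases uc_last h L U R (t := t) ht hne with ⟨-, h1⟩ | ⟨s, -, -, h1⟩
    · exact Or.inl h1
    · exact Or.inr h1
  · have := U.vd 1 (by norm_num)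
    rwa [g_one h U] at this

/-- BLOCK (K) FOR THE LIST, SIX SITES -/
theorem ce6 (h : CeH r i K psi C w v 5 x) (L : LOut i C w y0 5 x f a)
    (hg : ∀ n, n + 1 = i → Good P n) :
    (st i C).card = 6 ∧ dd ^ 3 ∣ ZC i C 7 ∧ dd ^ 2 ∣ ZC i C 9 ∧ dd ^ 2 ∣ ZC i C 10 ∧
      PowerSeries.coeff 2 (ZC i C 8) = 1 := by
  obtain ⟨u2, u3, u4, v12, v13, v14, E, E', Q, hE, hE'⟩ := ce_kr6 h L hg
  exact ⟨Q.ps.card, K6 h.D.W.H h.D.W.hi h.D.W.hi2 h.D.Q.hM h.hT hg h.D.W.hC Q hE hE'⟩

/-- the hypotheses of the block for the parts with five sites -/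
theorem ce_kr5 (h : CeH r i K psi C w v 4 x) (L : LOut i C w y0 4 x f a)
    (hg : ∀ n, n + 1 = i → Good P n) : ∃ p4 u2 u3 v12 v13 E E',
      KR5 i C K psi x (posf i 4 x) w v (f 2) (f 3) p4 u2 u3 v12 v13 E E' ∧
        posf i 4 x p4 = 9 := by
  have H := h.D.W.H
  have R := rowP_of h hg
  obtain ⟨g, vv, U⟩ := urow h.D.W (by omega) hg
  obtain ⟨p, hp, b1, b2⟩ : ∃ p, pen (x 4) = {p} ∧ dc p = dc (f 3) ∧ (dc p).card = 2 := by
    rcases L.fin with ⟨-, h1⟩ | ⟨h1, -⟩ | ⟨k, h1, h2, -⟩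
    · exact h1
    · omega
    · omega
  have hpp : p ∈ pen (x 4) := by rw [hp]; simp
  obtain ⟨up, lp, pp⟩ := pen_end h R hpp
  obtain ⟨E, E', hEE, hd⟩ := card_eq_two.1 b2
  have hd' : dc (f 3) = {E, E'} := by rw [← b1, hd]
  have l3 := L.L.lf 3 (by norm_num) (by norm_num)
  have u3 := L.L.uf 3 (by norm_num) (by norm_num)
  have f3p : f 3 ≠ p := by
    intro h1
    have h2 : (uc (f 3)).card = 2 := by rw [u3]; exact h.D.W.card_ed (k := 3) (by norm_num)
    rw [h1, up, card_singleton] at h2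
    omega
  have uE : uc E = {f 3, p} := uc_pair H (mem_dc.1 (by rw [hd']; simp))
    (mem_dc.1 (by rw [hd]; simp)) f3p
  have uE' : uc E' = {f 3, p} := uc_pair H (mem_dc.1 (by rw [hd']; simp))
    (mem_dc.1 (by rw [hd]; simp)) f3p
  have pE : ∀ F, uc F = {f 3, p} → F ∈ C → posf i 4 x F = 9 := by
    intro F hF hFC
    have h1 : f 3 ∈ uc F := by rw [hF]; simp
    have := lev_uc H h1
    exact R.endL hFC (by omega) (p := p) (mem_uc.1 (by rw [hF]; simp)) pp
  have ue : UE i C x 3 = ∅ := h.hU (by rw [hp]; simp)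
  refine ⟨p, g 2, g 3, vv 1, vv 2, E, E', ?_, pp⟩
  refine
    { ps := R.posS
      gp := R.gpS
      ucw2 := L.L.uf 2 (by norm_num) (by norm_num)
      ucw3 := L.L.uf 3 (by norm_num) (by norm_num)
      dcu2 := U.gd 2 (by norm_num)
      dcu3 := U.gd 3 (by norm_num)
      dcx3 := L.L.dk 3 (by norm_num) (by norm_num)
      ucx3 := uc_in h U (k := 3) (by norm_num) (by norm_num)
      dcx4 := ?_
      ucp4 := up
      ucx4 := fun z hz hne => uc_end h U R hz hne
      dcw2 := fun z hz hzC => pos_a h L R hz hzC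
      dcw3 := hd'
      dcp4 := ?_
      ucE := uE
      ucE' := uE'
      pE := ⟨pE E uE, pE E' uE'⟩
      ucu2 := uc_g h U (k := 1) (by norm_num)
      ucu3 := ?_
      fU := fun z hz lz p hp pp => R.endU hz lz hp pp
      dcv12 := ?_
      dcv13 := U.vd 2 (by norm_num)
      yu := ⟨h.D.Q.wK, h.D.Q.vK, h.D.Q.wC, h.D.Q.vC⟩
      ucy := L.L.uw
      dcu := h.D.hv
      hK := fun k hk hkC => (h.D.Q.hK k hkC).1 hk
      n4 := fun z hz lz pz => near4 h L U R hz lz pz
      n6 := fun z hz lz pz => near_e h L U R (k := 2) (by norm_num) (by norm_num) hz lz pz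
      n8 := fun z hz lz pz => near_e h L U R (k := 3) (by norm_num) (by norm_num) hz lz pz
      psi2 := psi_fg h L U (k := 2) (by norm_num) (by norm_num)
      psi3 := psi_fg h L U (k := 3) (by norm_num) (by norm_num) }
  · rw [L.L.dm, hp]
  · intro z hz _
    rw [hd, mem_insert, mem_singleton] at hz
    exact hz
  · intro t ht hne
    have lg := U.lg 3 (by norm_num)
    have lt := lev_uc H ht
    have tC := h.D.W.hC.up (U.gC 3 (by norm_num)) (mem_uc.1 ht)
    rcases uc_last h L U R (t := t) ht hne with ⟨h1, -⟩ | ⟨s, h1, h2, h3⟩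
    · exfalso
      have : t ∈ UE i C x 3 := by
        refine mem_UE.2 ⟨tC, mem_PU.2 ⟨by omega, by rw [h1, card_singleton], g 3, mem_uc.1 ht, ?_⟩, ?_⟩
        · rw [U.gd 3 (by norm_num)]
          exact h.D.W.card_ed (k := 3) (by norm_num)
        · rw [SO.sit_PU H (by omega) h1, U.gd 3 (by norm_num)]
      rw [ue] at this
      exact absurd this (notMem_empty t)
    · have ls := lev_dc H h2
      refine ⟨h3, s, h2, h1, ?_⟩
      rw [R.pos_upp (by omega), h1, av_one, R.ps1_x le_rfl]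
  · have := U.vd 1 (by norm_num)
    rwa [g_one h U] at this

/-- BLOCK (K) FOR THE LIST, FIVE SITES -/
theorem ce5 (h : CeH r i K psi C w v 4 x) (L : LOut i C w y0 4 x f a)
    (hg : ∀ n, n + 1 = i → Good P n) :
    (st i C).card = 5 ∧ dd ^ 3 ∣ ZC i C 6 ∧ dd ^ 2 ∣ ZC i C 7 := by
  obtain ⟨p4, u2, u3, v12, v13, E, E', Q, hp⟩ := ce_kr5 h L hg
  exact ⟨Q.ps.card, K5 h.D.W.H h.D.W.hi h.D.W.hi2 h.D.Q.hM h.hT hg h.D.W.hC Q hp⟩

end Pool.Agent.GaussPoset.Win.Kd
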